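import Mathlib

/-!
# MP_29211c_nt: definitions

`ch p t` is the Legendre symbol `(t/p)` as a complex number; `DM` is the matrix of the problem;
`QS p` is the field `ℚ(√p)` inside `ℝ`; `unitsGT p` is the set of its units `> 1`.
-/

set_option autoImplicit false

namespace LegDet

open NumberField

/-- The Legendre symbol `(t/p)` as a complex number. -/
noncomputable def ch (p : ℕ) [Fact p.Prime] (t : ZMod p) : ℂ := ((quadraticChar (ZMod p) t : ℤ) : ℂ)

/-- The Gauss sum `τ = ∑ (t/p) ψ(t)`. -/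
noncomputable def tau (p : ℕ) [Fact p.Prime] (ψ : AddChar (ZMod p) ℂ) : ℂ := ∑ t : ZMod p, ch p t * ψ t

/-- `∏ (1 - ψ(t))` over the quadratic residues `t`. -/
noncomputable def fR (p : ℕ) [Fact p.Prime] (ψ : AddChar (ZMod p) ℂ) : ℂ :=
  ∏ t ∈ Finset.univ.filter (fun t : ZMod p => quadraticChar (ZMod p) t = 1), (1 - ψ t)

/-- `∏ (1 - ψ(t))` over the quadratic nonresidues `t`. -/
noncomputable def fN (p : ℕ) [Fact p.Prime] (ψ : AddChar (ZMod p) ℂ) : ℂ :=
  ∏ t ∈ Finset.univ.filter (fun t : ZMod p => quadraticChar (ZMod p) t = -1), (1 - ψ t)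

/-- The real quadratic field `ℚ(√p)`, as a subfield of `ℝ`. -/
noncomputable def QS (p : ℕ) : IntermediateField ℚ ℝ := IntermediateField.adjoin ℚ {Real.sqrt (p : ℝ)}

instance QS_finite (p : ℕ) : FiniteDimensional ℚ (QS p) := by
  unfold QS
  apply IntermediateField.adjoin.finiteDimensional
  refine ⟨Polynomial.X ^ 2 - Polynomial.C (p : ℚ), Polynomial.monic_X_pow_sub_C _ (by norm_num), ?_⟩
  simp

instance QS_numberField (p : ℕ) : NumberField (QS p) where
  to_charZero := inferInstance
  to_finiteDimensional := inferInstance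

/-- The units `> 1` of the ring of integers of `ℚ(√p)`, as real numbers. -/
def unitsGT (p : ℕ) : Set ℝ :=
  {u : ℝ | 1 < u ∧ ∃ η : (𝓞 (QS p))ˣ, (((η : 𝓞 (QS p)) : QS p) : ℝ) = u}

/-- The class number of `ℚ(√p)`. -/
noncomputable def hp (p : ℕ) : ℕ := NumberField.classNumber (QS p)

/-- the Legendre symbol mod `p` as a complex Dirichlet character. -/
noncomputable def chiC (p : ℕ) [Fact p.Prime] : DirichletCharacter ℂ p :=
  (quadraticChar (ZMod p)).ringHomComp (Int.castRingHom ℂ)

end LegDet
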