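import Pool.Agent.Work.MP_29211c_nt.Defs

/-!
# MP_29211c_nt: integers and discriminant of `ℚ(√p)` for `p ≡ 1 mod 4`
-/

set_option autoImplicit false

namespace LegDet

open NumberField Polynomial

section Basics

variable (p : ℕ) [Fact p.Prime]

/-- `√p` as an element of `ℚ(√p)`. -/
noncomputable def sq (p : ℕ) : QS p :=
  ⟨Real.sqrt (p : ℝ), IntermediateField.mem_adjoin_simple_self ℚ _⟩

theorem coe_sq (p : ℕ) : ((sq p : QS p) : ℝ) = Real.sqrt p := rfl

theorem coe_two' (p : ℕ) : ((2 : QS p) : ℝ) = 2 := rfl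

theorem sqrt_sq' (p : ℕ) : Real.sqrt (p : ℝ) * Real.sqrt (p : ℝ) = p :=
  Real.mul_self_sqrt (Nat.cast_nonneg p)

theorem sq_mul_self (p : ℕ) : sq p * sq p = (p : QS p) := by
  apply Subtype.ext
  simp [coe_sq]

theorem irrational_sqrt : Irrational (Real.sqrt (p : ℝ)) :=
  (Fact.out : p.Prime).irrational_sqrt

theorem rat_ind {a b : ℚ} (h : (a : ℝ) + b * Real.sqrt p = 0) : a = 0 ∧ b = 0 := by
  have hb : b = 0 := by
    by_contra hb
    apply irrational_sqrt p
    refine ⟨-a / b, ?_⟩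
    have hb' : (b : ℝ) ≠ 0 := by exact_mod_cast hb
    push_cast
    field_simp
    linarith
  subst hb
  refine ⟨?_, rfl⟩
  simpa using h

theorem isAlgebraic_sqrt (p : ℕ) : IsIntegral ℚ (Real.sqrt (p : ℝ)) := by
  refine ⟨X ^ 2 - C (p : ℚ), monic_X_pow_sub_C _ (by norm_num), ?_⟩
  simp

omit [Fact p.Prime] in
theorem exists_repr (x : QS p) : ∃ a b : ℚ, (x : ℝ) = a + b * Real.sqrt p := by
  have hx : (x : ℝ) ∈ (IntermediateField.adjoin ℚ {Real.sqrt (p : ℝ)}).toSubalgebra := x.2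
  rw [IntermediateField.adjoin_simple_toSubalgebra_of_isAlgebraic
    (isAlgebraic_sqrt p).isAlgebraic] at hx
  generalize (x : ℝ) = t at hx
  induction hx using Algebra.adjoin_induction with
  | mem y hy =>
    rw [Set.mem_singleton_iff] at hy
    subst hy
    exact ⟨0, 1, by simp⟩
  | algebraMap r => exact ⟨r, 0, by simp⟩
  | add y z _ _ hy hz =>
    obtain ⟨a, b, h⟩ := hy
    obtain ⟨c, d, h'⟩ := hz
    refine ⟨a + c, b + d, ?_⟩
    rw [h, h']
    push_cast
    ring
  | mul y z _ _ hy hz =>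
    obtain ⟨a, b, h⟩ := hy
    obtain ⟨c, d, h'⟩ := hz
    refine ⟨a * c + p * (b * d), a * d + b * c, ?_⟩
    rw [h, h']
    push_cast
    linear_combination (b * d : ℝ) * sqrt_sq' p

omit [Fact p.Prime] in
theorem exists_repr' (x : QS p) : ∃ a b : ℚ, x = algebraMap ℚ (QS p) a + algebraMap ℚ (QS p) b * sq p := by
  obtain ⟨a, b, h⟩ := exists_repr p x
  refine ⟨a, b, ?_⟩
  apply Subtype.ext
  rw [h]
  simp [coe_sq]

theorem minpoly_sqrt : minpoly ℚ (Real.sqrt (p : ℝ)) = X ^ 2 - C (p : ℚ) := by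
  symm
  apply minpoly.unique ℚ _ (monic_X_pow_sub_C _ (by norm_num))
  · simp
  · intro q hq hq0
    rw [degree_X_pow_sub_C (by norm_num)]
    by_contra hlt
    push Not at hlt
    have hdeg : q.natDegree < 2 := by
      rw [← Nat.cast_lt (α := WithBot ℕ), ← degree_eq_natDegree hq.ne_zero]
      exact hlt
    interval_cases hn : q.natDegree
    · have := (hq.natDegree_eq_zero).1 hn
      rw [this] at hq0
      simp at hq0
    · have h1 := Polynomial.eq_X_add_C_of_natDegree_le_one (le_of_eq hn)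
      have hlead : q.coeff 1 = 1 := by
        have := hq.coeff_natDegree
        rwa [hn] at this
      rw [h1, hlead] at hq0
      simp at hq0
      apply irrational_sqrt p
      refine ⟨-q.coeff 0, ?_⟩
      push_cast
      linarith

/-- the embedding of `ℚ(√p)` sending `√p` to `-√p`. -/
theorem exists_conj : ∃ σ : QS p →ₐ[ℚ] ℝ, σ (sq p) = - Real.sqrt p := by
  have hroot : (- Real.sqrt (p : ℝ)) ∈ (minpoly ℚ (Real.sqrt (p : ℝ))).aroots ℝ := by
    rw [minpoly_sqrt, mem_aroots]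
    refine ⟨(monic_X_pow_sub_C _ (by norm_num)).ne_zero, ?_⟩
    simp
  exact ⟨(IntermediateField.algHomAdjoinIntegralEquiv ℚ (isAlgebraic_sqrt p)).symm ⟨_, hroot⟩,
    IntermediateField.algHomAdjoinIntegralEquiv_symm_apply_gen ℚ (isAlgebraic_sqrt p) ⟨_, hroot⟩⟩

end Basics

theorem integers_form (p : ℕ) [Fact p.Prime] (hp : p % 4 = 1) (η : 𝓞 (QS p)) :
    ∃ m n : ℤ, m % 2 = n % 2 ∧ ((η : QS p) : ℝ) = ((m : ℝ) + n * Real.sqrt p) / 2 := by
  obtain ⟨σ, hσ⟩ := exists_conj p
  obtain ⟨a, b, hab⟩ := exists_repr' p (η : QS p)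
  have hint : IsIntegral ℤ (η : QS p) := η.isIntegral_coe
  have h1 : IsIntegral ℤ (((η : QS p)) : ℝ) := hint.map (QS p).val
  have h2 : IsIntegral ℤ (σ (η : QS p)) := hint.map σ
  have e1 : ((η : QS p) : ℝ) = a + b * Real.sqrt p := by
    rw [hab]; simp [coe_sq]
  have e2 : σ (η : QS p) = a - b * Real.sqrt p := by
    rw [hab, map_add, map_mul, hσ]
    simp
    ring
  rw [e1] at h1
  rw [e2] at h2
  have hs : IsIntegral ℤ (algebraMap ℚ ℝ (2 * a)) := by
    have h3 := h1.add h2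
    have e3 : (algebraMap ℚ ℝ (2 * a)) = (a + b * Real.sqrt p) + (a - b * Real.sqrt p) := by
      rw [eq_ratCast]
      push_cast
      ring
    rw [e3]
    exact h3
  have hn : IsIntegral ℤ (algebraMap ℚ ℝ (a ^ 2 - p * b ^ 2)) := by
    have h3 := h1.mul h2
    have e3 : (algebraMap ℚ ℝ (a ^ 2 - p * b ^ 2)) =
        (a + b * Real.sqrt p) * (a - b * Real.sqrt p) := by
      rw [eq_ratCast]
      push_cast
      linear_combination (b ^ 2 : ℝ) * sqrt_sq' p
    rw [e3]
    exact h3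
  rw [isIntegral_algebraMap_iff (algebraMap ℚ ℝ).injective, IsIntegrallyClosed.isIntegral_iff] at hs hn
  obtain ⟨m, hm⟩ := hs
  obtain ⟨N, hN⟩ := hn
  simp only [algebraMap_int_eq, eq_intCast] at hm hN
  have hpb : (p : ℚ) * (2 * b) ^ 2 = ((m ^ 2 - 4 * N : ℤ) : ℚ) := by
    push_cast
    rw [hN, hm]
    ring
  -- `2 * b` is an integer
  have hp0 : (p : ℚ) ≠ 0 := by exact_mod_cast (Fact.out : p.Prime).ne_zero
  have hbint : ∃ n : ℤ, (n : ℚ) = 2 * b := by
    have hk : IsIntegral ℤ ((p : ℚ) * (2 * b)) := by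
      refine ⟨X ^ 2 - C ((p : ℤ) * (m ^ 2 - 4 * N)), monic_X_pow_sub_C _ (by norm_num), ?_⟩
      rw [eval₂_sub, eval₂_X_pow, eval₂_C, algebraMap_int_eq, eq_intCast]
      push_cast at hpb ⊢
      linear_combination (p : ℚ) * hpb
    rw [IsIntegrallyClosed.isIntegral_iff] at hk
    obtain ⟨k, hk⟩ := hk
    simp only [algebraMap_int_eq, eq_intCast] at hk
    have hk2 : k ^ 2 = p * (m ^ 2 - 4 * N) := by
      have : ((k ^ 2 : ℤ) : ℚ) = ((p * (m ^ 2 - 4 * N) : ℤ) : ℚ) := by
        push_cast at hpb ⊢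
        rw [hk]
        linear_combination (p : ℚ) * hpb
      exact_mod_cast this
    have hdvd : (p : ℤ) ∣ k :=
      Int.Prime.dvd_pow' (Fact.out : p.Prime) (Dvd.intro _ hk2.symm)
    obtain ⟨n, hn⟩ := hdvd
    refine ⟨n, ?_⟩
    rw [hn] at hk
    push_cast at hk
    exact mul_left_cancel₀ hp0 hk
  obtain ⟨n, hn⟩ := hbint
  refine ⟨m, n, ?_, ?_⟩
  · rw [← hn] at hpb
    have h4 : (p : ℤ) * n ^ 2 = m ^ 2 - 4 * N := by exact_mod_cast hpb
    have hp4 : (p : ℤ) = 4 * ((p / 4 : ℕ) : ℤ) + 1 := by omega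
    have hev : Even (m ^ 2 - n ^ 2) := by
      refine ⟨2 * (N + ((p / 4 : ℕ) : ℤ) * n ^ 2), ?_⟩
      linear_combination -h4 + n ^ 2 * hp4
    rw [Int.even_sub, Int.even_pow' (by norm_num), Int.even_pow' (by norm_num), Int.even_iff,
      Int.even_iff] at hev
    omega
  · rw [e1]
    have hm' : (m : ℝ) = 2 * a := by exact_mod_cast hm
    have hn' : (n : ℝ) = 2 * b := by exact_mod_cast hn
    rw [hm', hn']
    ring

theorem exists_theta (p : ℕ) [Fact p.Prime] (hp : p % 4 = 1) :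
    ∃ θ : 𝓞 (QS p), ((θ : QS p) : ℝ) = (1 + Real.sqrt p) / 2 ∧ Algebra.adjoin ℤ {θ} = ⊤ ∧
      minpoly ℤ θ = X ^ 2 - X - C (((p - 1) / 4 : ℕ) : ℤ) := by
  have hc : (p : ℝ) = 4 * (((p - 1) / 4 : ℕ) : ℝ) + 1 := by
    have : p = 4 * ((p - 1) / 4) + 1 := by omega
    exact_mod_cast this
  set c : ℕ := (p - 1) / 4 with hcdef
  have hmonic : (X ^ 2 - X - C (c : ℤ) : ℤ[X]).Monic := by
    monicity!
  have hdeg : (X ^ 2 - X - C (c : ℤ) : ℤ[X]).natDegree = 2 := by
    compute_degree!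
  have hroot : (((1 + sq p) / 2 : QS p)) ^ 2 - ((1 + sq p) / 2) - (c : QS p) = 0 := by
    apply Subtype.ext
    push_cast
    rw [coe_sq, coe_two']
    linear_combination (1/4 : ℝ) * sqrt_sq' p + (1/4 : ℝ) * hc
  have hint : IsIntegral ℤ ((1 + sq p) / 2 : QS p) := by
    refine ⟨X ^ 2 - X - C (c : ℤ), hmonic, ?_⟩
    rw [eval₂_sub, eval₂_sub, eval₂_X_pow, eval₂_X, eval₂_C, algebraMap_int_eq, eq_intCast,
      Int.cast_natCast]
    exact hroot
  refine ⟨⟨(1 + sq p) / 2, hint⟩, ?_, ?_, ?_⟩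
  · show (((1 + sq p) / 2 : QS p) : ℝ) = _
    push_cast
    rw [coe_sq, coe_two']
  · rw [eq_top_iff]
    rintro η -
    obtain ⟨m, n, hmn, he⟩ := integers_form p hp η
    have : η = algebraMap ℤ (𝓞 (QS p)) ((m - n) / 2) +
        algebraMap ℤ (𝓞 (QS p)) n * ⟨(1 + sq p) / 2, hint⟩ := by
      apply RingOfIntegers.ext
      apply Subtype.ext
      rw [he]
      have h2 : ((m - n : ℤ) : ℝ) = 2 * (((m - n) / 2 : ℤ) : ℝ) := by
        have : (m - n) = 2 * ((m - n) / 2) := by omega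
        exact_mod_cast this
      push_cast at h2
      simp only [algebraMap_int_eq, eq_intCast, map_add, map_mul, map_intCast,
        RingOfIntegers.map_mk]
      push_cast
      rw [coe_sq, coe_two']
      linear_combination (1/2 : ℝ) * h2
    rw [this]
    refine Subalgebra.add_mem _ (Subalgebra.algebraMap_mem _ _)
      (Subalgebra.mul_mem _ (Subalgebra.algebraMap_mem _ _) (Algebra.self_mem_adjoin_singleton _ _))
  · symm
    apply IsIntegrallyClosed.minpoly.unique hmonic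
    · apply RingOfIntegers.ext
      simp only [map_sub, map_pow, aeval_X, map_zero, map_natCast, RingOfIntegers.map_mk]
      exact hroot
    · intro Q hQ hQ0
      rw [degree_eq_natDegree hmonic.ne_zero, hdeg, degree_eq_natDegree hQ.ne_zero]
      by_contra hlt
      push Not at hlt
      have hdegQ : Q.natDegree < 2 := by exact_mod_cast hlt
      interval_cases hn : Q.natDegree
      · have := (hQ.natDegree_eq_zero).1 hn
        rw [this] at hQ0
        simp at hQ0
      · have h1 := Polynomial.eq_X_add_C_of_natDegree_le_one (le_of_eq hn)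
        have hlead : Q.coeff 1 = 1 := by
          have := hQ.coeff_natDegree
          rwa [hn] at this
        rw [h1, hlead] at hQ0
        have h2 := congrArg (fun z : 𝓞 (QS p) => ((z : QS p) : ℝ)) hQ0
        simp only [map_one, one_mul, map_add, aeval_X,
          RingOfIntegers.map_mk, map_zero] at h2
        rw [aeval_C, algebraMap_int_eq, eq_intCast, map_intCast] at h2
        push_cast at h2
        rw [coe_sq, coe_two'] at h2
        have h3 := rat_ind p (a := 1/2 + Q.coeff 0) (b := 1/2) (by push_cast; linarith)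
        norm_num at h3

theorem discr_QS (p : ℕ) [Fact p.Prime] (hp : p % 4 = 1) : NumberField.discr (QS p) = p := by
  obtain ⟨θ, hθ, -, -⟩ := exists_theta p hp
  have hc : (p : ℤ) = 4 * (((p - 1) / 4 : ℕ) : ℤ) + 1 := by omega
  set c : ℕ := (p - 1) / 4 with hcdef
  have hcR : (p : ℝ) = 4 * (c : ℝ) + 1 := by exact_mod_cast hc
  have hli : LinearIndependent ℤ ![(1 : 𝓞 (QS p)), θ] := by
    rw [LinearIndependent.pair_iff]
    intro s t hst
    have h2 := congrArg (fun z : 𝓞 (QS p) => ((z : QS p) : ℝ)) hst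
    simp only [zsmul_eq_mul, map_add, map_mul, map_intCast, map_one, map_zero] at h2
    push_cast at h2
    rw [hθ] at h2
    have h3 := rat_ind p (a := s + t / 2) (b := t / 2) (by push_cast; linarith)
    obtain ⟨h3, h4⟩ := h3
    have ht : (t : ℚ) = 0 := by linarith
    have hs : (s : ℚ) = 0 := by rw [ht] at h3; linarith
    exact ⟨by exact_mod_cast hs, by exact_mod_cast ht⟩
  have hsp : ⊤ ≤ Submodule.span ℤ (Set.range ![(1 : 𝓞 (QS p)), θ]) := by
    rintro η -
    obtain ⟨m, n, hmn, he⟩ := integers_form p hp η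
    have h5 : η = ((m - n) / 2 : ℤ) • (1 : 𝓞 (QS p)) + n • θ := by
      apply RingOfIntegers.ext
      apply Subtype.ext
      rw [he]
      have h2 : ((m - n : ℤ) : ℝ) = 2 * (((m - n) / 2 : ℤ) : ℝ) := by
        have : (m - n) = 2 * ((m - n) / 2) := by omega
        exact_mod_cast this
      push_cast at h2
      simp only [zsmul_eq_mul, map_add, map_mul, map_intCast, map_one]
      push_cast
      rw [hθ]
      linear_combination (1/2 : ℝ) * h2
    rw [h5]
    refine Submodule.add_mem _ (Submodule.smul_mem _ _ (Submodule.subset_span ⟨0, rfl⟩))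
      (Submodule.smul_mem _ _ (Submodule.subset_span ⟨1, rfl⟩))
  let b : Module.Basis (Fin 2) ℤ (𝓞 (QS p)) := Module.Basis.mk hli hsp
  have hb0 : b 0 = 1 := by simp [b]
  have hb1 : b 1 = θ := by simp [b]
  have hθ2 : θ * θ = θ + (c : ℤ) • (1 : 𝓞 (QS p)) := by
    apply RingOfIntegers.ext
    apply Subtype.ext
    simp only [zsmul_eq_mul, map_add, map_mul, map_intCast, map_one]
    push_cast
    rw [hθ]
    linear_combination (1/4 : ℝ) * sqrt_sq' p + (1/4 : ℝ) * hcR
  have ht1 : Algebra.trace ℤ (𝓞 (QS p)) 1 = 2 := by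
    rw [Algebra.trace_eq_matrix_trace b]
    simp [Matrix.trace]
  have htθ : Algebra.trace ℤ (𝓞 (QS p)) θ = 1 := by
    rw [Algebra.trace_eq_matrix_trace b, Matrix.trace, Fin.sum_univ_two]
    simp only [Matrix.diag_apply, Algebra.leftMulMatrix_eq_repr_mul, hb0, hb1]
    rw [mul_one, hθ2]
    rw [map_add, map_smul, Finsupp.add_apply, Finsupp.smul_apply, ← hb0, ← hb1]
    simp
  rw [← NumberField.discr_eq_discr (QS p) b, Algebra.discr_def, Matrix.det_fin_two]
  simp only [Algebra.traceMatrix_apply, Algebra.traceForm_apply, hb0, hb1, mul_one, one_mul]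
  rw [hθ2, map_add, map_smul, ht1, htθ, hc]
  simp
  ring

end LegDet
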