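import Pool.Agent.Work.MP_29211c_nt.Defs

/-!
# MP_29211c_nt: sums and products over the quadratic residues

The Gauss sum, the sums of an additive character over the residues, the product of `1 - ψ t` and the
discriminant-like product of the differences `ψ r - ψ r'`.
-/

set_option autoImplicit false
namespace LegDet
open NumberField Polynomial

section EC
variable (p : ℕ) [Fact p.Prime] (ψ : AddChar (ZMod p) ℂ)

theorem ringChar_ne_two (hp : p ≠ 2) : ringChar (ZMod p) ≠ 2 := by
  rw [ZMod.ringChar_zmod_n]; exact hp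

theorem ch_eq_chiC (t : ZMod p) : ch p t = chiC p t := by
  simp [ch, chiC]

theorem ch_zero : ch p 0 = 0 := by simp [ch]

theorem ch_mul (a b : ZMod p) : ch p (a * b) = ch p a * ch p b := by
  simp only [ch, map_mul, Int.cast_mul]

theorem ch_dichotomy {t : ZMod p} (ht : t ≠ 0) : ch p t = 1 ∨ ch p t = -1 := by
  rcases quadraticChar_dichotomy ht with h | h
  · left; simp [ch, h]
  · right; simp [ch, h]

theorem ch_sum_zero (hp : p ≠ 2) : ∑ t : ZMod p, ch p t = 0 := by
  have h := quadraticChar_sum_zero (F := ZMod p) (ringChar_ne_two p hp)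
  unfold ch
  rw [← Int.cast_sum, h]; simp

theorem ch_sum_mulShift (m : ZMod p) (hp : p ≠ 2) :
    ∑ t : ZMod p, ch p t * ψ (t * m) = ch p m * tau p ψ := by
  by_cases hm : m = 0
  · subst hm
    simp only [mul_zero, AddChar.map_zero_eq_one, mul_one, ch_zero, zero_mul]
    exact ch_sum_zero p hp
  · have h1 : ∀ t : ZMod p, ch p t * ψ (t * m) = ch p m * (ch p (t * m) * ψ (t * m)) := by
      intro t
      have : ch p m * ch p m = 1 := by
        rcases ch_dichotomy p hm with h | h <;> simp [h]
      rw [ch_mul]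
      calc ch p t * ψ (t * m) = (ch p m * ch p m) * ch p t * ψ (t * m) := by rw [this, one_mul]
        _ = _ := by ring
    rw [Finset.sum_congr rfl fun t _ => h1 t, ← Finset.mul_sum]
    congr 1
    unfold tau
    exact Fintype.sum_bijective (fun t : ZMod p => t * m) (mulRight_bijective₀ m hm) _ _ (fun t => rfl)

theorem sum_residue (hp : p ≠ 2) (hψ : ψ.IsPrimitive) (m : ZMod p) :
    2 * ∑ t ∈ Finset.univ.filter (fun t : ZMod p => quadraticChar (ZMod p) t = 1), ψ (t * m)
      = ch p m * tau p ψ + (if m = 0 then (p : ℂ) else 0) - 1 := by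
  have h1 : ∀ t : ZMod p, 2 * (if quadraticChar (ZMod p) t = 1 then ψ (t * m) else 0)
      = ch p t * ψ (t * m) + ψ (t * m) - (if t = 0 then 1 else 0) := by
    intro t
    by_cases ht : t = 0
    · subst ht; simp [ch_zero]
    · rcases quadraticChar_dichotomy ht with h | h
      · simp [ch, h, ht]; ring
      · simp [ch, h, ht]
  rw [Finset.sum_filter, Finset.mul_sum, Finset.sum_congr rfl fun t _ => h1 t, Finset.sum_sub_distrib,
    Finset.sum_add_distrib, ch_sum_mulShift p ψ m hp, AddChar.sum_mulShift m hψ]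
  simp [ZMod.card]

theorem tau_sq (hp : p ≠ 2) (hψ : ψ.IsPrimitive) : tau p ψ ^ 2 = ch p (-1) * p := by
  have h := gaussSum_sq (χ := (chiC p : MulChar (ZMod p) ℂ)) (ψ := ψ) ?_ ?_ hψ
  · simp only [gaussSum, ZMod.card] at h
    unfold tau
    simp only [ch_eq_chiC]
    exact h
  · intro h
    apply quadraticChar_ne_one (F := ZMod p) (ringChar_ne_two p hp)
    have h0 := (MulChar.ringHomComp_ne_one_iff (f := Int.castRingHom ℂ) (RingHom.injective_int _)
      (χ := quadraticChar (ZMod p)))
    by_contra hne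
    exact (h0.mpr hne) h
  · exact (quadraticChar_isQuadratic (ZMod p)).comp _

theorem psi_eq_one_iff (hψ : ψ.IsPrimitive) (t : ZMod p) : ψ t = 1 ↔ t = 0 :=
  hψ.zmod_char_eq_one_iff p t

theorem fR_mul_fN (hp : p ≠ 2) (hψ : ψ.IsPrimitive) : fR p ψ * fN p ψ = p := by
  have hpp : p.Prime := Fact.out
  have hprim : IsPrimitiveRoot (ψ 1) p := by
    rw [IsPrimitiveRoot.iff_def]
    constructor
    · rw [← AddChar.map_nsmul_eq_pow]
      simp
    · intro l hl
      rw [← AddChar.map_nsmul_eq_pow, psi_eq_one_iff p ψ hψ] at hl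
      simp only [nsmul_eq_mul, mul_one] at hl
      exact (ZMod.natCast_eq_zero_iff _ _).mp hl
  obtain ⟨n, rfl⟩ : ∃ n, p = n + 1 := ⟨p - 1, by have := hpp.pos; omega⟩
  have h := hprim.prod_one_sub_pow_eq_order
  unfold fR fN
  have hdisj : Disjoint (Finset.univ.filter (fun t : ZMod (n+1) => quadraticChar (ZMod (n+1)) t = 1))
      (Finset.univ.filter (fun t : ZMod (n+1) => quadraticChar (ZMod (n+1)) t = -1)) := by
    rw [Finset.disjoint_filter]
    intro t _ h1 h2
    rw [h1] at h2; norm_num at h2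
  rw [← Finset.prod_union hdisj]
  have hset : (Finset.univ.filter (fun t : ZMod (n+1) => quadraticChar (ZMod (n+1)) t = 1)) ∪
      (Finset.univ.filter (fun t : ZMod (n+1) => quadraticChar (ZMod (n+1)) t = -1))
      = (Finset.univ : Finset (ZMod (n+1))).erase 0 := by
    ext t
    simp only [Finset.mem_union, Finset.mem_filter, Finset.mem_univ, true_and, Finset.mem_erase,
      ne_eq, and_true]
    constructor
    · rintro (h | h) <;> intro h0 <;> subst h0 <;> simp at h
    · intro ht
      exact quadraticChar_dichotomy ht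
  rw [hset]
  rw [show (((n + 1 : ℕ)) : ℂ) = (n : ℂ) + 1 by push_cast; ring, ← h]
  symm
  refine Finset.prod_bij (fun k _ => ((k + 1 : ℕ) : ZMod (n+1))) ?_ ?_ ?_ ?_
  · intro k hk
    simp only [Finset.mem_erase, ne_eq, Finset.mem_univ, and_true]
    rw [ZMod.natCast_eq_zero_iff]
    intro hd
    have := Nat.le_of_dvd (by omega) hd
    simp at hk; omega
  · intro a ha b hb hab
    simp only [Finset.mem_range] at ha hb
    have := (ZMod.natCast_eq_natCast_iff' _ _ _).mp hab
    rw [Nat.mod_eq_of_lt (by omega), Nat.mod_eq_of_lt (by omega)] at this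
    omega
  · intro b hb
    simp only [Finset.mem_erase, ne_eq, Finset.mem_univ, and_true] at hb
    have hv : b.val ≠ 0 := by rwa [Ne, ZMod.val_eq_zero]
    have hv2 := ZMod.val_lt b
    refine ⟨b.val - 1, by simp; omega, ?_⟩
    rw [Nat.sub_add_cancel (by omega)]
    exact ZMod.natCast_zmod_val b
  · intro k hk
    rw [← AddChar.map_nsmul_eq_pow]
    simp

/-- p > 3: the sum of the residues is 0 -/
theorem sum_residues_zero (hp : 3 < p) :
    ∑ t ∈ Finset.univ.filter (fun t : ZMod p => quadraticChar (ZMod p) t = 1), t = 0 := by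
  have hpp : p.Prime := Fact.out
  set R := Finset.univ.filter (fun t : ZMod p => quadraticChar (ZMod p) t = 1) with hR
  have h2 : (2 : ZMod p) ≠ 0 := by
    have : ((2 : ℕ) : ZMod p) ≠ 0 := by
      rw [Ne, ZMod.natCast_eq_zero_iff]
      intro hd
      have := Nat.le_of_dvd (by norm_num) hd; omega
    simpa using this
  have h3 : (3 : ZMod p) ≠ 0 := by
    have : ((3 : ℕ) : ZMod p) ≠ 0 := by
      rw [Ne, ZMod.natCast_eq_zero_iff]
      intro hd
      have := Nat.le_of_dvd (by norm_num) hd; omega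
    simpa using this
  have h4 : (4 : ZMod p) ≠ 0 := by
    have : (4 : ZMod p) = 2 * 2 := by norm_num
    rw [this]; exact mul_ne_zero h2 h2
  have hq4 : quadraticChar (ZMod p) 4 = 1 := by
    have : (4 : ZMod p) = 2 ^ 2 := by norm_num
    rw [this]; exact quadraticChar_sq_one' h2
  have hbij : ∑ t ∈ R, (4 * t) = ∑ t ∈ R, t := by
    refine Finset.sum_bij (fun t _ => 4 * t) ?_ ?_ ?_ ?_
    · intro t ht
      rw [hR, Finset.mem_filter] at ht ⊢
      refine ⟨Finset.mem_univ _, ?_⟩
      rw [map_mul, hq4, ht.2, one_mul]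
    · intro a _ b _ hab
      exact mul_left_cancel₀ h4 hab
    · intro b hb
      rw [hR, Finset.mem_filter] at hb
      refine ⟨4⁻¹ * b, ?_, ?_⟩
      · rw [hR, Finset.mem_filter]
        refine ⟨Finset.mem_univ _, ?_⟩
        have h5 : quadraticChar (ZMod p) (4 * (4⁻¹ * b)) = 1 := by
          rw [← mul_assoc, mul_inv_cancel₀ h4, one_mul]; exact hb.2
        rw [map_mul, hq4, one_mul] at h5
        exact h5
      · rw [← mul_assoc, mul_inv_cancel₀ h4, one_mul]
    · intro t _; rfl
  rw [← Finset.mul_sum] at hbij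
  have h6 : (3 : ZMod p) * ∑ t ∈ R, t = 0 := by
    have : (3 : ZMod p) * ∑ t ∈ R, t = 4 * ∑ t ∈ R, t - ∑ t ∈ R, t := by ring
    rw [this, hbij, sub_self]
  exact (mul_eq_zero.mp h6).resolve_left h3

/-- the set of the quadratic residues -/
def RR : Finset (ZMod p) := Finset.univ.filter (fun t : ZMod p => quadraticChar (ZMod p) t = 1)

theorem mem_RR (t : ZMod p) : t ∈ RR p ↔ quadraticChar (ZMod p) t = 1 := by
  simp [RR]

theorem RR_ne_zero {t : ZMod p} (ht : t ∈ RR p) : t ≠ 0 := by
  rintro rfl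
  rw [mem_RR] at ht
  simp at ht

theorem card_RR (hp : p ≠ 2) : 2 * (RR p).card + 1 = p := by
  have h1 : ∀ t : ZMod p, 2 * (if quadraticChar (ZMod p) t = 1 then (1 : ℤ) else 0)
      = quadraticChar (ZMod p) t + 1 - (if t = 0 then 1 else 0) := by
    intro t
    by_cases ht : t = 0
    · subst ht; simp
    · rcases quadraticChar_dichotomy ht with h | h
      · simp [h, ht]
      · simp [h, ht]
  have h2 : 2 * ((RR p).card : ℤ) = p - 1 := by
    unfold RR
    rw [Finset.card_filter]
    push_cast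
    rw [Finset.mul_sum, Finset.sum_congr rfl fun t _ => h1 t, Finset.sum_sub_distrib,
      Finset.sum_add_distrib, quadraticChar_sum_zero (ringChar_ne_two p hp)]
    simp [ZMod.card]
  have := (Fact.out : p.Prime).pos
  omega

theorem quadraticChar_neg_one_three (hp3 : p % 4 = 3) : quadraticChar (ZMod p) (-1) = -1 := by
  rw [quadraticChar_neg_one (ringChar_ne_two p (by omega)), ZMod.card, ZMod.χ₄_nat_three_mod_four hp3]

theorem quadraticChar_neg_one_one (hp1 : p % 4 = 1) : quadraticChar (ZMod p) (-1) = 1 := by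
  rw [quadraticChar_neg_one (ringChar_ne_two p (by omega)), ZMod.card, ZMod.χ₄_nat_one_mod_four hp1]

/-- the product over the residues, scaled by `d`. -/
theorem prod_scaled (d : ZMod p) (hd : d ≠ 0) :
    ∏ r ∈ RR p, (1 - ψ (r * d)) = if quadraticChar (ZMod p) d = 1 then fR p ψ else fN p ψ := by
  have hdd : quadraticChar (ZMod p) d * quadraticChar (ZMod p) d = 1 := by
    rcases quadraticChar_dichotomy hd with h | h <;> simp [h]
  have key : ∏ r ∈ RR p, (1 - ψ (r * d)) =
      ∏ t ∈ Finset.univ.filter (fun t : ZMod p => quadraticChar (ZMod p) t = quadraticChar (ZMod p) d),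
        (1 - ψ t) := by
    refine Finset.prod_bij (fun t _ => t * d) ?_ ?_ ?_ ?_
    · intro t ht
      rw [mem_RR] at ht
      rw [Finset.mem_filter]
      refine ⟨Finset.mem_univ _, ?_⟩
      rw [map_mul, ht, one_mul]
    · intro a _ b _ hab
      exact mul_right_cancel₀ hd hab
    · intro b hb
      rw [Finset.mem_filter] at hb
      refine ⟨b * d⁻¹, ?_, ?_⟩
      · rw [mem_RR]
        have h5 : quadraticChar (ZMod p) ((b * d⁻¹) * d) = quadraticChar (ZMod p) d := by
          rw [mul_assoc, inv_mul_cancel₀ hd, mul_one]; exact hb.2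
        rw [map_mul] at h5
        calc quadraticChar (ZMod p) (b * d⁻¹)
            = quadraticChar (ZMod p) (b * d⁻¹) * (quadraticChar (ZMod p) d * quadraticChar (ZMod p) d) := by
              rw [hdd, mul_one]
          _ = (quadraticChar (ZMod p) (b * d⁻¹) * quadraticChar (ZMod p) d) * quadraticChar (ZMod p) d := by
              ring
          _ = 1 := by rw [h5, hdd]
      · rw [mul_assoc, inv_mul_cancel₀ hd, mul_one]
    · intro t _; rfl
  rw [key]
  rcases quadraticChar_dichotomy hd with h | h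
  · rw [h, if_pos rfl]; rfl
  · rw [h, if_neg (by norm_num)]; rfl

theorem psi_prod (S : Finset (ZMod p)) : ∏ r ∈ S, ψ r = ψ (∑ r ∈ S, r) := by
  classical
  induction S using Finset.induction_on with
  | empty => simp
  | insert a s ha ih => rw [Finset.prod_insert ha, Finset.sum_insert ha, AddChar.map_add_eq_mul, ih]

theorem fR_sq_of_three (hp : 3 < p) (hp3 : p % 4 = 3) (hψ : ψ.IsPrimitive) : fR p ψ ^ 2 = -p := by
  have h1 := prod_scaled p ψ (-1) (neg_ne_zero.mpr one_ne_zero)
  rw [quadraticChar_neg_one_three p hp3, if_neg (by norm_num)] at h1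
  have h2 : ∀ r ∈ RR p, (1 - ψ (r * (-1))) = (-(1 : ℂ)) * (ψ (-r) * (1 - ψ r)) := by
    intro r _
    have : ψ (-r) * ψ r = 1 := by
      rw [← AddChar.map_add_eq_mul]; simp
    rw [mul_neg_one]
    linear_combination -this
  have hcard := card_RR p (by omega)
  have hodd : Odd (RR p).card := by
    rw [Nat.odd_iff]; omega
  rw [Finset.prod_congr rfl h2, Finset.prod_mul_distrib, Finset.prod_mul_distrib, Finset.prod_const,
    hodd.neg_one_pow] at h1
  have h3 : ∏ r ∈ RR p, ψ (-r) = 1 := by
    have h4 : ∏ r ∈ RR p, ψ (-r) = ∏ r ∈ RR p, (ψ r)⁻¹ := by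
      refine Finset.prod_congr rfl fun r _ => ?_
      rw [AddChar.map_neg_eq_inv]
    have h5 : ∑ r ∈ RR p, r = 0 := sum_residues_zero p hp
    rw [h4, Finset.prod_inv_distrib, psi_prod, h5]
    simp
  rw [h3, one_mul] at h1
  have h6 : ∏ r ∈ RR p, (1 - ψ r) = fR p ψ := rfl
  rw [h6] at h1
  have h7 := fR_mul_fN p ψ (by omega) hψ
  rw [← h1] at h7
  linear_combination -h7

/-- `∑ χ(t) χ(t-1) = -1` -/
theorem sum_chi_chi (hp : p ≠ 2) :
    ∑ t : ZMod p, quadraticChar (ZMod p) t * quadraticChar (ZMod p) (t - 1) = -1 := by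
  have h := jacobiSum_nontrivial_inv (quadraticChar_ne_one (F := ZMod p) (ringChar_ne_two p hp))
  rw [(quadraticChar_isQuadratic (ZMod p)).inv] at h
  unfold jacobiSum at h
  have h1 : quadraticChar (ZMod p) (-1) * quadraticChar (ZMod p) (-1) = 1 := by
    rw [← map_mul]; simp
  have h2 : ∀ t : ZMod p, quadraticChar (ZMod p) t * quadraticChar (ZMod p) (t - 1)
      = quadraticChar (ZMod p) (-1) * (quadraticChar (ZMod p) t * quadraticChar (ZMod p) (1 - t)) := by
    intro t
    have : t - 1 = (-1) * (1 - t) := by ring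
    rw [this, map_mul]; ring
  rw [Finset.sum_congr rfl fun t _ => h2 t, ← Finset.mul_sum, h]
  linear_combination -h1

/-- the two cyclotomic numbers -/
theorem cyc_count (hp : p ≠ 2) :
    2 * ((((RR p).erase 1).filter (fun t => quadraticChar (ZMod p) (t - 1) = 1)).card : ℤ)
      - 2 * ((((RR p).erase 1).filter (fun t => ¬ quadraticChar (ZMod p) (t - 1) = 1)).card : ℤ)
      = - quadraticChar (ZMod p) (-1) - 1 := by
  have h1 : ∀ t ∈ (RR p).erase 1, (if quadraticChar (ZMod p) (t - 1) = 1 then (1 : ℤ) else 0)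
      - (if ¬ quadraticChar (ZMod p) (t - 1) = 1 then (1 : ℤ) else 0) = quadraticChar (ZMod p) (t - 1) := by
    intro t ht
    rw [Finset.mem_erase] at ht
    rcases quadraticChar_dichotomy (sub_ne_zero.mpr ht.1) with h | h <;> simp [h]
  have h2 : ∑ t ∈ (RR p).erase 1, quadraticChar (ZMod p) (t - 1)
      = ∑ t ∈ RR p, quadraticChar (ZMod p) (t - 1) := by
    apply Finset.sum_erase
    simp
  have h3 : ∀ t : ZMod p, 2 * (if quadraticChar (ZMod p) t = 1 then quadraticChar (ZMod p) (t - 1) else 0)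
      = quadraticChar (ZMod p) t * quadraticChar (ZMod p) (t - 1) + quadraticChar (ZMod p) (t - 1)
        - (if t = 0 then quadraticChar (ZMod p) (-1) else 0) := by
    intro t
    by_cases ht : t = 0
    · subst ht; simp
    · rcases quadraticChar_dichotomy ht with h | h
      · simp [h, ht]; ring
      · simp [h, ht]
  have h4 : ∑ t : ZMod p, quadraticChar (ZMod p) (t - 1) = 0 := by
    rw [← quadraticChar_sum_zero (ringChar_ne_two p hp)]
    exact Fintype.sum_bijective (fun t : ZMod p => t - 1) (Equiv.subRight (1 : ZMod p)).bijective _ _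
      (fun t => rfl)
  rw [Finset.card_filter, Finset.card_filter]
  push_cast
  rw [← mul_sub, ← Finset.sum_sub_distrib, Finset.sum_congr rfl h1, h2]
  unfold RR
  rw [Finset.sum_filter, Finset.mul_sum, Finset.sum_congr rfl fun t _ => h3 t, Finset.sum_sub_distrib,
    Finset.sum_add_distrib, sum_chi_chi p hp, h4]
  simp
  ring

theorem one_mem_RR : (1 : ZMod p) ∈ RR p := by
  rw [mem_RR]; simp

theorem prod_diff_aux (hp : 3 < p) :
    (∏ r ∈ RR p, ∏ r' ∈ (RR p).erase r, (ψ r - ψ r'))
      = fR p ψ ^ (((RR p).erase 1).filter (fun t => quadraticChar (ZMod p) (t - 1) = 1)).card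
        * fN p ψ ^ (((RR p).erase 1).filter (fun t => ¬ quadraticChar (ZMod p) (t - 1) = 1)).card := by
  have h1 : ∀ r ∈ RR p, ∏ r' ∈ (RR p).erase r, (ψ r - ψ r')
      = ψ r ^ ((RR p).card - 1) * ∏ t ∈ (RR p).erase 1, (1 - ψ (r * (t - 1))) := by
    intro r hr
    have hr0 := RR_ne_zero p hr
    have hr1 := (mem_RR p r).mp hr
    have h2 : ∏ r' ∈ (RR p).erase r, (ψ r - ψ r') = ∏ t ∈ (RR p).erase 1, (ψ r - ψ (r * t)) := by
      symm
      refine Finset.prod_bij (fun t _ => r * t) ?_ ?_ ?_ ?_
      · intro t ht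
        rw [Finset.mem_erase] at ht ⊢
        refine ⟨?_, ?_⟩
        · intro h
          apply ht.1
          have : r * t = r * 1 := by rw [h, mul_one]
          exact mul_left_cancel₀ hr0 this
        · rw [mem_RR, map_mul, hr1, (mem_RR p t).mp ht.2, one_mul]
      · intro a _ b _ hab
        exact mul_left_cancel₀ hr0 hab
      · intro b hb
        rw [Finset.mem_erase] at hb
        refine ⟨r⁻¹ * b, ?_, ?_⟩
        · rw [Finset.mem_erase]
          refine ⟨?_, ?_⟩
          · intro h
            apply hb.1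
            have : r * (r⁻¹ * b) = r * 1 := by rw [h]
            rwa [← mul_assoc, mul_inv_cancel₀ hr0, one_mul, mul_one] at this
          · rw [mem_RR]
            have h5 : quadraticChar (ZMod p) (r * (r⁻¹ * b)) = 1 := by
              rw [← mul_assoc, mul_inv_cancel₀ hr0, one_mul]; exact (mem_RR p b).mp hb.2
            rwa [map_mul, hr1, one_mul] at h5
        · rw [← mul_assoc, mul_inv_cancel₀ hr0, one_mul]
      · intro t _; rfl
    rw [h2]
    have h3 : ∀ t ∈ (RR p).erase 1, ψ r - ψ (r * t) = ψ r * (1 - ψ (r * (t - 1))) := by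
      intro t _
      rw [mul_sub, mul_one, ← AddChar.map_add_eq_mul]
      congr 2
      ring
    rw [Finset.prod_congr rfl h3, Finset.prod_mul_distrib, Finset.prod_const,
      Finset.card_erase_of_mem (one_mem_RR p)]
  rw [Finset.prod_congr rfl h1, Finset.prod_mul_distrib, Finset.prod_pow, psi_prod]
  have h5 : ∑ r ∈ RR p, r = 0 := sum_residues_zero p hp
  rw [h5, AddChar.map_zero_eq_one, one_pow, one_mul, Finset.prod_comm]
  have h6 : ∀ t ∈ (RR p).erase 1, ∏ r ∈ RR p, (1 - ψ (r * (t - 1)))
      = if quadraticChar (ZMod p) (t - 1) = 1 then fR p ψ else fN p ψ := by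
    intro t ht
    rw [Finset.mem_erase] at ht
    exact prod_scaled p ψ (t - 1) (sub_ne_zero.mpr ht.1)
  rw [Finset.prod_congr rfl h6, Finset.prod_ite, Finset.prod_const, Finset.prod_const]

theorem cyc_card (hp : p ≠ 2) :
    2 * ((((RR p).erase 1).filter (fun t => quadraticChar (ZMod p) (t - 1) = 1)).card
      + (((RR p).erase 1).filter (fun t => ¬ quadraticChar (ZMod p) (t - 1) = 1)).card) + 3 = p := by
  rw [Finset.card_filter_add_card_filter_not, Finset.card_erase_of_mem (one_mem_RR p)]
  have h1 := card_RR p hp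
  have h2 : 0 < (RR p).card := Finset.card_pos.mpr ⟨1, one_mem_RR p⟩
  omega

/-- ∏_{r ∈ R} ∏_{r' ∈ R, r' ≠ r} (ψ r - ψ r')  for p ≡ 1 mod 4 -/
theorem prod_diff_one (hp : 3 < p) (hp1 : p % 4 = 1) (hψ : ψ.IsPrimitive) :
    (∏ r ∈ Finset.univ.filter (fun t : ZMod p => quadraticChar (ZMod p) t = 1),
      ∏ r' ∈ (Finset.univ.filter (fun t : ZMod p => quadraticChar (ZMod p) t = 1)).erase r, (ψ r - ψ r')) * fR p ψ
      = (p : ℂ) ^ ((p - 1) / 4) := by
  have h1 := prod_diff_aux p ψ hp
  have h2 := cyc_count p (by omega)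
  have h3 := cyc_card p (by omega)
  rw [quadraticChar_neg_one_one p hp1] at h2
  set A := (((RR p).erase 1).filter (fun t => quadraticChar (ZMod p) (t - 1) = 1)).card
  set B := (((RR p).erase 1).filter (fun t => ¬ quadraticChar (ZMod p) (t - 1) = 1)).card
  have hA : A + 1 = (p - 1) / 4 := by omega
  have hB : B = (p - 1) / 4 := by omega
  have h4 : (∏ r ∈ RR p, ∏ r' ∈ (RR p).erase r, (ψ r - ψ r')) * fR p ψ = (p : ℂ) ^ ((p - 1) / 4) := by
    rw [h1, ← fR_mul_fN p ψ (by omega) hψ, mul_pow, ← hA, show B = A + 1 by omega]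
    ring
  exact h4

theorem prod_diff_three (hp : 3 < p) (hp3 : p % 4 = 3) (hψ : ψ.IsPrimitive) :
    (∏ r ∈ Finset.univ.filter (fun t : ZMod p => quadraticChar (ZMod p) t = 1),
      ∏ r' ∈ (Finset.univ.filter (fun t : ZMod p => quadraticChar (ZMod p) t = 1)).erase r, (ψ r - ψ r'))
      = (p : ℂ) ^ ((p - 3) / 4) := by
  have h1 := prod_diff_aux p ψ hp
  have h2 := cyc_count p (by omega)
  have h3 := cyc_card p (by omega)
  rw [quadraticChar_neg_one_three p hp3] at h2
  set A := (((RR p).erase 1).filter (fun t => quadraticChar (ZMod p) (t - 1) = 1)).card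
  set B := (((RR p).erase 1).filter (fun t => ¬ quadraticChar (ZMod p) (t - 1) = 1)).card
  have hA : A = (p - 3) / 4 := by omega
  have hB : B = A := by omega
  have h4 : (∏ r ∈ RR p, ∏ r' ∈ (RR p).erase r, (ψ r - ψ r')) = (p : ℂ) ^ ((p - 3) / 4) := by
    rw [h1, ← fR_mul_fN p ψ (by omega) hψ, mul_pow, ← hA, hB]
  exact h4

end EC
end LegDet
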