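import Mathlib
import Pool.Agent.Work.MP_29211c_nt.Defs
import Pool.Agent.Work.MP_29211c_nt.Residues

set_option autoImplicit false

namespace LegDet
open Polynomial Finset

section
variable (p : ℕ) [Fact p.Prime] (ψ : AddChar (ZMod p) ℂ)

lemma psi_eq_pow (b t : ZMod p) : ψ (t * b) = ψ b ^ t.val := by
  rw [← AddChar.map_nsmul_eq_pow, nsmul_eq_mul, ZMod.natCast_val, ZMod.cast_id]

lemma psi_prim_root (hψ : ψ.IsPrimitive) : IsPrimitiveRoot (ψ 1) p := by
  have h1 : (ψ 1) ^ p = 1 := by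
    rw [← AddChar.map_nsmul_eq_pow]; simp
  have h2 : ψ 1 ≠ 1 := by
    rw [Ne, psi_eq_one_iff p ψ hψ]; exact one_ne_zero
  have h3 := orderOf_eq_prime h1 h2
  have h4 := IsPrimitiveRoot.orderOf (ψ 1)
  rwa [h3] at h4

/-- a nonresidue -/
lemma exists_nonres (hp : p ≠ 2) : ∃ b : ZMod p, quadraticChar (ZMod p) b = -1 :=
  quadraticChar_exists_neg_one (ringChar_ne_two p hp)

theorem galois_conj (hp : p ≠ 2) (hψ : ψ.IsPrimitive) (u v : ℚ)
    (h : fR p ψ = u + v * tau p ψ) : fN p ψ = u - v * tau p ψ := by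
  obtain ⟨b, hb⟩ := exists_nonres p hp
  have hb0 : b ≠ 0 := by rintro rfl; simp at hb
  let P : ℚ[X] := ∏ t ∈ RR p, (1 - X ^ t.val) - C u - C v * ∑ t : ZMod p, C ((quadraticChar (ZMod p) t : ℤ) : ℚ) * X ^ t.val
  have hev : ∀ c : ZMod p, aeval (ψ c) P = ∏ t ∈ RR p, (1 - ψ (t * c)) - u - v * (ch p c * tau p ψ) := by
    intro c
    rw [← ch_sum_mulShift p ψ c hp]
    simp only [P, map_sub, map_prod, map_mul, map_sum, map_one, map_pow, aeval_X, aeval_C, ch, psi_eq_pow]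
    simp
  have h1 : aeval (ψ 1) P = 0 := by
    rw [hev 1]
    have h2 : ∏ t ∈ RR p, (1 - ψ (t * 1)) = fR p ψ := by
      rw [prod_scaled p ψ 1 one_ne_zero, if_pos (by simp)]
    rw [h2, h]
    have : ch p 1 = 1 := by simp [ch]
    rw [this]; ring
  have hprim := psi_prim_root p ψ hψ
  have hint : IsIntegral ℤ (ψ 1) := hprim.isIntegral (Fact.out : p.Prime).pos
  have h2 : minpoly ℚ (ψ 1) ∣ P := minpoly.dvd ℚ _ h1
  have h3 : aeval (ψ b) P = 0 := by
    obtain ⟨Q, hQ⟩ := h2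
    have h4 : aeval (ψ b) (minpoly ℚ (ψ 1)) = 0 := by
      rw [minpoly.isIntegrallyClosed_eq_field_fractions' ℚ hint]
      have hcop : Nat.Coprime b.val p := (ZMod.val_coe_unit_coprime (Units.mk0 b hb0))
      have h5 := hprim.pow_isRoot_minpoly hcop
      have h6 : ψ b = ψ 1 ^ b.val := by rw [← psi_eq_pow, mul_one]
      rw [h6, aeval_map_algebraMap]
      rw [IsRoot.def, eval_map] at h5
      exact h5
    rw [hQ, map_mul, h4, zero_mul]
  rw [hev b, prod_scaled p ψ b hb0, if_neg (by rw [hb]; norm_num)] at h3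
  have : ch p b = -1 := by simp [ch, hb]
  rw [this] at h3
  linear_combination h3

end

end LegDet
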