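import Pool.Agent.Work.MP_29211c_nt.Defs

/-!
# The value `L(1, χ)` for the even quadratic character
-/

set_option autoImplicit false

namespace LegDet.LV

open Filter Topology

namespace NT1

/-- summation by parts -/
theorem by_parts (a g : ℕ → ℂ) (N : ℕ) :
    ∑ k ∈ Finset.range N, a k * g k = (∑ k ∈ Finset.range N, a k) * g N +
      ∑ k ∈ Finset.range N, (∑ j ∈ Finset.range (k + 1), a j) * (g k - g (k + 1)) := by
  induction N with
  | zero => simp
  | succ N ih =>
    have e1 := Finset.sum_range_succ (fun k => a k * g k) N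
    have e2 := Finset.sum_range_succ
      (fun k => (∑ j ∈ Finset.range (k + 1), a j) * (g k - g (k + 1))) N
    have e3 := Finset.sum_range_succ a N
    rw [e1, e2, ih, e3]
    ring

/-- the weights -/
noncomputable def g (s : ℝ) (k : ℕ) : ℝ := ((k : ℝ) + 1) ^ (-s)

theorem g_nonneg (s : ℝ) (k : ℕ) : 0 ≤ g s k := Real.rpow_nonneg (by positivity) _

theorem g_diff_nonneg {s : ℝ} (hs : 0 ≤ s) (k : ℕ) : 0 ≤ g s k - g s (k + 1) := by
  have : g s (k + 1) ≤ g s k := by
    unfold g
    apply Real.rpow_le_rpow_of_nonpos (by positivity) (by push_cast; linarith) (by linarith)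
  linarith

theorem g_diff_le {s : ℝ} (hs : 1 ≤ s) (hs2 : s ≤ 2) (k : ℕ) :
    g s k - g s (k + 1) ≤ 2 / ((k : ℝ) + 1) ^ 2 := by
  have hk : (0 : ℝ) ≤ k := Nat.cast_nonneg k
  have h1 : g s (k + 1) = g s k * (((k : ℝ) + 1) / (k + 2)) ^ s := by
    unfold g
    push_cast
    rw [Real.div_rpow (by positivity) (by positivity), Real.rpow_neg (by positivity),
      Real.rpow_neg (by positivity)]
    have h2 : ((k : ℝ) + 1) ^ s ≠ 0 := (Real.rpow_pos_of_pos (by positivity) _).ne'
    have h3 : (k : ℝ) + 1 + 1 = k + 2 := by ring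
    rw [h3]
    field_simp
  have h4 : (((k : ℝ) + 1) / (k + 2)) ^ (2 : ℝ) ≤ (((k : ℝ) + 1) / (k + 2)) ^ s := by
    apply Real.rpow_le_rpow_of_exponent_ge (by positivity) _ hs2
    rw [div_le_one (by positivity)]
    linarith
  have h5 : 1 - 2 / ((k : ℝ) + 2) ≤ (((k : ℝ) + 1) / (k + 2)) ^ (2 : ℝ) := by
    rw [Real.rpow_two, div_pow, sub_le_iff_le_add, ← sub_le_iff_le_add', ]
    rw [sub_le_iff_le_add, div_add_div _ _ (by positivity) (by positivity), le_div_iff₀ (by positivity)]
    nlinarith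
  have h6 : g s k ≤ 1 / ((k : ℝ) + 1) := by
    unfold g
    rw [one_div, ← Real.rpow_neg_one]
    apply Real.rpow_le_rpow_of_exponent_le (by linarith) (by linarith)
  have h7 : g s k - g s (k + 1) = g s k * (1 - (((k : ℝ) + 1) / (k + 2)) ^ s) := by
    rw [h1]; ring
  have h8 : 1 - (((k : ℝ) + 1) / (k + 2)) ^ s ≤ 2 / ((k : ℝ) + 2) := by linarith
  rw [h7]
  calc g s k * (1 - (((k : ℝ) + 1) / (k + 2)) ^ s)
      ≤ g s k * (2 / ((k : ℝ) + 2)) := mul_le_mul_of_nonneg_left h8 (g_nonneg s k)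
    _ ≤ 1 / ((k : ℝ) + 1) * (2 / ((k : ℝ) + 2)) :=
        mul_le_mul_of_nonneg_right h6 (by positivity)
    _ ≤ 2 / ((k : ℝ) + 1) ^ 2 := by
        rw [div_mul_div_comm, one_mul]
        apply div_le_div_of_nonneg_left (by norm_num) (by positivity)
        nlinarith

theorem g_tendsto {s : ℝ} (hs : 0 < s) : Tendsto (g s) atTop (𝓝 0) := by
  have h1 := (tendsto_rpow_neg_atTop hs).comp
    (tendsto_atTop_add_const_right atTop (1 : ℝ) tendsto_natCast_atTop_atTop)
  exact h1

theorem summable_bound (C : ℝ) : Summable fun k : ℕ => C * (2 / ((k : ℝ) + 1) ^ 2) := by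
  have h1 : Summable fun k : ℕ => 1 / ((k : ℝ)) ^ 2 := Real.summable_one_div_nat_pow.2 one_lt_two
  have h2 := (summable_nat_add_iff 1).2 h1
  have h3 := h2.mul_left (C * 2)
  refine (summable_congr fun k => ?_).2 h3
  push_cast
  ring

/-- bounded partial sums: convergence and formula -/
theorem tendsto_parts {a : ℕ → ℂ} {C : ℝ} (hC : ∀ n, ‖∑ k ∈ Finset.range n, a k‖ ≤ C)
    {s : ℝ} (hs : 1 ≤ s) (hs2 : s ≤ 2) :
    Tendsto (fun N => ∑ k ∈ Finset.range N, a k * (g s k : ℂ)) atTop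
      (𝓝 (∑' k, (∑ j ∈ Finset.range (k + 1), a j) * ((g s k - g s (k + 1) : ℝ) : ℂ))) := by
  have h1 : Summable fun k => (∑ j ∈ Finset.range (k + 1), a j) *
      ((g s k - g s (k + 1) : ℝ) : ℂ) := by
    refine Summable.of_norm_bounded (summable_bound C) fun k => ?_
    rw [norm_mul, Complex.norm_real, Real.norm_eq_abs, abs_of_nonneg (g_diff_nonneg (by linarith) k)]
    exact mul_le_mul (hC _) (g_diff_le hs hs2 k) (g_diff_nonneg (by linarith) k)
      ((norm_nonneg _).trans (hC 0))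
  have h2 := h1.hasSum.tendsto_sum_nat
  have h3 : Tendsto (fun N => (∑ k ∈ Finset.range N, a k) * (g s N : ℂ)) atTop (𝓝 0) := by
    rw [tendsto_zero_iff_norm_tendsto_zero]
    have h4 : Tendsto (fun N => C * g s N) atTop (𝓝 0) := by
      have := (g_tendsto (s := s) (by linarith)).const_mul C
      rwa [mul_zero] at this
    refine squeeze_zero (fun N => norm_nonneg _) (fun N => ?_) h4
    rw [norm_mul, Complex.norm_real, Real.norm_eq_abs, abs_of_nonneg (g_nonneg s N)]
    exact mul_le_mul_of_nonneg_right (hC N) (g_nonneg s N)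
  have h5 := h3.add h2
  rw [zero_add] at h5
  refine h5.congr fun N => ?_
  rw [by_parts a (fun k => (g s k : ℂ)) N]
  push_cast
  rfl

theorem tendsto_in_s {a : ℕ → ℂ} {C : ℝ} (hC : ∀ n, ‖∑ k ∈ Finset.range n, a k‖ ≤ C) :
    Tendsto (fun s : ℝ => ∑' k, (∑ j ∈ Finset.range (k + 1), a j) *
        ((g s k - g s (k + 1) : ℝ) : ℂ)) (𝓝[>] 1)
      (𝓝 (∑' k, (∑ j ∈ Finset.range (k + 1), a j) * ((g 1 k - g 1 (k + 1) : ℝ) : ℂ))) := by
  refine tendsto_tsum_of_dominated_convergence (bound := fun k => C * (2 / ((k : ℝ) + 1) ^ 2))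
    (summable_bound C) ?_ ?_
  · intro k
    have hc : Continuous fun s : ℝ => (∑ j ∈ Finset.range (k + 1), a j) *
        ((g s k - g s (k + 1) : ℝ) : ℂ) := by
      unfold g
      have h0 : ((k : ℝ) + 1) ≠ 0 := by positivity
      have h1 : (((k + 1 : ℕ) : ℝ) + 1) ≠ 0 := by positivity
      exact continuous_const.mul (Complex.continuous_ofReal.comp
        ((Real.continuous_const_rpow h0 |>.comp continuous_neg).sub
          (Real.continuous_const_rpow h1 |>.comp continuous_neg)))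
    exact (hc.tendsto 1).mono_left nhdsWithin_le_nhds
  · have h1 : ∀ᶠ s : ℝ in 𝓝[>] 1, s ∈ Set.Ioo (1 : ℝ) 2 := Ioo_mem_nhdsGT (by norm_num)
    filter_upwards [h1] with s hs k
    rw [norm_mul, Complex.norm_real, Real.norm_eq_abs,
      abs_of_nonneg (g_diff_nonneg (by linarith [hs.1]) k)]
    exact mul_le_mul (hC _) (g_diff_le hs.1.le hs.2.le k) (g_diff_nonneg (by linarith [hs.1]) k)
      ((norm_nonneg _).trans (hC 0))

end NT1

open NT1

variable (p : ℕ) [Fact p.Prime]

theorem ch_mul (a b : ZMod p) : ch p (a * b) = ch p a * ch p b := by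
  unfold ch
  rw [map_mul]
  push_cast
  rfl

theorem ch_zero : ch p 0 = 0 := by
  unfold ch
  rw [quadraticChar_zero]
  simp

theorem ch_sq {a : ZMod p} (ha : a ≠ 0) : ch p a * ch p a = 1 := by
  unfold ch
  have := quadraticChar_sq_one ha
  rw [← Int.cast_mul, ← pow_two, this]
  simp

theorem norm_ch_le (a : ZMod p) : ‖ch p a‖ ≤ 1 := by
  unfold ch
  rcases quadraticChar_isQuadratic (ZMod p) a with h | h | h <;> rw [h] <;> simp

theorem sum_ch (hp2 : p ≠ 2) : ∑ t : ZMod p, ch p t = 0 := by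
  unfold ch
  rw [← Int.cast_sum, quadraticChar_sum_zero (by rw [ZMod.ringChar_zmod_n]; exact hp2)]
  simp

theorem sum_range_period (f : ZMod p → ℂ) : ∑ k ∈ Finset.range p, f (k : ZMod p) = ∑ t, f t := by
  refine Finset.sum_bij (fun k _ => (k : ZMod p)) (fun _ _ => Finset.mem_univ _) ?_ ?_
    (fun _ _ => rfl)
  · intro a ha b hb hab
    rw [ZMod.natCast_eq_natCast_iff'] at hab
    rwa [Nat.mod_eq_of_lt (Finset.mem_range.1 ha), Nat.mod_eq_of_lt (Finset.mem_range.1 hb)] at hab
  · intro t _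
    exact ⟨t.val, Finset.mem_range.2 (ZMod.val_lt t), ZMod.natCast_zmod_val t⟩

theorem norm_sum_ch_le (hp2 : p ≠ 2) (n : ℕ) :
    ‖∑ k ∈ Finset.range n, ch p ((k + 1 : ℕ) : ZMod p)‖ ≤ p := by
  have hpos : 0 < p := (Fact.out : p.Prime).pos
  have hper : ∀ n, ∑ k ∈ Finset.range (n + p), ch p ((k + 1 : ℕ) : ZMod p) =
      ∑ k ∈ Finset.range n, ch p ((k + 1 : ℕ) : ZMod p) := by
    intro n
    rw [Finset.sum_range_add]
    have h1 := sum_range_period p (fun t => ch p ((n : ZMod p) + 1 + t))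
    have h2 : ∑ t : ZMod p, ch p ((n : ZMod p) + 1 + t) = 0 := by
      rw [← sum_ch p hp2]
      exact Fintype.sum_equiv (Equiv.addLeft ((n : ZMod p) + 1)) _ _ (fun _ => rfl)
    have h3 : ∑ x ∈ Finset.range p, ch p ((n + x + 1 : ℕ) : ZMod p) = 0 := by
      rw [← h2, ← h1]
      refine Finset.sum_congr rfl fun x _ => ?_
      congr 1
      push_cast
      ring
    rw [h3, add_zero]
  have hmod : ∑ k ∈ Finset.range n, ch p ((k + 1 : ℕ) : ZMod p) =
      ∑ k ∈ Finset.range (n % p), ch p ((k + 1 : ℕ) : ZMod p) := by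
    conv_lhs => rw [← Nat.mod_add_div n p]
    generalize n / p = q
    generalize n % p = r
    induction q with
    | zero => simp
    | succ q ih =>
      rw [Nat.mul_succ, ← add_assoc, hper, ih]
  rw [hmod]
  refine (norm_sum_le _ _).trans ?_
  refine (Finset.sum_le_sum fun k _ => norm_ch_le p _).trans ?_
  rw [Finset.sum_const, Finset.card_range, nsmul_eq_mul, mul_one]
  exact_mod_cast (Nat.mod_lt n hpos).le

theorem chiC_apply (n : ℕ) : chiC p (n : ZMod p) = ch p (n : ZMod p) := by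
  unfold chiC ch
  rw [MulChar.ringHomComp_apply]
  rfl

theorem chiC_ne_one (hp2 : p ≠ 2) : chiC p ≠ 1 := by
  intro h
  have hs : ∑ t : ZMod p, chiC p t = 0 := by
    rw [← sum_ch p hp2]
    refine Finset.sum_congr rfl fun t _ => ?_
    unfold chiC ch
    rw [MulChar.ringHomComp_apply]
    rfl
  rw [h, MulChar.sum_one_eq_card_units] at hs
  have hpos : 0 < Fintype.card (ZMod p)ˣ := Fintype.card_pos
  rw [Nat.cast_eq_zero] at hs
  omega

/-- `L(1, χ)` as the limit of the partial sums -/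
theorem tendsto_partial (hp2 : p ≠ 2) :
    Tendsto (fun N => ∑ n ∈ Finset.range N, ch p (n : ZMod p) / (n : ℂ)) atTop
      (𝓝 (DirichletCharacter.LFunction (chiC p) 1)) := by
  have hC := norm_sum_ch_le p hp2
  set a : ℕ → ℂ := fun k => ch p ((k + 1 : ℕ) : ZMod p) with ha
  -- s > 1
  have hL : ∀ s : ℝ, 1 < s → s ≤ 2 → DirichletCharacter.LFunction (chiC p) s =
      ∑' k, (∑ j ∈ Finset.range (k + 1), a j) * ((g s k - g s (k + 1) : ℝ) : ℂ) := by
    intro s hs hs2
    have h1 : 1 < (s : ℂ).re := by simpa using hs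
    rw [DirichletCharacter.LFunction_eq_LSeries _ h1]
    have h2 : LSeriesSummable (fun n => chiC p (n : ZMod p)) (s : ℂ) :=
      DirichletCharacter.LSeriesSummable_of_one_lt_re (chiC p) h1
    have h3 := h2.LSeriesHasSum.tendsto_sum_nat
    have h4 := (tendsto_add_atTop_iff_nat 1).2 h3
    refine tendsto_nhds_unique h4 ?_
    refine (tendsto_parts hC hs.le hs2).congr fun N => ?_
    rw [Finset.sum_range_succ', LSeries.term_zero, add_zero]
    refine Finset.sum_congr rfl fun k _ => ?_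
    rw [LSeries.term_of_ne_zero (Nat.succ_ne_zero k), chiC_apply, div_eq_mul_inv]
    congr 1
    unfold g
    rw [Complex.ofReal_cpow (by positivity), Complex.ofReal_neg, Complex.cpow_neg]
    push_cast
    rfl
  have hlim : Tendsto (fun s : ℝ => DirichletCharacter.LFunction (chiC p) s) (𝓝[>] 1)
      (𝓝 (DirichletCharacter.LFunction (chiC p) 1)) := by
    have hc : Continuous (DirichletCharacter.LFunction (chiC p)) :=
      (DirichletCharacter.differentiable_LFunction (chiC_ne_one p hp2)).continuous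
    have h1 := ((hc.comp Complex.continuous_ofReal).tendsto 1).mono_left
      (nhdsWithin_le_nhds (s := Set.Ioi (1 : ℝ)))
    simpa [Function.comp_def] using h1
  have hval : DirichletCharacter.LFunction (chiC p) 1 =
      ∑' k, (∑ j ∈ Finset.range (k + 1), a j) * ((g 1 k - g 1 (k + 1) : ℝ) : ℂ) := by
    refine tendsto_nhds_unique hlim ((tendsto_in_s hC).congr' ?_)
    have h1 : ∀ᶠ s : ℝ in 𝓝[>] 1, s ∈ Set.Ioo (1 : ℝ) 2 := Ioo_mem_nhdsGT (by norm_num)
    filter_upwards [h1] with s hs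
    exact (hL s hs.1 hs.2.le).symm
  rw [hval, ← tendsto_add_atTop_iff_nat 1]
  refine (tendsto_parts hC le_rfl one_le_two).congr fun N => ?_
  rw [Finset.sum_range_succ', Nat.cast_zero, ch_zero, zero_div, add_zero]
  refine Finset.sum_congr rfl fun k _ => ?_
  rw [div_eq_mul_inv]
  congr 1
  unfold g
  rw [Real.rpow_neg_one]
  push_cast
  rfl

theorem sum_ch_mul (hp2 : p ≠ 2) (ψ : AddChar (ZMod p) ℂ) (m : ZMod p) :
    ∑ t : ZMod p, ch p t * ψ (m * t) = ch p m * tau p ψ := by
  by_cases hm : m = 0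
  · subst hm
    rw [ch_zero, zero_mul, ← sum_ch p hp2]
    refine Finset.sum_congr rfl fun t _ => ?_
    rw [zero_mul, AddChar.map_zero_eq_one, mul_one]
  · unfold tau
    rw [Finset.mul_sum]
    refine Fintype.sum_bijective (fun t => m * t) (mulLeft_bijective₀ m hm) _ _ fun t => ?_
    rw [ch_mul, ← mul_assoc, ← mul_assoc, ch_sq p hm, one_mul]

theorem norm_psi (ψ : AddChar (ZMod p) ℂ) (t : ZMod p) : ‖ψ t‖ = 1 := ψ.norm_apply t

theorem psi_ne_one {ψ : AddChar (ZMod p) ℂ} (hψ : ψ.IsPrimitive) {t : ZMod p} (ht : t ≠ 0) :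
    ψ t ≠ 1 := by
  intro h
  exact ht ((AddChar.IsPrimitive.zmod_char_eq_one_iff p hψ t).1 h)

theorem power_sum (hp2 : p ≠ 2) (ψ : AddChar (ZMod p) ℂ) {r : ℝ} (hr0 : 0 < r) (hr1 : r < 1) :
    (∑' n : ℕ, ch p (n : ZMod p) / (n : ℂ) * (r : ℂ) ^ n) * tau p ψ =
      ∑ t : ZMod p, ch p t * (-Complex.log (1 - r * ψ t)) := by
  have h1 : ∀ t : ZMod p, HasSum (fun n : ℕ => ch p t * (((r : ℂ) * ψ t) ^ n / n))
      (ch p t * (-Complex.log (1 - r * ψ t))) := by
    intro t
    refine (Complex.hasSum_taylorSeries_neg_log ?_).mul_left _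
    rw [norm_mul, norm_psi, mul_one, Complex.norm_real, Real.norm_eq_abs, abs_of_pos hr0]
    exact hr1
  have h2 := hasSum_sum (s := Finset.univ) fun t _ => h1 t
  rw [← h2.tsum_eq, ← tsum_mul_right]
  refine tsum_congr fun n => ?_
  have h3 := sum_ch_mul p hp2 ψ (n : ZMod p)
  calc ch p (n : ZMod p) / (n : ℂ) * (r : ℂ) ^ n * tau p ψ
      = (r : ℂ) ^ n / n * (ch p (n : ZMod p) * tau p ψ) := by ring
    _ = (r : ℂ) ^ n / n * ∑ t : ZMod p, ch p t * ψ ((n : ZMod p) * t) := by rw [h3]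
    _ = _ := by
        rw [Finset.mul_sum]
        refine Finset.sum_congr rfl fun t _ => ?_
        rw [← nsmul_eq_mul, AddChar.map_nsmul_eq_pow, mul_pow]
        ring

/-! ## module NT1 (file Lval.lean) : the value L(1,χ) -/
theorem Lval (p : ℕ) [Fact p.Prime] (hp : p % 4 = 1) (ψ : AddChar (ZMod p) ℂ)
    (hψ : ψ.IsPrimitive) :
    DirichletCharacter.LFunction (chiC p) 1 * tau p ψ =
      - ∑ t : ZMod p, ch p t * ((Real.log ‖1 - ψ t‖ : ℝ) : ℂ) := by
  have hp2 : p ≠ 2 := by
    intro h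
    rw [h] at hp
    norm_num at hp
  have habel := Complex.tendsto_tsum_powerSeries_nhdsWithin_lt (tendsto_partial p hp2)
  rw [tendsto_map'_iff] at habel
  have h1 := habel.mul_const (tau p ψ)
  have hslit : ∀ t : ZMod p, t ≠ 0 → 1 - ψ t ∈ Complex.slitPlane := by
    intro t ht
    left
    have hn := norm_psi p ψ t
    have hne := psi_ne_one p hψ ht
    have hre : (ψ t).re ≤ 1 := (Complex.re_le_norm _).trans hn.le
    have hne' : (ψ t).re ≠ 1 := by
      intro h
      apply hne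
      have h2 : (ψ t).re ^ 2 + (ψ t).im ^ 2 = 1 := by
        have := Complex.sq_norm (ψ t)
        rw [hn, Complex.normSq_apply] at this
        nlinarith
      have h3 : (ψ t).im = 0 := by
        rw [h] at h2
        nlinarith [sq_nonneg (ψ t).im]
      exact Complex.ext h h3
    rw [Complex.sub_re, Complex.one_re]
    have := lt_of_le_of_ne hre hne'
    linarith
  have h2 : Tendsto (fun r : ℝ => ∑ t : ZMod p, ch p t * (-Complex.log (1 - r * ψ t))) (𝓝[<] 1)
      (𝓝 (∑ t : ZMod p, ch p t * (-Complex.log (1 - ψ t)))) := by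
    refine tendsto_finsetSum _ fun t _ => ?_
    by_cases ht : t = 0
    · subst ht
      simp only [ch_zero, zero_mul]
      exact tendsto_const_nhds
    · refine Tendsto.const_mul _ (Tendsto.neg ?_)
      have hc : ContinuousAt (fun r : ℝ => Complex.log (1 - r * ψ t)) 1 := by
        refine ContinuousAt.clog ?_ ?_
        · exact (continuous_const.sub
            (Complex.continuous_ofReal.mul continuous_const)).continuousAt
        · simpa using hslit t ht
      have := hc.tendsto.mono_left (nhdsWithin_le_nhds (s := Set.Iio (1 : ℝ)))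
      simpa using this
  have h3 : DirichletCharacter.LFunction (chiC p) 1 * tau p ψ =
      ∑ t : ZMod p, ch p t * (-Complex.log (1 - ψ t)) := by
    refine tendsto_nhds_unique h1 (h2.congr' ?_)
    have h4 : ∀ᶠ r : ℝ in 𝓝[<] 1, r ∈ Set.Ioo (0 : ℝ) 1 := Ioo_mem_nhdsLT (by norm_num)
    filter_upwards [h4] with r hr
    exact (power_sum p hp2 ψ hr.1 hr.2).symm
  rw [h3]
  have hm1 : ch p (-1) = 1 := by
    unfold ch
    have : quadraticChar (ZMod p) (-1) = 1 := by
      rw [quadraticChar_neg_one (by rw [ZMod.ringChar_zmod_n]; exact hp2), ZMod.card,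
        ZMod.χ₄_nat_one_mod_four hp]
    rw [this]
    simp
  have hsym : ∑ t : ZMod p, ch p t * Complex.log (1 - ψ t) =
      ∑ t : ZMod p, ch p t * (starRingEnd ℂ) (Complex.log (1 - ψ t)) := by
    refine Fintype.sum_equiv (Equiv.neg (ZMod p)) _ _ fun t => ?_
    rw [Equiv.neg_apply]
    have e1 : ch p (-t) = ch p t := by
      rw [← neg_one_mul, ch_mul, hm1, one_mul]
    rw [e1]
    by_cases ht : t = 0
    · subst ht
      rw [ch_zero, zero_mul, zero_mul]
    · congr 1
      have e2 : ψ (-t) = (starRingEnd ℂ) (ψ t) := by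
        rw [AddChar.map_neg_eq_conj]
      have e3 : 1 - ψ (-t) = (starRingEnd ℂ) (1 - ψ t) := by
        rw [e2, map_sub, map_one]
      have e4 : (1 - ψ t).arg ≠ Real.pi := Complex.slitPlane_arg_ne_pi (hslit t ht)
      rw [e3, Complex.log_conj _ e4, Complex.conj_conj]
  have hre : ∑ t : ZMod p, ch p t * Complex.log (1 - ψ t) =
      ∑ t : ZMod p, ch p t * ((Real.log ‖1 - ψ t‖ : ℝ) : ℂ) := by
    have h5 : ∀ z : ℂ, Complex.log z + (starRingEnd ℂ) (Complex.log z) =
        2 * ((Real.log ‖z‖ : ℝ) : ℂ) := by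
      intro z
      rw [Complex.add_conj, Complex.log_re]
      push_cast
      ring
    have h6 : (2 : ℂ) * ∑ t : ZMod p, ch p t * Complex.log (1 - ψ t) =
        2 * ∑ t : ZMod p, ch p t * ((Real.log ‖1 - ψ t‖ : ℝ) : ℂ) := by
      rw [two_mul]
      conv_lhs => rw [hsym]
      conv_lhs => arg 1; rw [← hsym]
      rw [← Finset.sum_add_distrib, Finset.mul_sum]
      refine Finset.sum_congr rfl fun t _ => ?_
      rw [← mul_add, h5]
      ring
    exact mul_left_cancel₀ two_ne_zero h6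
  rw [← hre, ← Finset.sum_neg_distrib]
  refine Finset.sum_congr rfl fun t _ => ?_
  ring

end LegDet.LV
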