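import Pool.Agent.Work.MP_29211c_nt.Field

/-!
# MP_29211c_nt: places, units and regulator of `ℚ(√p)`
-/

set_option autoImplicit false

namespace LegDet

open NumberField Polynomial Module

theorem finrank_QS (p : ℕ) [Fact p.Prime] : Module.finrank ℚ (QS p) = 2 := by
  have h := IntermediateField.adjoin.finrank (isAlgebraic_sqrt p)
  rw [minpoly_sqrt, natDegree_X_pow_sub_C] at h
  exact h

instance isTotallyReal_QS (p : ℕ) : IsTotallyReal (QS p) where
  isReal v := by
    rw [InfinitePlace.isReal_iff, ComplexEmbedding.isReal_iff]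
    set φ := v.embedding with hφ
    have hsq : φ (sq p) * φ (sq p) = (p : ℂ) := by
      rw [← map_mul, sq_mul_self, map_natCast]
    have hreal : (starRingEnd ℂ) (φ (sq p)) = φ (sq p) := by
      have hs : ((Real.sqrt (p : ℝ) : ℝ) : ℂ) * ((Real.sqrt (p : ℝ) : ℝ) : ℂ) = (p : ℂ) := by
        exact_mod_cast congrArg (fun t : ℝ => (t : ℂ)) (sqrt_sq' p)
      have h0 : (φ (sq p) - ((Real.sqrt (p : ℝ) : ℝ) : ℂ)) *
          (φ (sq p) + ((Real.sqrt (p : ℝ) : ℝ) : ℂ)) = 0 := by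
        linear_combination hsq - hs
      rcases mul_eq_zero.1 h0 with h | h
      · rw [sub_eq_zero.1 h, Complex.conj_ofReal]
      · rw [eq_neg_of_add_eq_zero_left h, map_neg, Complex.conj_ofReal]
    ext x
    obtain ⟨a, b, hab⟩ := exists_repr' p x
    rw [hab]
    simp only [ComplexEmbedding.conjugate_coe_eq, map_add, map_mul, eq_ratCast, map_ratCast]
    rw [hreal]

theorem nrComplexPlaces_QS (p : ℕ) [Fact p.Prime] : InfinitePlace.nrComplexPlaces (QS p) = 0 :=
  nrComplexPlaces_eq_zero_iff.2 inferInstance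

theorem nrRealPlaces_QS (p : ℕ) [Fact p.Prime] : InfinitePlace.nrRealPlaces (QS p) = 2 := by
  have h := InfinitePlace.card_add_two_mul_card_eq_rank (QS p)
  rw [finrank_QS, nrComplexPlaces_QS] at h
  omega

theorem torsion_cases (p : ℕ) (x : (𝓞 (QS p))ˣ) (hx : x ∈ Units.torsion (QS p)) :
    x = 1 ∨ x = -1 := by
  rw [Units.torsion, CommGroup.mem_torsion, isOfFinOrder_iff_pow_eq_one] at hx
  obtain ⟨n, hn, hx⟩ := hx
  have h1 : (((x : 𝓞 (QS p)) : QS p) : ℝ) ^ n = 1 := by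
    have := congrArg (fun z : (𝓞 (QS p))ˣ => (((z : 𝓞 (QS p)) : QS p) : ℝ)) hx
    simpa using this
  have h2 : |(((x : 𝓞 (QS p)) : QS p) : ℝ)| = 1 := by
    have := congrArg abs h1
    rw [abs_pow, abs_one] at this
    exact (pow_eq_one_iff_of_nonneg (abs_nonneg _) hn.ne').1 this
  rcases (abs_eq zero_le_one).1 h2 with h | h
  · left
    apply Units.ext
    apply RingOfIntegers.ext
    apply Subtype.ext
    rw [h]
    simp
  · right
    apply Units.ext
    apply RingOfIntegers.ext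
    apply Subtype.ext
    rw [h]
    simp

theorem torsionOrder_QS (p : ℕ) [Fact p.Prime] : Units.torsionOrder (QS p) = 2 := by
  classical
  let := Fintype.ofFinite (Units.torsion (QS p))
  rw [Units.torsionOrder, Nat.card_eq_fintype_card]
  refine (Finset.card_eq_two.2 ⟨1, ⟨-1, neg_one_mem_torsion⟩,
    by simp [← Subtype.coe_ne_coe], Finset.ext fun x ↦ ⟨fun _ ↦ ?_, fun _ ↦ Finset.mem_univ _⟩⟩)
  rw [Finset.mem_insert, Finset.mem_singleton, ← Subtype.val_inj, ← Subtype.val_inj]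
  exact torsion_cases p x x.2

/-- the identity embedding -/
noncomputable def emb (p : ℕ) : QS p →+* ℂ := Complex.ofRealHom.comp (QS p).val.toRingHom

theorem place_apply (p : ℕ) (x : QS p) : InfinitePlace.mk (emb p) x = |(x : ℝ)| := by
  rw [InfinitePlace.apply]
  simp [emb]

theorem unit_abs (p : ℕ) [Fact p.Prime] : ∃ u₀ : (𝓞 (QS p))ˣ,
    Units.regulator (QS p) = abs (Real.log (abs (((u₀ : 𝓞 (QS p)) : QS p) : ℝ))) ∧
    ∀ x : (𝓞 (QS p))ˣ, ∃ k : ℤ, |(((x : 𝓞 (QS p)) : QS p) : ℝ)| =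
      |(((u₀ : 𝓞 (QS p)) : QS p) : ℝ)| ^ k := by
  classical
  have hcard : Fintype.card (InfinitePlace (QS p)) = 2 := by
    rw [InfinitePlace.card_eq_nrRealPlaces_add_nrComplexPlaces, nrRealPlaces_QS, nrComplexPlaces_QS]
  have hrank : Units.rank (QS p) = 1 := by
    rw [Units.rank, hcard]
  set w₁ : InfinitePlace (QS p) := InfinitePlace.mk (emb p) with hw₁
  obtain ⟨w₂, hw₂⟩ : ∃ w₂ : InfinitePlace (QS p), w₂ ≠ w₁ := by
    have : Nontrivial (InfinitePlace (QS p)) := by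
      rw [← Fintype.one_lt_card_iff_nontrivial, hcard]
      norm_num
    exact exists_ne w₁
  have hcard2 : Fintype.card {w : InfinitePlace (QS p) // w ≠ w₂} = Units.rank (QS p) := by
    rw [Fintype.card_subtype_compl, Fintype.card_subtype_eq, hcard, hrank]
  let e : {w : InfinitePlace (QS p) // w ≠ w₂} ≃ Fin (Units.rank (QS p)) :=
    Fintype.equivOfCardEq (by rw [hcard2, Fintype.card_fin])
  have hsub : Subsingleton {w : InfinitePlace (QS p) // w ≠ w₂} := by
    rw [← Fintype.card_le_one_iff_subsingleton, hcard2, hrank]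
  have hsub2 : Subsingleton (Fin (Units.rank (QS p))) := by
    rw [← Fintype.card_le_one_iff_subsingleton, Fintype.card_fin, hrank]
  let i₁ : {w : InfinitePlace (QS p) // w ≠ w₂} := ⟨w₁, hw₂.symm⟩
  refine ⟨Units.fundSystem (QS p) (e i₁), ?_, ?_⟩
  · rw [Units.regulator_eq_det (QS p) w₂ e, Matrix.det_eq_elem_of_subsingleton _ i₁,
      Matrix.of_apply]
    have hmult : (InfinitePlace.mult (i₁ : InfinitePlace (QS p)) : ℝ) = 1 := by
      rw [IsTotallyReal.mult_eq]; norm_num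
    rw [hmult, one_mul]
    have : ((i₁ : InfinitePlace (QS p)) : InfinitePlace (QS p)) = w₁ := rfl
    rw [this, hw₁, place_apply]
  · intro x
    obtain ⟨⟨ζ, f⟩, hx, -⟩ := Units.exist_unique_eq_mul_prod (QS p) x
    refine ⟨f (e i₁), ?_⟩
    have hprod : ∏ i, (Units.fundSystem (QS p) i) ^ (f i) =
        (Units.fundSystem (QS p) (e i₁)) ^ (f (e i₁)) := by
      apply Fintype.prod_subsingleton
    simp only at hx
    rw [hx, hprod]
    have hζ : |(((ζ : (𝓞 (QS p))ˣ) : QS p) : ℝ)| = 1 := by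
      have := (Units.mem_torsion (QS p)).1 ζ.2 w₁
      rwa [hw₁, place_apply] at this
    have h3 : (((((ζ : (𝓞 (QS p))ˣ) * Units.fundSystem (QS p) (e i₁) ^ f (e i₁) :
        (𝓞 (QS p))ˣ) : QS p)) : ℝ) = (((ζ : (𝓞 (QS p))ˣ) : QS p) : ℝ) *
        (((Units.fundSystem (QS p) (e i₁) : (𝓞 (QS p))ˣ) : QS p) : ℝ) ^ f (e i₁) := by
      rw [Units.coe_mul, Units.coe_zpow]
      push_cast
      rfl
    rw [Units.coe_coe, h3, abs_mul, hζ, one_mul, abs_zpow]

theorem regulator_QS (p : ℕ) [Fact p.Prime] :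
    ∃ ε : ℝ, IsLeast (unitsGT p) ε ∧ Units.regulator (QS p) = Real.log ε := by
  obtain ⟨u₀, hR, hgen⟩ := unit_abs p
  have hRpos := Units.regulator_pos (QS p)
  set R := Units.regulator (QS p) with hRdef
  have hu0 : (((u₀ : 𝓞 (QS p)) : QS p) : ℝ) ≠ 0 := by
    have h := Units.coe_ne_zero u₀
    intro h'
    exact h (Subtype.ext h')
  refine ⟨Real.exp R, ⟨⟨by simpa using hRpos, ?_⟩, ?_⟩, (Real.log_exp R).symm⟩
  · -- membership
    have habs : ∃ u₁ : (𝓞 (QS p))ˣ, |(((u₁ : 𝓞 (QS p)) : QS p) : ℝ)| = Real.exp R := by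
      rcases le_total 0 (Real.log (abs (((u₀ : 𝓞 (QS p)) : QS p) : ℝ))) with h | h
      · refine ⟨u₀, ?_⟩
        rw [hR, abs_of_nonneg h, Real.exp_log (abs_pos.2 hu0)]
      · refine ⟨u₀⁻¹, ?_⟩
        rw [hR, abs_of_nonpos h, Real.exp_neg, Real.exp_log (abs_pos.2 hu0), ← abs_inv]
        congr 1
        have h1 : (((u₀⁻¹ : (𝓞 (QS p))ˣ) : 𝓞 (QS p)) : QS p) * ((u₀ : 𝓞 (QS p)) : QS p) = 1 := by
          rw [← map_mul, Units.inv_mul, map_one]
        have h2 := congrArg (fun z : QS p => (z : ℝ)) h1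
        exact eq_inv_of_mul_eq_one_left h2
    obtain ⟨u₁, hu₁⟩ := habs
    rcases abs_choice (((u₁ : 𝓞 (QS p)) : QS p) : ℝ) with h | h
    · exact ⟨u₁, by rw [← h, hu₁]⟩
    · refine ⟨-u₁, ?_⟩
      rw [← hu₁, h]
      simp
  · rintro v ⟨hv1, η, hη⟩
    obtain ⟨k, hk⟩ := hgen η
    have hv0 : 0 < v := by linarith
    rw [hη, abs_of_pos hv0] at hk
    have hlog : Real.log v = k * Real.log (abs (((u₀ : 𝓞 (QS p)) : QS p) : ℝ)) := by
      rw [hk, Real.log_zpow]
    have hlpos : 0 < Real.log v := Real.log_pos hv1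
    have hk0 : k ≠ 0 := by
      rintro rfl
      rw [Int.cast_zero, zero_mul] at hlog
      exact hlpos.ne' hlog
    have h1 : (1 : ℝ) ≤ |(k : ℝ)| := by
      have := Int.one_le_abs hk0
      exact_mod_cast this
    have h2 : Real.log v = |(k : ℝ)| * R := by
      rw [hR, ← abs_mul, ← hlog, abs_of_pos hlpos]
    have h3 : R ≤ Real.log v := by
      rw [h2]
      nlinarith
    calc Real.exp R ≤ Real.exp (Real.log v) := Real.exp_le_exp.2 h3
      _ = v := Real.exp_log hv0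

end LegDet
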