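import Pool.Agent.Work.MP_29211c_nt.IdealCount

/-!
# MP_29211c_nt, module NT5: the residue of the Dedekind zeta function of `ℚ(√p)` is `L(1, χ)`
-/

set_option autoImplicit false

namespace LegDet
namespace ZT

open Filter Topology NumberField ArithmeticFunction Complex

variable (p : ℕ) [hF : Fact p.Prime]

theorem chiC_apply (n : ZMod p) : chiC p n = ((quadraticChar (ZMod p) n : ℤ) : ℂ) := rfl

theorem chiC_ne_one (hp : p % 4 = 1) : chiC p ≠ 1 := by
  intro h
  have h2 : ringChar (ZMod p) ≠ 2 := by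
    rw [ZMod.ringChar_zmod_n]; omega
  apply quadraticChar_ne_one h2
  ext a
  have h1 := congrArg (fun χ : DirichletCharacter ℂ p => χ (a : ZMod p)) h
  simp only [chiC_apply, MulChar.one_apply_coe] at h1 ⊢
  exact_mod_cast h1

theorem zetaMul_eq (hp : p % 4 = 1) (n : ℕ) (hn : n ≠ 0) :
    (chiC p).zetaMul n = (Nat.card {I : Ideal (𝓞 (QS p)) // Ideal.absNorm I = n} : ℂ) := by
  have h := card_ideal p hp n hn
  have h' : ((Nat.card {I : Ideal (𝓞 (QS p)) // Ideal.absNorm I = n} : ℤ) : ℂ)
    = ((∑ d ∈ n.divisors, quadraticChar (ZMod p) (d : ZMod p) : ℤ) : ℂ) := by rw [h]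
  push_cast at h'
  rw [h', DirichletCharacter.zetaMul, coe_zeta_mul_apply]
  refine Finset.sum_congr rfl fun d hd => ?_
  have hd0 : d ≠ 0 := (Nat.pos_of_mem_divisors hd).ne'
  simp only [toArithmeticFunction, coe_mk, hd0, ↓reduceIte]
  rfl

theorem lser_one {s : ℂ} :
    LSeries (fun n => (toArithmeticFunction (fun n => chiC p n)) n) s = LSeries (fun n => chiC p n) s := by
  apply LSeries_congr
  intro n hn
  simp only [toArithmeticFunction, coe_mk, hn, ↓reduceIte]

theorem lser_two (hp : p % 4 = 1) {s : ℂ} :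
    LSeries (fun n ↦ (Nat.card {I : Ideal (𝓞 (QS p)) // Ideal.absNorm I = n} : ℂ)) s
      = LSeries (fun n => (chiC p).zetaMul n) s := by
  apply LSeries_congr
  intro n hn
  exact (zetaMul_eq p hp n hn).symm

theorem lser_summ {s : ℂ} (hs : 1 < s.re) :
    LSeriesSummable (fun n => (toArithmeticFunction (fun n => chiC p n)) n) s := by
  refine LSeriesSummable_of_bounded_of_one_lt_re (m := 1) (fun n hn ↦ ?_) hs
  simpa only [toArithmeticFunction, coe_mk, hn, ↓reduceIte] using DirichletCharacter.norm_le_one (chiC p) _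

theorem lser_mul {s : ℂ} (hs : 1 < s.re) :
    LSeries (fun n => (chiC p).zetaMul n) s
      = LSeries (fun n => ((ArithmeticFunction.zeta n : ℕ) : ℂ)) s * LSeries (fun n => chiC p n) s := by
  have h1 : LSeriesSummable (fun n => (((ArithmeticFunction.zeta : ArithmeticFunction ℕ) : ArithmeticFunction ℂ)) n) s :=
    LSeriesSummable_zeta_iff.mpr hs
  have h2 := ArithmeticFunction.LSeries_mul' h1 (lser_summ p hs)
  rw [lser_one] at h2
  rw [DirichletCharacter.zetaMul]
  exact h2

theorem dedekind_eq (hp : p % 4 = 1) {s : ℂ} (hs : 1 < s.re) :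
    dedekindZeta (QS p) s = riemannZeta s * DirichletCharacter.LFunction (chiC p) s := by
  rw [DirichletCharacter.LFunction_eq_LSeries _ hs, ← LSeries_zeta_eq_riemannZeta hs]
  exact (lser_two p hp).trans (lser_mul p hs)

end ZT

open Filter Topology NumberField in
theorem residue_eq_L (p : ℕ) [Fact p.Prime] (hp : p % 4 = 1) :
    ((dedekindZeta_residue (QS p) : ℝ) : ℂ) = DirichletCharacter.LFunction (chiC p) 1 := by
  have h1 := tendsto_sub_one_mul_dedekindZeta_nhdsGT (QS p)
  have hmap : Tendsto (fun s : ℝ => (s : ℂ)) (𝓝[>] 1) (𝓝[≠] 1) := by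
    apply tendsto_nhdsWithin_of_tendsto_nhds_of_eventually_within
    · have : Tendsto (fun s : ℝ => (s : ℂ)) (𝓝 1) (𝓝 ((1 : ℝ) : ℂ)) := Complex.continuous_ofReal.continuousAt
      rw [Complex.ofReal_one] at this
      exact this.mono_left nhdsWithin_le_nhds
    · filter_upwards [self_mem_nhdsWithin] with s hs
      have hs' : (1 : ℝ) < s := hs
      simp only [Set.mem_compl_iff, Set.mem_singleton_iff]
      intro h
      have : s = 1 := by exact_mod_cast h
      linarith
  have h2 : Tendsto (fun s : ℝ => (((s : ℂ) - 1) * riemannZeta s) * DirichletCharacter.LFunction (chiC p) s)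
      (𝓝[>] 1) (𝓝 (1 * DirichletCharacter.LFunction (chiC p) 1)) := by
    refine (riemannZeta_residue_one.comp hmap).mul ?_
    have hc : ContinuousAt (DirichletCharacter.LFunction (chiC p)) 1 :=
      ((DirichletCharacter.differentiable_LFunction (ZT.chiC_ne_one p hp)) 1).continuousAt
    exact (hc.tendsto.mono_left nhdsWithin_le_nhds).comp hmap
  rw [one_mul] at h2
  refine tendsto_nhds_unique h1 (h2.congr' ?_)
  filter_upwards [self_mem_nhdsWithin] with s hs
  have hs' : (1 : ℝ) < s := hs
  rw [ZT.dedekind_eq p hp (by simpa using hs'), mul_assoc]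

end LegDet
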