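import Mathlib
import Pool.Agent.Work.MP_29211c_nt.Defs
import Pool.Agent.Work.MP_29211c_nt.Residues
import Pool.Agent.Work.MP_29211c_nt.Galois
import Pool.Agent.Work.MP_29211c_nt.Lval
import Pool.Agent.Work.MP_29211c_nt.Field
import Pool.Agent.Work.MP_29211c_nt.Units
import Pool.Agent.Work.MP_29211c_nt.Zeta

set_option autoImplicit false

namespace LegDet
open Polynomial Finset NumberField

section
variable (p : ℕ) [Fact p.Prime]

lemma exists_psi (hp : p % 4 = 1) :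
    ∃ ψ : AddChar (ZMod p) ℂ, ψ.IsPrimitive ∧ tau p ψ = ((Real.sqrt p : ℝ) : ℂ) := by
  have hp2 : p ≠ 2 := by rintro rfl; norm_num at hp
  have h0 : (ZMod.stdAddChar (N := p)).IsPrimitive := ZMod.isPrimitive_stdAddChar p
  have hsq : ∀ ψ : AddChar (ZMod p) ℂ, ψ.IsPrimitive → tau p ψ = ((Real.sqrt p : ℝ) : ℂ) ∨
      tau p ψ = - ((Real.sqrt p : ℝ) : ℂ) := by
    intro ψ hψ
    have h1 := tau_sq p ψ hp2 hψ
    have h2 : ch p (-1) = 1 := by simp [ch, quadraticChar_neg_one_one p hp]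
    have h3 : ((Real.sqrt p : ℝ) : ℂ) ^ 2 = p := by
      rw [← Complex.ofReal_pow, Real.sq_sqrt (by positivity)]; simp
    rw [h2, one_mul, ← h3] at h1
    exact sq_eq_sq_iff_eq_or_eq_neg.mp h1
  rcases hsq _ h0 with h | h
  · exact ⟨_, h0, h⟩
  · obtain ⟨b, hb⟩ := exists_nonres p hp2
    have hb0 : b ≠ 0 := by rintro rfl; simp at hb
    refine ⟨AddChar.mulShift ZMod.stdAddChar b, ?_, ?_⟩
    · apply AddChar.IsPrimitive.of_ne_one
      exact h0 hb0
    · have h1 : tau p (AddChar.mulShift ZMod.stdAddChar b) = ∑ t : ZMod p, ch p t * ZMod.stdAddChar (t * b) := by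
        unfold tau
        refine Finset.sum_congr rfl fun t _ => ?_
        rw [AddChar.mulShift_apply, mul_comm b t]
      rw [h1, ch_sum_mulShift p _ b hp2, h]
      have : ch p b = -1 := by simp [ch, hb]
      rw [this]; ring

lemma fR_pos (hp : p % 4 = 1) (ψ : AddChar (ZMod p) ℂ) (hψ : ψ.IsPrimitive) :
    ∃ r : ℝ, 0 < r ∧ fR p ψ = r := by
  have hp2 : p ≠ 2 := by rintro rfl; norm_num at hp
  have hodd : p % 2 = 1 := by omega
  let φ : ZMod p → ℂ := fun t => 1 - ψ t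
  have h1 : fR p ψ = (∏ t ∈ (RR p).filter (fun t => t.val ≤ p / 2), φ t)
      * ∏ t ∈ (RR p).filter (fun t => ¬ t.val ≤ p / 2), φ t :=
    (Finset.prod_filter_mul_prod_filter_not (RR p) (fun t => t.val ≤ p / 2) φ).symm
  have hneg : ∀ t : ZMod p, quadraticChar (ZMod p) (-t) = quadraticChar (ZMod p) t := by
    intro t
    rw [← neg_one_mul, map_mul, quadraticChar_neg_one_one p hp, one_mul]
  have hval : ∀ t : ZMod p, t ≠ 0 → (-t).val = p - t.val := by
    intro t ht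
    rw [ZMod.neg_val, if_neg ht]
  have hlt : ∀ t : ZMod p, t.val < p := fun t => ZMod.val_lt t
  have h2 : ∏ t ∈ (RR p).filter (fun t => ¬ t.val ≤ p / 2), φ t
      = ∏ t ∈ (RR p).filter (fun t => t.val ≤ p / 2), φ (-t) := by
    refine Finset.prod_bij' (fun t _ => -t) (fun t _ => -t) ?_ ?_ ?_ ?_ ?_
    · intro t ht
      rw [Finset.mem_filter, mem_RR] at ht ⊢
      have ht0 : t ≠ 0 := by rintro rfl; simp at ht
      rw [hneg, hval t ht0]
      refine ⟨ht.1, ?_⟩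
      have := ht.2
      omega
    · intro t ht
      rw [Finset.mem_filter, mem_RR] at ht ⊢
      have ht0 : t ≠ 0 := by rintro rfl; simp at ht
      rw [hneg, hval t ht0]
      refine ⟨ht.1, ?_⟩
      have := ht.2
      have h3 := hlt t
      omega
    · intro t _; ring
    · intro t _; ring
    · intro t _; rw [neg_neg]
  have h3 : ∀ t : ZMod p, φ t * φ (-t) = ((‖φ t‖ ^ 2 : ℝ) : ℂ) := by
    intro t
    have h4 : φ (-t) = (starRingEnd ℂ) (φ t) := by
      simp only [φ, map_sub, map_one]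
      rw [AddChar.map_neg_eq_conj]
    rw [h4, Complex.mul_conj, Complex.normSq_eq_norm_sq]
  rw [h1, h2, ← Finset.prod_mul_distrib, Finset.prod_congr rfl fun t _ => h3 t]
  refine ⟨∏ t ∈ (RR p).filter (fun t => t.val ≤ p / 2), ‖φ t‖ ^ 2, ?_, by push_cast; rfl⟩
  refine Finset.prod_pos fun t ht => ?_
  rw [Finset.mem_filter, mem_RR] at ht
  have ht0 : t ≠ 0 := by rintro rfl; simp at ht
  have : φ t ≠ 0 := by
    simp only [φ]
    rw [sub_ne_zero]
    intro h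
    exact ht0 ((psi_eq_one_iff p ψ hψ t).mp h.symm)
  positivity

theorem residue_val (hp : p % 4 = 1) :
    ∃ ε : ℝ, IsLeast (unitsGT p) ε ∧
      dedekindZeta_residue (QS p) = 2 * (classNumber (QS p) : ℝ) * Real.log ε / Real.sqrt p := by
  obtain ⟨ε, h1, h2⟩ := regulator_QS p
  refine ⟨ε, h1, ?_⟩
  rw [dedekindZeta_residue_def, nrRealPlaces_QS, nrComplexPlaces_QS, torsionOrder_QS, discr_QS p hp, h2]
  have h3 : Real.sqrt |((p : ℤ) : ℝ)| = Real.sqrt p := by simp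
  have hs : Real.sqrt p ≠ 0 := by
    have : (0 : ℝ) < p := by exact_mod_cast (Fact.out : p.Prime).pos
    positivity
  rw [h3]
  push_cast
  field_simp

theorem cnf (hp : p % 4 = 1) :
    ∃ ψ : AddChar (ZMod p) ℂ, ψ.IsPrimitive ∧ tau p ψ = ((Real.sqrt p : ℝ) : ℂ) ∧
      ∃ ε : ℝ, IsLeast (unitsGT p) ε ∧
        fR p ψ = ((Real.sqrt p / ε ^ (classNumber (QS p)) : ℝ) : ℂ) := by
  have hp2 : p ≠ 2 := by rintro rfl; norm_num at hp
  obtain ⟨ψ, hψ, hτ⟩ := exists_psi p hp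
  obtain ⟨r, hr, hfr⟩ := fR_pos p hp ψ hψ
  obtain ⟨ε, hε, hres⟩ := residue_val p hp
  refine ⟨ψ, hψ, hτ, ε, hε, ?_⟩
  have hp0 : (0 : ℝ) < p := by exact_mod_cast (Fact.out : p.Prime).pos
  have hs : 0 < Real.sqrt p := Real.sqrt_pos.mpr hp0
  have hε1 : 1 < ε := hε.1.1
  have hfg := fR_mul_fN p ψ hp2 hψ
  have hgn : ‖fN p ψ‖ = p / r := by
    have h1 := congrArg norm hfg
    rw [norm_mul, hfr, Complex.norm_real, Real.norm_of_nonneg hr.le] at h1
    rw [eq_div_iff hr.ne', mul_comm, h1]; simp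
  have hfn : ‖fR p ψ‖ = r := by rw [hfr, Complex.norm_real, Real.norm_of_nonneg hr.le]
  -- the sum
  have hlogprod : ∀ S : Finset (ZMod p), (0 : ZMod p) ∉ S →
      Real.log ‖∏ t ∈ S, (1 - ψ t)‖ = ∑ t ∈ S, Real.log ‖1 - ψ t‖ := by
    intro S hS
    rw [norm_prod, Real.log_prod]
    intro t ht
    have ht0 : t ≠ 0 := by rintro rfl; exact hS ht
    rw [norm_ne_zero_iff, sub_ne_zero]
    intro h
    exact ht0 ((psi_eq_one_iff p ψ hψ t).mp h.symm)
  have hsum : ∑ t : ZMod p, ch p t * ((Real.log ‖1 - ψ t‖ : ℝ) : ℂ)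
      = ((Real.log r - Real.log (p / r) : ℝ) : ℂ) := by
    have h1 : ∀ t : ZMod p, ch p t * ((Real.log ‖1 - ψ t‖ : ℝ) : ℂ)
        = (if quadraticChar (ZMod p) t = 1 then ((Real.log ‖1 - ψ t‖ : ℝ) : ℂ) else 0)
          - (if quadraticChar (ZMod p) t = -1 then ((Real.log ‖1 - ψ t‖ : ℝ) : ℂ) else 0) := by
      intro t
      unfold ch
      by_cases ht : t = 0
      · subst ht; simp
      · rcases quadraticChar_dichotomy ht with h | h <;> rw [h] <;> norm_num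
    rw [Finset.sum_congr rfl fun t _ => h1 t, Finset.sum_sub_distrib, ← Finset.sum_filter,
      ← Finset.sum_filter, ← Complex.ofReal_sum, ← Complex.ofReal_sum, ← Complex.ofReal_sub]
    congr 2
    · rw [← hfn]
      exact (hlogprod _ (by simp)).symm
    · rw [← hgn]
      exact (hlogprod _ (by simp)).symm
  have hL := LV.Lval p hp ψ hψ
  rw [hsum, ← residue_eq_L p hp, hτ, hres, ← Complex.ofReal_mul, ← Complex.ofReal_neg] at hL
  have hL' := Complex.ofReal_injective hL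
  have h5 : 2 * (classNumber (QS p) : ℝ) * Real.log ε = - (Real.log r - Real.log (p / r)) := by
    rw [← hL']; field_simp
  rw [Real.log_div hp0.ne' hr.ne'] at h5
  have h6 : Real.log r = Real.log (Real.sqrt p / ε ^ (classNumber (QS p))) := by
    rw [Real.log_div hs.ne' (by positivity), Real.log_pow, Real.log_sqrt hp0.le]
    linarith
  rw [hfr]
  congr 1
  exact Real.log_injOn_pos (Set.mem_Ioi.mpr hr) (Set.mem_Ioi.mpr (by positivity)) h6

/-- The unit `E = ε^h` has the form `a + b √p` and norm `-1`. -/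
theorem unit_form (hp : p % 4 = 1) (ψ : AddChar (ZMod p) ℂ) (hψ : ψ.IsPrimitive)
    (hτ : tau p ψ = ((Real.sqrt p : ℝ) : ℂ)) (ε : ℝ) (hε : IsLeast (unitsGT p) ε)
    (hf : fR p ψ = ((Real.sqrt p / ε ^ (classNumber (QS p)) : ℝ) : ℂ)) :
    ∃ a b : ℚ, (∃ m : ℤ, 2 * a = m) ∧ (∃ m : ℤ, 2 * b = m) ∧
      ε ^ (classNumber (QS p)) = a + b * Real.sqrt p ∧
      (a + b * Real.sqrt p) * (- a + b * Real.sqrt p : ℝ) = 1 := by
  have hp2 : p ≠ 2 := by rintro rfl; norm_num at hp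
  obtain ⟨hε1, η, hη⟩ := hε.1
  have hs2 : Real.sqrt (p : ℝ) * Real.sqrt p = p := sqrt_sq' p
  have hp0 : (0 : ℝ) < p := by exact_mod_cast (Fact.out : p.Prime).pos
  have hs : 0 < Real.sqrt p := Real.sqrt_pos.mpr hp0
  -- norm form is integral
  have key : ∀ u : 𝓞 (QS p), ∃ a b : ℚ, (∃ m : ℤ, 2 * a = m) ∧ (∃ m : ℤ, 2 * b = m) ∧
      ((u : QS p) : ℝ) = a + b * Real.sqrt p ∧ ∃ N : ℤ, a ^ 2 - p * b ^ 2 = N := by
    intro u
    obtain ⟨m, n, hmn, hu⟩ := integers_form p hp u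
    refine ⟨m / 2, n / 2, ⟨m, by ring⟩, ⟨n, by ring⟩, ?_, ?_⟩
    · rw [hu]; push_cast; ring
    · have h4 : (4 : ℤ) ∣ m ^ 2 - p * n ^ 2 := by
        have hp4 : (p : ℤ) % 4 = 1 := by exact_mod_cast hp
        obtain ⟨c, hc⟩ : ∃ c, m = n + 2 * c := ⟨(m - n) / 2, by omega⟩
        obtain ⟨d, hd⟩ : ∃ d : ℤ, (p : ℤ) = 4 * d + 1 := ⟨p / 4, by omega⟩
        rw [hc, hd]
        exact ⟨n * c + c ^ 2 - d * n ^ 2, by ring⟩
      obtain ⟨N, hN⟩ := h4
      refine ⟨N, ?_⟩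
      have hN' : (m : ℚ) ^ 2 - p * n ^ 2 = 4 * N := by exact_mod_cast hN
      linarith
  set h := classNumber (QS p) with hh
  obtain ⟨a, b, ha, hb, hE, N, hN⟩ := key ((η ^ h : (𝓞 (QS p))ˣ) : 𝓞 (QS p))
  obtain ⟨a', b', _, _, hE', N', hN'⟩ := key (((η ^ h)⁻¹ : (𝓞 (QS p))ˣ) : 𝓞 (QS p))
  have hEε : ε ^ h = a + b * Real.sqrt p := by
    rw [← hE, ← hη]
    simp
  have hprod : (a + b * Real.sqrt p) * (a' + b' * Real.sqrt p) = 1 := by
    rw [← hE, ← hE']
    have h1 : ((((η ^ h : (𝓞 (QS p))ˣ) : 𝓞 (QS p)) : QS p)) * (((((η ^ h)⁻¹ : (𝓞 (QS p))ˣ) : 𝓞 (QS p)) : QS p)) = 1 := by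
      rw [← map_mul, Units.mul_inv, map_one]
    have h2 := congrArg (fun z : QS p => (z : ℝ)) h1
    simp
  have hrel : ((a * a' + p * (b * b') - 1 : ℚ) : ℝ) + ((a * b' + b * a' : ℚ) : ℝ) * Real.sqrt p = 0 := by
    push_cast
    linear_combination hprod - (b * b' : ℝ) * hs2
  obtain ⟨hr1, hr2⟩ := rat_ind p hrel
  have hNN : (N : ℚ) * N' = 1 := by
    rw [← hN, ← hN']
    have h1 : a * a' + p * (b * b') = 1 := by linear_combination hr1
    linear_combination (a * a' + p * (b * b') + 1) * h1 - (p : ℚ) * (a * b' + b * a') * hr2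
  have hNN' : N * N' = 1 := by exact_mod_cast hNN
  refine ⟨a, b, ha, hb, hEε, ?_⟩
  rcases Int.eq_one_or_neg_one_of_mul_eq_one hNN' with h1 | h1
  · -- impossible
    exfalso
    rw [h1] at hN
    have hNr : (a : ℝ) ^ 2 - p * (b : ℝ) ^ 2 = 1 := by exact_mod_cast hN
    have hf2 : fR p ψ = ((-(p : ℚ) * b : ℚ) : ℂ) + ((a : ℚ) : ℂ) * tau p ψ := by
      rw [hf, hτ, hEε]
      have h3 : Real.sqrt p / (a + b * Real.sqrt p) = -(p : ℝ) * b + a * Real.sqrt p := by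
        have h4 : (a : ℝ) + b * Real.sqrt p ≠ 0 := by
          rw [← hEε]; positivity
        rw [div_eq_iff h4]
        linear_combination (-Real.sqrt p) * hNr - (a * b : ℝ) * hs2 
      rw [h3]
      push_cast
      ring
    have hg2 := galois_conj p ψ hp2 hψ _ _ hf2
    have hfg := fR_mul_fN p ψ hp2 hψ
    rw [hf2, hg2, hτ] at hfg
    have hs2c : ((Real.sqrt p : ℝ) : ℂ) * ((Real.sqrt p : ℝ) : ℂ) = p := by
      rw [← Complex.ofReal_mul, hs2]; simp
    have hNc : (a : ℂ) ^ 2 - p * (b : ℂ) ^ 2 = 1 := by exact_mod_cast hN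
    have h5 : (p : ℂ) = - p := by
      push_cast at hfg
      linear_combination -hfg - (a : ℂ) ^ 2 * hs2c - (p : ℂ) * hNc
    have h6 : (p : ℂ) = 0 := by linear_combination h5 / 2
    exact (Fact.out : p.Prime).ne_zero (by exact_mod_cast h6)
  · rw [h1] at hN
    have hNr : (a : ℝ) ^ 2 - p * (b : ℝ) ^ 2 = -1 := by exact_mod_cast hN
    linear_combination (b : ℝ) ^ 2 * hs2 - hNr

end

end LegDet
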