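import Mathlib

set_option autoImplicit false

namespace LegDet
open Polynomial Finset Matrix

theorem disc_eq {n : ℕ} (x : Fin n → ℂ) :
    (∏ i, ∏ j ∈ Finset.Ioi i, (x j - x i)) ^ 2
      = (-1) ^ (n * (n - 1) / 2) * ∏ i, ∏ j ∈ Finset.univ.erase i, (x i - x j) := by
  have h := Finset.prod_prod_Ioi_mul_eq_prod_prod_off_diag (fun i j : Fin n => (x j - x i))
  have h1 : ∏ i : Fin n, ∏ j ∈ ({i}ᶜ : Finset (Fin n)), (x i - x j)
      = ∏ i, ∏ j ∈ Finset.univ.erase i, (x i - x j) := by
    refine Finset.prod_congr rfl fun i _ => ?_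
    congr 1
    ext j; simp
  rw [← h1, ← h]
  have h2 : ∀ i : Fin n, ∏ j ∈ Ioi i, ((x i - x j) * (x j - x i))
      = (-1) ^ (Ioi i).card * (∏ j ∈ Ioi i, (x j - x i)) ^ 2 := by
    intro i
    rw [← Finset.prod_pow, ← Finset.prod_const, ← Finset.prod_mul_distrib]
    exact Finset.prod_congr rfl fun j _ => by ring
  rw [Finset.prod_congr rfl fun i _ => h2 i, Finset.prod_mul_distrib, Finset.prod_pow,
    Finset.prod_pow_eq_pow_sum]
  have h3 : ∑ i : Fin n, (Ioi i).card = n * (n - 1) / 2 := by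
    simp only [Fin.card_Ioi]
    rw [← Finset.sum_range_id, Fin.sum_univ_eq_sum_range (fun i => n - 1 - i) n,
      Finset.sum_range_reflect (fun i => i) n]
  rw [h3, ← mul_assoc, ← mul_pow]
  norm_num

/-- Cauchy's determinant for the nodes `y i`, `y k`. -/
theorem cauchy_det {n : ℕ} (y : Fin n → ℂ) (hy : ∀ i k, y i + y k ≠ 0) :
    (Matrix.of fun i k : Fin n => (y i + y k)⁻¹).det
      = (∏ i, ∏ j ∈ Finset.Ioi i, (y j - y i)) ^ 2 / ∏ i, ∏ k, (y i + y k) := by
  by_cases hinj : Function.Injective y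
  swap
  · -- two equal rows
    rw [Function.not_injective_iff] at hinj
    obtain ⟨a, b, hab, hne⟩ := hinj
    have h1 : (Matrix.of fun i k : Fin n => (y i + y k)⁻¹).det = 0 := by
      apply Matrix.det_zero_of_row_eq hne
      ext k
      simp [hab]
    have h2 : (∏ i, ∏ j ∈ Finset.Ioi i, (y j - y i)) = 0 := by
      rw [← Matrix.det_vandermonde, Matrix.det_vandermonde_eq_zero_iff]
      exact ⟨a, b, hab, hne⟩
    rw [h1, h2]; simp
  let P : Fin n → ℂ[X] := fun k => ∏ l ∈ univ.erase k, (X + C (y l))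
  have hPdeg : ∀ k, (P k).natDegree < n := by
    intro k
    simp only [P]
    rw [natDegree_prod_of_monic _ _ fun i _ => monic_X_add_C _]
    simp only [natDegree_X_add_C, Finset.sum_const, smul_eq_mul, mul_one]
    rw [Finset.card_erase_of_mem (mem_univ _), Finset.card_univ, Fintype.card_fin]
    have := k.pos; omega
  let Co : Matrix (Fin n) (Fin n) ℂ := Matrix.of fun j k => (P k).coeff j
  have heval : ∀ (z : Fin n → ℂ), Matrix.vandermonde z * Co = Matrix.of fun i k => (P k).eval (z i) := by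
    intro z
    ext i k
    simp only [Matrix.mul_apply, Matrix.vandermonde_apply, Matrix.of_apply, Co]
    rw [Polynomial.eval_eq_sum_range' (hPdeg k), ← Fin.sum_univ_eq_sum_range (fun j => (P k).coeff j * z i ^ j) n]
    exact Finset.sum_congr rfl fun j _ => by ring
  have h1 := congrArg Matrix.det (heval y)
  have h2 := congrArg Matrix.det (heval (fun i => - y i))
  rw [Matrix.det_mul] at h1 h2
  have h3 : (Matrix.of fun i k => (P k).eval (- y i)) = Matrix.diagonal fun k => ∏ l ∈ univ.erase k, (y l - y k) := by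
    ext i k
    rw [Matrix.of_apply, Matrix.diagonal_apply]
    simp only [P, eval_prod, eval_add, eval_X, eval_C]
    split_ifs with hik
    · subst hik
      exact Finset.prod_congr rfl fun l _ => by ring
    · exact Finset.prod_eq_zero (i := i) (by simp [hik]) (by ring)
  rw [h3, Matrix.det_diagonal] at h2
  have h4 : (Matrix.of fun i k => (P k).eval (y i))
      = Matrix.diagonal (fun i => ∏ l, (y i + y l)) * Matrix.of fun i k : Fin n => (y i + y k)⁻¹ := by
    ext i k
    rw [Matrix.diagonal_mul]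
    simp only [Matrix.of_apply, P, eval_prod, eval_add, eval_X, eval_C]
    rw [← Finset.mul_prod_erase univ (fun l => y i + y l) (mem_univ k)]
    have := hy i k
    field_simp
  rw [h4, Matrix.det_mul, Matrix.det_diagonal] at h1
  rw [Matrix.det_vandermonde] at h1 h2
  set D := ∏ i, ∏ j ∈ Finset.Ioi i, (y j - y i) with hD
  have hDne : D ≠ 0 := by
    rw [hD, ← Matrix.det_vandermonde]; exact Matrix.det_vandermonde_ne_zero_iff.mpr hinj
  have hprod : ∏ i, ∏ k, (y i + y k) ≠ 0 :=
    Finset.prod_ne_zero_iff.mpr fun i _ => Finset.prod_ne_zero_iff.mpr fun k _ => hy i k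
  -- det of Vandermonde of -y
  have h5 : ∏ i : Fin n, ∏ j ∈ Finset.Ioi i, (- y j - - y i) = (-1) ^ (n * (n - 1) / 2) * D := by
    have : ∀ i : Fin n, ∏ j ∈ Finset.Ioi i, (- y j - - y i)
        = (-1) ^ (Ioi i).card * ∏ j ∈ Finset.Ioi i, (y j - y i) := by
      intro i
      rw [← Finset.prod_const, ← Finset.prod_mul_distrib]
      exact Finset.prod_congr rfl fun j _ => by ring
    rw [Finset.prod_congr rfl fun i _ => this i, Finset.prod_mul_distrib, Finset.prod_pow_eq_pow_sum]
    congr 2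
    simp only [Fin.card_Ioi]
    rw [← Finset.sum_range_id, Fin.sum_univ_eq_sum_range (fun i => n - 1 - i) n,
      Finset.sum_range_reflect (fun i => i) n]
  have h6 : ∏ k : Fin n, ∏ l ∈ univ.erase k, (y l - y k) = (-1) ^ (n * (n - 1) / 2) * D ^ 2 := by
    have h7 := Finset.prod_prod_Ioi_mul_eq_prod_prod_off_diag (fun i j : Fin n => (y i - y j))
    have h8 : ∏ i : Fin n, ∏ j ∈ ({i}ᶜ : Finset (Fin n)), (y j - y i)
        = ∏ i, ∏ j ∈ Finset.univ.erase i, (y j - y i) := by
      refine Finset.prod_congr rfl fun i _ => ?_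
      congr 1
      ext j; simp
    rw [← h8, ← h7]
    have h9 : ∀ i : Fin n, ∏ j ∈ Ioi i, ((y j - y i) * (y i - y j))
        = (-1) ^ (Ioi i).card * (∏ j ∈ Ioi i, (y j - y i)) ^ 2 := by
      intro i
      rw [← Finset.prod_pow, ← Finset.prod_const, ← Finset.prod_mul_distrib]
      exact Finset.prod_congr rfl fun j _ => by ring
    rw [Finset.prod_congr rfl fun i _ => h9 i, Finset.prod_mul_distrib, Finset.prod_pow,
      Finset.prod_pow_eq_pow_sum]
    congr 2
    simp only [Fin.card_Ioi]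
    rw [← Finset.sum_range_id, Fin.sum_univ_eq_sum_range (fun i => n - 1 - i) n,
      Finset.sum_range_reflect (fun i => i) n]
  rw [h5, h6] at h2
  have hs : ((-1 : ℂ)) ^ (n * (n - 1) / 2) ≠ 0 := pow_ne_zero _ (by norm_num)
  have h7 : Co.det = D := by
    have : ((-1 : ℂ)) ^ (n * (n - 1) / 2) * D * Co.det = (-1) ^ (n * (n - 1) / 2) * D * D := by
      rw [h2]; ring
    exact mul_left_cancel₀ (mul_ne_zero hs hDne) this
  rw [eq_div_iff hprod, mul_comm, ← h1, h7]; ring

end LegDet
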