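import Mathlib

set_option autoImplicit false

namespace LegDet
open Polynomial Finset

lemma nodal_coeff_pred {ι : Type*} [DecidableEq ι] (S : Finset ι) (v : ι → ℂ) (hS : S.Nonempty) :
    (∏ i ∈ S, (X - C (v i))).coeff (S.card - 1) = - ∑ i ∈ S, v i := by
  have h := Polynomial.prod_X_sub_C_coeff_card_pred S v (Finset.card_pos.mpr hS)
  exact h

/-- Lagrange interpolation sum, degree up to the number of nodes. -/
theorem lag_sum {ι : Type*} [DecidableEq ι] (S : Finset ι) (v : ι → ℂ) (hv : Set.InjOn v S) (P : ℂ[X])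
    (hP : P.natDegree ≤ S.card) (hS : S.Nonempty) :
    ∑ i ∈ S, P.eval (v i) / ∏ j ∈ S.erase i, (v i - v j)
      = P.coeff (S.card - 1) + P.coeff S.card * ∑ i ∈ S, v i := by
  set c := P.coeff S.card with hc
  set N : ℂ[X] := ∏ i ∈ S, (X - C (v i)) with hN
  have hNm : N.Monic := monic_prod_of_monic _ _ fun i _ => monic_X_sub_C _
  have hNd : N.natDegree = S.card := by
    rw [hN, natDegree_prod_of_monic _ _ fun i _ => monic_X_sub_C _]; simp
  set Q : ℂ[X] := P - C c * N with hQ
  have hQd : Q.degree < S.card := by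
    rw [Polynomial.degree_lt_iff_coeff_zero]
    intro m hm
    rcases eq_or_lt_of_le hm with h | h
    · rw [hQ, coeff_sub, coeff_C_mul, ← h]
      have : N.coeff S.card = 1 := by rw [← hNd]; exact hNm
      rw [this, hc]; ring
    · rw [hQ, coeff_sub, coeff_C_mul, coeff_eq_zero_of_natDegree_lt (lt_of_le_of_lt hP h),
        coeff_eq_zero_of_natDegree_lt (by rw [hNd]; exact h)]; ring
  have h1 := Lagrange.coeff_eq_sum hv hQd
  have h2 : ∀ i ∈ S, Q.eval (v i) = P.eval (v i) := by
    intro i hi
    rw [hQ, eval_sub, eval_mul, hN, eval_prod, Finset.prod_eq_zero hi (by simp)]; ring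
  rw [Finset.sum_congr rfl fun i hi => by rw [h2 i hi]] at h1
  rw [← h1, hQ, coeff_sub, coeff_C_mul, hN, nodal_coeff_pred S v hS]; ring

/-- one extra node `z` -/
theorem lag_one {n : ℕ} (v : Fin n → ℂ) (hv : Function.Injective v) (z : ℂ) (hz : ∀ i, v i ≠ z)
    (P : ℂ[X]) (hP : P.natDegree ≤ n + 1) :
    ∑ i, P.eval (v i) / ((v i - z) * ∏ j ∈ univ.erase i, (v i - v j)) + P.eval z / ∏ i, (z - v i)
      = P.coeff n + P.coeff (n + 1) * (z + ∑ i, v i) := by
  classical
  let w : Option (Fin n) → ℂ := fun o => o.elim z v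
  have hw : Function.Injective w := by
    intro a b h
    rcases a with _ | a <;> rcases b with _ | b
    · rfl
    · exact absurd h.symm (hz b)
    · exact absurd h (hz a)
    · exact congrArg some (hv h)
  have hcard : (univ : Finset (Option (Fin n))).card = n + 1 := by simp
  have h := lag_sum (univ : Finset (Option (Fin n))) w hw.injOn P (by rw [hcard]; exact hP)
    ⟨none, mem_univ _⟩
  rw [hcard] at h
  simp only [Nat.add_sub_cancel] at h
  rw [Fintype.sum_option, Fintype.sum_option] at h
  have e1 : ∏ j ∈ (univ : Finset (Option (Fin n))).erase none, (w none - w j) = ∏ i, (z - v i) := by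
    have : (univ : Finset (Option (Fin n))).erase none = univ.map Function.Embedding.some := by
      ext o; cases o <;> simp
    rw [this, Finset.prod_map]; rfl
  have e2 : ∀ i : Fin n, ∏ j ∈ (univ : Finset (Option (Fin n))).erase (some i), (w (some i) - w j)
      = (v i - z) * ∏ j ∈ univ.erase i, (v i - v j) := by
    intro i
    have : (univ : Finset (Option (Fin n))).erase (some i)
        = insert none ((univ.erase i).map Function.Embedding.some) := by
      ext o; cases o <;> simp
    rw [this, Finset.prod_insert (by simp), Finset.prod_map]; rfl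
  rw [e1] at h
  simp only [e2] at h
  simp only [w, Option.elim_none, Option.elim_some] at h
  rw [← h]; ring

/-- two extra nodes `z`, `z'` -/
theorem lag_two {n : ℕ} (v : Fin n → ℂ) (hv : Function.Injective v) (z z' : ℂ) (hz : ∀ i, v i ≠ z)
    (hz' : ∀ i, v i ≠ z') (hzz : z ≠ z') (P : ℂ[X]) (hP : P.natDegree ≤ n) :
    ∑ i, P.eval (v i) / ((v i - z) * (v i - z') * ∏ j ∈ univ.erase i, (v i - v j))
      + P.eval z / ((z - z') * ∏ i, (z - v i)) + P.eval z' / ((z' - z) * ∏ i, (z' - v i)) = 0 := by
  -- combine two one-node identities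
  have h1 := lag_one v hv z hz P (by omega)
  have h2 := lag_one v hv z' hz' P (by omega)
  rw [coeff_eq_zero_of_natDegree_lt (show P.natDegree < n + 1 by omega)] at h1 h2
  have hzz0 : z - z' ≠ 0 := sub_ne_zero.mpr hzz
  have key : ∀ i, P.eval (v i) / ((v i - z) * (v i - z') * ∏ j ∈ univ.erase i, (v i - v j))
      = (P.eval (v i) / ((v i - z) * ∏ j ∈ univ.erase i, (v i - v j))
        - P.eval (v i) / ((v i - z') * ∏ j ∈ univ.erase i, (v i - v j))) / (z - z') := by
    intro i
    have a1 : v i - z ≠ 0 := sub_ne_zero.mpr (hz i)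
    have a2 : v i - z' ≠ 0 := sub_ne_zero.mpr (hz' i)
    have a3 : ∏ j ∈ univ.erase i, (v i - v j) ≠ 0 := by
      apply Finset.prod_ne_zero_iff.mpr
      intro j hj
      rw [Finset.mem_erase] at hj
      exact sub_ne_zero.mpr fun h => hj.1 (hv h).symm
    field_simp
    ring
  rw [Finset.sum_congr rfl fun i _ => key i, ← Finset.sum_div, Finset.sum_sub_distrib]
  have b1 : ∏ i, (z - v i) ≠ 0 := Finset.prod_ne_zero_iff.mpr fun i _ => sub_ne_zero.mpr (hz i).symm
  have b2 : ∏ i, (z' - v i) ≠ 0 := Finset.prod_ne_zero_iff.mpr fun i _ => sub_ne_zero.mpr (hz' i).symm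
  have c1 : ∑ i, P.eval (v i) / ((v i - z) * ∏ j ∈ univ.erase i, (v i - v j))
      = P.coeff n - P.eval z / ∏ i, (z - v i) := by linear_combination h1
  have c2 : ∑ i, P.eval (v i) / ((v i - z') * ∏ j ∈ univ.erase i, (v i - v j))
      = P.coeff n - P.eval z' / ∏ i, (z' - v i) := by linear_combination h2
  rw [c1, c2]
  have : z' - z ≠ 0 := sub_ne_zero.mpr hzz.symm
  field_simp
  ring

end LegDet
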