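import Mathlib
import Pool.Agent.Work.MP_29211c_nt.Lag

set_option autoImplicit false

namespace LegDet
open Polynomial Finset Matrix

lemma den_ne {n : ℕ} (v : Fin n → ℂ) (hv : Function.Injective v) (i : Fin n) :
    ∏ j ∈ univ.erase i, (v i - v j) ≠ 0 := by
  apply Finset.prod_ne_zero_iff.mpr
  intro j hj
  rw [Finset.mem_erase] at hj
  exact sub_ne_zero.mpr fun h => hj.1 (hv h).symm

/-- det (2·1 + a c cᵀ + b c' c'ᵀ) -/
lemma det_two_rank {n : ℕ} (c c' : Fin n → ℂ) (a b : ℂ) :
    ((2 : ℂ) • (1 : Matrix (Fin n) (Fin n) ℂ) + Matrix.of fun i j => a * c i * c j + b * c' i * c' j).det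
      = 2 ^ n * ((1 + a / 2 * ∑ i, c i ^ 2) * (1 + b / 2 * ∑ i, c' i ^ 2)
          - (a / 2) * (b / 2) * (∑ i, c i * c' i) ^ 2) := by
  let A : Matrix (Fin n) (Fin 2) ℂ := Matrix.of fun i k => if k = 0 then c i else c' i
  let B : Matrix (Fin 2) (Fin n) ℂ := Matrix.of fun k j => if k = 0 then a / 2 * c j else b / 2 * c' j
  have h1 : ((2 : ℂ) • (1 : Matrix (Fin n) (Fin n) ℂ) + Matrix.of fun i j => a * c i * c j + b * c' i * c' j)
      = (2 : ℂ) • (1 + A * B) := by
    ext i j
    simp only [Matrix.add_apply, Matrix.smul_apply, Matrix.of_apply, Matrix.mul_apply, A, B,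
      Fin.sum_univ_two, smul_eq_mul]
    simp
    ring
  rw [h1, Matrix.det_smul, Fintype.card_fin, Matrix.det_one_add_mul_comm, Matrix.det_fin_two]
  congr 1
  simp only [Matrix.add_apply, Matrix.mul_apply, Matrix.of_apply, A, B]
  simp only [Matrix.one_apply_eq, Matrix.one_apply, Fin.isValue]
  simp only [if_true, if_false, one_ne_zero, zero_ne_one, zero_add]
  have e1 : ∑ x, a / 2 * c x * c x = a / 2 * ∑ i, c i ^ 2 := by
    rw [Finset.mul_sum]; exact Finset.sum_congr rfl fun i _ => by ring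
  have e2 : ∑ x, b / 2 * c' x * c' x = b / 2 * ∑ i, c' i ^ 2 := by
    rw [Finset.mul_sum]; exact Finset.sum_congr rfl fun i _ => by ring
  have e3 : ∑ x, a / 2 * c x * c' x = a / 2 * ∑ i, c i * c' i := by
    rw [Finset.mul_sum]; exact Finset.sum_congr rfl fun i _ => by ring
  have e4 : ∑ x, b / 2 * c' x * c x = b / 2 * ∑ i, c i * c' i := by
    rw [Finset.mul_sum]; exact Finset.sum_congr rfl fun i _ => by ring
  rw [e1, e2, e3, e4]
  ring

/-- The determinant `det (2 V Vᵀ + a J - p E₀₀)`. -/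
theorem plus_core {n : ℕ} (v : Fin n → ℂ) (hv : Function.Injective v) (G : ℂ[X])
    (p τ f g F0 a : ℂ) (hp : p ≠ 0)
    (hG : G.natDegree = n) (hGm : G.Monic)
    (hd : ∀ i, (∏ j ∈ univ.erase i, (v i - v j)) * (v i - 1) * G.eval (v i) * v i = p)
    (hc : ∑ i, v i + G.coeff (n - 1) = τ) (hn : 0 < n)
    (hf : ∏ i, (1 - v i) = f) (hg : G.eval 1 = g) (hfg : f * g = p)
    (h0 : ∏ i, (0 - v i) = F0) (hF0 : F0 ^ 2 = 1) (hG0 : G.eval 0 = F0) :
    ((2 : ℂ) • ((Matrix.vandermonde v)ᵀ * Matrix.vandermonde v)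
        + Matrix.of fun j k : Fin n => a - p * (if (j : ℕ) + (k : ℕ) = 0 then 1 else 0)).det
      = 2 ^ n * (Matrix.vandermonde v).det ^ 2
        * (1 + a / 2 * (f ^ 2 * (1 + τ) / p - 1) - τ / 2 - a / 2 * (τ / 2) * (f ^ 2 / p - 1)) := by
  have hv1 : ∀ i, v i ≠ 1 := fun i h => by
    have := hd i; rw [h] at this; simp at this; exact hp this.symm
  have hv0 : ∀ i, v i ≠ 0 := fun i h => by
    have := hd i; rw [h] at this; simp at this; exact hp this.symm
  have hf0 : f ≠ 0 := fun h => hp (by rw [← hfg, h, zero_mul])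
  have hF00 : F0 ≠ 0 := fun h => by rw [h] at hF0; norm_num at hF0
  set d : Fin n → ℂ := fun i => ∏ j ∈ univ.erase i, (v i - v j) with hdd
  have hdne : ∀ i, d i ≠ 0 := fun i => den_ne v hv i
  let c : Fin n → ℂ := fun i => f / ((1 - v i) * d i)
  let c' : Fin n → ℂ := fun i => F0 / ((0 - v i) * d i)
  have hone : ∀ i, (1 : ℂ) - v i ≠ 0 := fun i => sub_ne_zero.mpr (hv1 i).symm
  -- V c = 1
  have hVc : ∀ j : Fin n, ∑ i, v i ^ (j : ℕ) * c i = 1 := by
    intro j
    have h := lag_one v hv 1 hv1 (X ^ (j : ℕ)) (by rw [natDegree_X_pow]; omega)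
    rw [coeff_X_pow, coeff_X_pow, if_neg (by omega), if_neg (by omega)] at h
    simp only [eval_pow, eval_X, one_pow, hf] at h
    have e : ∑ i, v i ^ (j : ℕ) * c i = - f * ∑ i, v i ^ (j : ℕ) / ((v i - 1) * d i) := by
      rw [Finset.mul_sum]
      refine Finset.sum_congr rfl fun i _ => ?_
      have := hdne i
      have h1 := hone i
      have h2 : v i - 1 ≠ 0 := sub_ne_zero.mpr (hv1 i)
      simp only [c]
      field_simp
      ring
    rw [e]
    have : ∑ i, v i ^ (j : ℕ) / ((v i - 1) * d i) = - (1 / f) := by linear_combination h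
    rw [this]; field_simp
  have hVc' : ∀ j : Fin n, ∑ i, v i ^ (j : ℕ) * c' i = if (j : ℕ) = 0 then 1 else 0 := by
    intro j
    have h := lag_one v hv 0 hv0 (X ^ (j : ℕ)) (by rw [natDegree_X_pow]; omega)
    rw [coeff_X_pow, coeff_X_pow, if_neg (by omega), if_neg (by omega)] at h
    simp only [eval_pow, eval_X, h0] at h
    have e : ∑ i, v i ^ (j : ℕ) * c' i = - F0 * ∑ i, v i ^ (j : ℕ) / ((v i - 0) * d i) := by
      rw [Finset.mul_sum]
      refine Finset.sum_congr rfl fun i _ => ?_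
      have := hdne i
      have h1 := hv0 i
      simp only [c', zero_sub, sub_zero]
      field_simp
    rw [e]
    have : ∑ i, v i ^ (j : ℕ) / ((v i - 0) * d i) = - (0 ^ (j : ℕ) / F0) := by linear_combination h
    rw [this]
    by_cases hj : (j : ℕ) = 0
    · rw [hj, if_pos rfl, pow_zero]; field_simp
    · rw [if_neg hj, zero_pow hj]; simp
  -- the three sums
  have h2' : ∀ i, v i - 1 ≠ 0 := fun i => sub_ne_zero.mpr (hv1 i)
  have hGv : ∀ i, G.eval (v i) = p / (d i * (v i - 1) * v i) := by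
    intro i
    have := hdne i
    have h2 := h2' i
    have h3 := hv0 i
    rw [eq_div_iff (mul_ne_zero (mul_ne_zero this h2) h3)]
    linear_combination hd i
  obtain ⟨m, rfl⟩ : ∃ m, n = m + 1 := ⟨n - 1, by omega⟩
  simp only [Nat.add_sub_cancel] at hc
  have hlead : G.coeff (m + 1) = 1 := by rw [← hG]; exact hGm
  have S1 : ∑ i, c i ^ 2 = f ^ 2 / p * (1 + τ - g / f) := by
    have h := lag_one v hv 1 hv1 (X * G) (by
      rw [natDegree_X_mul (hGm.ne_zero), hG])
    rw [coeff_X_mul, coeff_X_mul, hlead] at h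
    simp only [eval_mul, eval_X, hf, hg, one_mul] at h
    have e : ∑ i, c i ^ 2 = f ^ 2 / p * ∑ i, v i * G.eval (v i) / ((v i - 1) * d i) := by
      rw [Finset.mul_sum]
      refine Finset.sum_congr rfl fun i _ => ?_
      have h1 := hdne i
      have h2 := h2' i
      have h3 := hv0 i
      have h4 := hone i
      rw [hGv i]
      simp only [c]
      field_simp
      ring
    rw [e]
    congr 1
    linear_combination h + hc
  have S2 : ∑ i, c i * c' i = f * F0 / p * τ := by
    have h := lag_sum univ v hv.injOn G (by rw [hG]; simp) ⟨⟨0, by omega⟩, mem_univ _⟩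
    simp only [Finset.card_univ, Fintype.card_fin, Nat.add_sub_cancel] at h
    rw [hlead] at h
    have e : ∑ i, c i * c' i = f * F0 / p * ∑ i, G.eval (v i) / d i := by
      rw [Finset.mul_sum]
      refine Finset.sum_congr rfl fun i _ => ?_
      have h1 := hdne i
      have h2 := h2' i
      have h3 := hv0 i
      have h4 := hone i
      rw [hGv i]
      simp only [c, c', zero_sub]
      field_simp
      ring
    rw [e]
    congr 1
    linear_combination h + hc
  have S3 : ∑ i, c' i ^ 2 = τ / p := by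
    have h := lag_one v hv 0 hv0 ((X - C 1) * G) (by
      rw [natDegree_mul (X_sub_C_ne_zero 1) hGm.ne_zero, natDegree_X_sub_C, hG]; omega)
    have c1 : ((X - C 1) * G).coeff (m + 1) = G.coeff m - 1 := by
      rw [sub_mul, coeff_sub, coeff_X_mul, coeff_C_mul, hlead]; ring
    have c2 : ((X - C 1) * G).coeff (m + 1 + 1) = 1 := by
      rw [sub_mul, coeff_sub, coeff_X_mul, coeff_C_mul, hlead,
        coeff_eq_zero_of_natDegree_lt (by rw [hG]; omega)]; ring
    rw [c1, c2] at h
    simp only [eval_mul, eval_sub, eval_X, eval_C, h0, hG0] at h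
    have e : ∑ i, c' i ^ 2 = 1 / p * ∑ i, (v i - 1) * G.eval (v i) / ((v i - 0) * d i) := by
      rw [Finset.mul_sum]
      refine Finset.sum_congr rfl fun i _ => ?_
      have h1 := hdne i
      have h2 := h2' i
      have h3 := hv0 i
      rw [hGv i]
      simp only [c', zero_sub, sub_zero]
      field_simp
      rw [hF0]
    rw [e]
    have h5 : (0 - 1) * F0 / F0 = -1 := by field_simp; ring
    rw [h5] at h
    have : ∑ i, (v i - 1) * G.eval (v i) / ((v i - 0) * d i) = τ := by linear_combination h + hc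
    rw [this]; ring
  -- the matrix identity
  have hM : ((2 : ℂ) • ((Matrix.vandermonde v)ᵀ * Matrix.vandermonde v)
        + Matrix.of fun j k : Fin (m + 1) => a - p * (if (j : ℕ) + (k : ℕ) = 0 then 1 else 0))
      = (Matrix.vandermonde v)ᵀ
        * ((2 : ℂ) • (1 : Matrix (Fin (m + 1)) (Fin (m + 1)) ℂ)
            + Matrix.of fun i j => a * c i * c j + (-p) * c' i * c' j)
        * Matrix.vandermonde v := by
    rw [Matrix.mul_add, Matrix.add_mul]
    congr 1
    · rw [Matrix.mul_smul, Matrix.mul_one, Matrix.smul_mul]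
    · ext j k
      simp only [Matrix.mul_apply, Matrix.of_apply, Matrix.transpose_apply, Matrix.vandermonde_apply]
      have e1 : ∀ x, (∑ i, v i ^ (j : ℕ) * (a * c i * c x + -p * c' i * c' x)) * v x ^ (k : ℕ)
          = a * (∑ i, v i ^ (j : ℕ) * c i) * (v x ^ (k : ℕ) * c x)
            - p * (∑ i, v i ^ (j : ℕ) * c' i) * (v x ^ (k : ℕ) * c' x) := by
        intro x
        rw [Finset.mul_sum, Finset.mul_sum, Finset.sum_mul, Finset.sum_mul, Finset.sum_mul,
          ← Finset.sum_sub_distrib]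
        exact Finset.sum_congr rfl fun i _ => by ring
      rw [Finset.sum_congr rfl fun x _ => e1 x, Finset.sum_sub_distrib, ← Finset.mul_sum, ← Finset.mul_sum,
        hVc, hVc, hVc', hVc']
      by_cases hj : (j : ℕ) = 0 <;> by_cases hk : (k : ℕ) = 0 <;> simp [hj, hk]
  rw [hM, Matrix.det_mul, Matrix.det_mul, Matrix.det_transpose, det_two_rank, S1, S2, S3]
  have hgf : g = p / f := by rw [eq_div_iff hf0]; linear_combination hfg
  rw [hgf]
  field_simp
  linear_combination ((Matrix.vandermonde v).det ^ 2 * f ^ 2 * τ ^ 2 * a) * hF0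

end LegDet
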