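import Mathlib
import Pool.Agent.Work.MP_29211c_nt.Lag
import Pool.Agent.Work.MP_29211c_nt.Plus

set_option autoImplicit false

namespace LegDet
open Polynomial Finset Matrix

/-- The determinant `det (2 V V* + a J - p)`. -/
theorem minus_core {n : ℕ} (v y : Fin n → ℂ) (hv : Function.Injective v)
    (hyv : ∀ i, y i ^ 2 = v i) (hyn : ∀ i, y i * v i ^ n = 1)
    (hys : ∀ i k, y i + y k ≠ 0) (hy1 : ∀ i, y i ≠ 1) (hy1' : ∀ i, y i ≠ -1)
    (G H2 : ℂ[X]) (p f a : ℂ) (hpn : p = 2 * n + 1) (hp : p ≠ 0)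
    (hH2 : H2.natDegree ≤ n)
    (hd : ∀ i, (∏ j ∈ univ.erase i, (v i - v j)) * (v i - 1) * G.eval (v i) * v i = p)
    (hd2 : ∀ i, (∏ j ∈ univ.erase i, (y i - y j)) * (y i - 1) * H2.eval (y i) * y i = p)
    (hf : ∏ i, (1 - v i) = f) :
    ((2 : ℂ) • ((Matrix.vandermonde v)ᵀ * Matrix.vandermonde (fun i => (v i)⁻¹))
        + Matrix.of fun j k : Fin n => a - p * (if j = k then 1 else 0)).det
      = (-2) ^ n * (∏ i, y i) * (Matrix.of fun i k : Fin n => (y i + y k)⁻¹).det
        * (1 + a * f / (2 * p) * ((∏ i, (1 - y i)) / (∏ i, (1 + y i)))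
          * (H2.eval (-1) / (∏ i, (-1 - y i)) - H2.eval 1 / (∏ i, (1 - y i)))) := by
  have hyinj : Function.Injective y := by
    intro i j h
    apply hv
    rw [← hyv i, ← hyv j, h]
  have hv0 : ∀ i, v i ≠ 0 := fun i h => by
    have := hyn i; 
    have h2 := hyv i
    rw [h] at h2
    have : y i = 0 := by simpa using h2
    have h3 := hys i i
    rw [this] at h3; simp at h3
  have hy0 : ∀ i, y i ≠ 0 := fun i h => by
    have h3 := hys i i
    rw [h] at h3; simp at h3
  have hv1 : ∀ i, v i ≠ 1 := fun i h => by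
    have := hd i; rw [h] at this; simp at this; exact hp this.symm
  have hf0 : f ≠ 0 := by
    rw [← hf]; exact Finset.prod_ne_zero_iff.mpr fun i _ => sub_ne_zero.mpr (hv1 i).symm
  set d : Fin n → ℂ := fun i => ∏ j ∈ univ.erase i, (v i - v j) with hdd
  have hdne : ∀ i, d i ≠ 0 := fun i => den_ne v hv i
  set M : Fin n → ℂ := fun i => ∏ j ∈ univ.erase i, (y i - y j) with hMM
  have hMne : ∀ i, M i ≠ 0 := fun i => den_ne y hyinj i
  set N : Fin n → ℂ := fun i => ∏ j ∈ univ.erase i, (y i + y j) with hNN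
  have hNne : ∀ i, N i ≠ 0 := fun i => Finset.prod_ne_zero_iff.mpr fun j _ => hys i j
  have hdMN : ∀ i, d i = M i * N i := by
    intro i
    simp only [hdd, hMM, hNN, ← Finset.prod_mul_distrib]
    refine Finset.prod_congr rfl fun j _ => ?_
    rw [← hyv i, ← hyv j]; ring
  have hone : ∀ i, (1 : ℂ) - v i ≠ 0 := fun i => sub_ne_zero.mpr (hv1 i).symm
  have hyp : ∀ i, 1 + y i ≠ 0 := fun i h => hy1' i (by linear_combination h)
  have hym : ∀ i, y i - 1 ≠ 0 := fun i => sub_ne_zero.mpr (hy1 i)
  have hP1 : ∏ i, (1 - y i) ≠ 0 := Finset.prod_ne_zero_iff.mpr fun i _ => sub_ne_zero.mpr (hy1 i).symm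
  have hP2 : ∏ i, (1 + y i) ≠ 0 := Finset.prod_ne_zero_iff.mpr fun i _ => hyp i
  let c : Fin n → ℂ := fun i => f / ((1 - v i) * d i)
  have hVc : ∀ j : Fin n, ∑ i, v i ^ (j : ℕ) * c i = 1 := by
    intro j
    have h := lag_one v hv 1 hv1 (X ^ (j : ℕ)) (by rw [natDegree_X_pow]; omega)
    rw [coeff_X_pow, coeff_X_pow, if_neg (by omega), if_neg (by omega)] at h
    simp only [eval_pow, eval_X, one_pow, hf] at h
    have e : ∑ i, v i ^ (j : ℕ) * c i = - f * ∑ i, v i ^ (j : ℕ) / ((v i - 1) * d i) := by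
      rw [Finset.mul_sum]
      refine Finset.sum_congr rfl fun i _ => ?_
      have := hdne i
      have h1 := hone i
      have h2 : v i - 1 ≠ 0 := sub_ne_zero.mpr (hv1 i)
      simp only [c]
      field_simp
      ring
    rw [e]
    have : ∑ i, v i ^ (j : ℕ) / ((v i - 1) * d i) = - (1 / f) := by linear_combination h
    rw [this]; field_simp
  -- q
  set κ : ℂ := - (∏ i, (1 - y i)) / ∏ i, (1 + y i) with hκ
  let q : Fin n → ℂ := fun i => κ * (2 * y i * N i) / ((y i - 1) * M i)
  have hq : ∀ k, ∑ i, q i * (y i + y k)⁻¹ = 1 / (1 + y k) := by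
    intro k
    have h := lag_one y hyinj 1 hy1 (∏ l ∈ univ.erase k, (X + C (y l))) (by
      rw [natDegree_prod_of_monic _ _ fun i _ => monic_X_add_C _]
      simp only [natDegree_X_add_C, Finset.sum_const, smul_eq_mul, mul_one]
      have := Finset.card_le_univ (univ.erase k : Finset (Fin n))
      rw [Fintype.card_fin] at this; omega)
    have hdeg : (∏ l ∈ univ.erase k, (X + C (y l)) : ℂ[X]).natDegree < n := by
      rw [natDegree_prod_of_monic _ _ fun i _ => monic_X_add_C _]
      simp only [natDegree_X_add_C, Finset.sum_const, smul_eq_mul, mul_one]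
      rw [Finset.card_erase_of_mem (mem_univ _), Finset.card_univ, Fintype.card_fin]
      have := k.pos; omega
    rw [coeff_eq_zero_of_natDegree_lt hdeg, coeff_eq_zero_of_natDegree_lt (by omega)] at h
    simp only [eval_prod, eval_add, eval_X, eval_C] at h
    have hsplit : ∀ i, ∏ l ∈ univ.erase k, (y i + y l) = 2 * y i * N i * (y i + y k)⁻¹ := by
      intro i
      have h1 : (y i + y k) * ∏ l ∈ univ.erase k, (y i + y l) = ∏ l, (y i + y l) :=
        Finset.mul_prod_erase univ (fun l => y i + y l) (mem_univ k)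
      have h2 : (y i + y i) * N i = ∏ l, (y i + y l) :=
        Finset.mul_prod_erase univ (fun l => y i + y l) (mem_univ i)
      have := hys i k
      field_simp
      linear_combination h1 - h2
    have hsplit1 : ∏ l ∈ univ.erase k, (1 + y l) = (∏ l, (1 + y l)) * (1 + y k)⁻¹ := by
      have h1 : (1 + y k) * ∏ l ∈ univ.erase k, (1 + y l) = ∏ l, (1 + y l) :=
        Finset.mul_prod_erase univ (fun l => 1 + y l) (mem_univ k)
      have := hyp k
      field_simp
      linear_combination h1
    rw [hsplit1] at h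
    simp only [hsplit] at h
    have e : ∑ i, q i * (y i + y k)⁻¹
        = κ * ∑ i, 2 * y i * N i * (y i + y k)⁻¹ / ((y i - 1) * ∏ j ∈ univ.erase i, (y i - y j)) := by
      rw [Finset.mul_sum]
      refine Finset.sum_congr rfl fun i _ => ?_
      simp only [q, hMM]
      ring
    rw [e]
    have h3 : ∑ i, 2 * y i * N i * (y i + y k)⁻¹ / ((y i - 1) * ∏ j ∈ univ.erase i, (y i - y j))
        = - ((∏ l, (1 + y l)) * (1 + y k)⁻¹ / ∏ i, (1 - y i)) := by linear_combination h
    rw [h3, hκ]
    have := hyp k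
    field_simp
  -- sum of q c / v
  have hsum : ∑ i, q i * c i / v i
      = - (f / p) * κ * (H2.eval (-1) / (∏ i, (-1 - y i)) - H2.eval 1 / (∏ i, (1 - y i))) := by
    have h := lag_two y hyinj 1 (-1) hy1 hy1' (by norm_num) H2 hH2
    have e : ∑ i, q i * c i / v i
        = - (f / p) * κ * (2 * ∑ i, H2.eval (y i) / ((y i - 1) * (y i - -1) * ∏ j ∈ univ.erase i, (y i - y j))) := by
      rw [Finset.mul_sum, Finset.mul_sum]
      refine Finset.sum_congr rfl fun i _ => ?_
      have h1 := hMne i
      have h2 := hNne i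
      have h3 := hy0 i
      have h4 := hym i
      have h5 := hyp i
      have h6 : y i - -1 ≠ 0 := by intro h; exact h5 (by linear_combination h)
      have hH : H2.eval (y i) = p / (M i * (y i - 1) * y i) := by
        rw [eq_div_iff (mul_ne_zero (mul_ne_zero h1 h4) h3)]
        linear_combination hd2 i
      have h7 : 1 - y i ^ 2 ≠ 0 := by
        have : (1 : ℂ) - y i ^ 2 = - ((y i - 1) * (1 + y i)) := by ring
        rw [this]; exact neg_ne_zero.mpr (mul_ne_zero h4 h5)
      change q i * (f / ((1 - v i) * d i)) / v i = _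
      rw [hH, hdMN i, ← hyv i]
      change κ * (2 * y i * N i) / ((y i - 1) * M i) * _ / _ = - (f / p) * κ * (2 * (_ / (_ * _ * M i)))
      field_simp
      ring
    rw [e]
    have h3 : ∑ i, H2.eval (y i) / ((y i - 1) * (y i - -1) * ∏ j ∈ univ.erase i, (y i - y j))
      = - (H2.eval 1 / ((1 - -1) * ∏ i, (1 - y i)) + H2.eval (-1) / ((-1 - 1) * ∏ i, (-1 - y i))) := by
      linear_combination h
    rw [h3]
    have hP3 : ∏ i, (-1 - y i) ≠ 0 := Finset.prod_ne_zero_iff.mpr fun i _ h => hyp i (by linear_combination -h)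
    have : (1 : ℂ) - -1 ≠ 0 := by norm_num
    have : (-1 : ℂ) - 1 ≠ 0 := by norm_num
    field_simp
    ring
  -- the conjugation
  have hVne : (Matrix.vandermonde v).det ≠ 0 := Matrix.det_vandermonde_ne_zero_iff.mpr hv
  set A := ((2 : ℂ) • ((Matrix.vandermonde v)ᵀ * Matrix.vandermonde (fun i => (v i)⁻¹))
        + Matrix.of fun j k : Fin n => a - p * (if j = k then 1 else 0)) with hA
  let B : Matrix (Fin n) (Fin n) ℂ :=
    Matrix.of fun i k => -2 * v i / (y k * (y i + y k)) - a * c i / (y k * (1 + y k))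
  have hgeom : ∀ k, ∑ j : Fin n, v k ^ (j : ℕ) = - 1 / (y k * (1 + y k)) := by
    intro k
    rw [Fin.sum_univ_eq_sum_range (fun j => v k ^ j) n, geom_sum_eq (hv1 k)]
    have h1 := hyn k
    have h2 := hyp k
    have h3 := hy0 k
    have h4 : v k - 1 ≠ 0 := sub_ne_zero.mpr (hv1 k)
    have h5 : v k ^ n = 1 / y k := by rw [eq_div_iff h3]; linear_combination h1
    rw [h5]
    rw [div_eq_div_iff h4 (mul_ne_zero h3 h2), ← hyv k]
    field_simp
    ring
  have hgeom2 : ∀ i k, ∑ j : Fin n, (v i)⁻¹ ^ (j : ℕ) * v k ^ (j : ℕ)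
      = - v i / (y k * (y i + y k)) + (if i = k then p / 2 else 0) := by
    intro i k
    by_cases hik : i = k
    · subst hik
      rw [if_pos rfl]
      have h1 : ∀ j : Fin n, (v i)⁻¹ ^ (j : ℕ) * v i ^ (j : ℕ) = 1 := fun j => by
        rw [← mul_pow, inv_mul_cancel₀ (hv0 i), one_pow]
      rw [Finset.sum_congr rfl fun j _ => h1 j]
      simp only [Finset.sum_const, Finset.card_univ, Fintype.card_fin, nsmul_eq_mul, mul_one]
      have h3 := hy0 i
      rw [hpn, ← hyv i]
      have : y i + y i = 2 * y i := by ring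
      rw [this]
      field_simp
      ring
    · rw [if_neg hik, add_zero]
      have h1 : ∀ j : Fin n, (v i)⁻¹ ^ (j : ℕ) * v k ^ (j : ℕ) = (v k / v i) ^ (j : ℕ) := fun j => by
        rw [← mul_pow, mul_comm, div_eq_mul_inv]
      rw [Finset.sum_congr rfl fun j _ => h1 j, Fin.sum_univ_eq_sum_range (fun j => (v k / v i) ^ j) n]
      have hne : v k / v i ≠ 1 := by
        intro h
        rw [div_eq_one_iff_eq (hv0 i)] at h
        exact hik (hv h.symm)
      rw [geom_sum_eq hne, div_pow]
      have h3 := hy0 i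
      have h4 := hy0 k
      have h5 : v k ^ n = 1 / y k := by rw [eq_div_iff h4]; linear_combination hyn k
      have h6 : v i ^ n = 1 / y i := by rw [eq_div_iff h3]; linear_combination hyn i
      rw [h5, h6]
      have h7 : v k / v i - 1 ≠ 0 := sub_ne_zero.mpr hne
      have h8 := hys i k
      rw [div_eq_div_iff h7 (mul_ne_zero h4 h8), ← hyv k, ← hyv i]
      field_simp
      ring
  have hAB : A * (Matrix.vandermonde v)ᵀ = (Matrix.vandermonde v)ᵀ * B := by
    have e1 : A * (Matrix.vandermonde v)ᵀ = (2 : ℂ) • ((Matrix.vandermonde v)ᵀ *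
        (Matrix.vandermonde (fun i => (v i)⁻¹) * (Matrix.vandermonde v)ᵀ))
        + (Matrix.of fun j k : Fin n => a - p * (if j = k then 1 else 0)) * (Matrix.vandermonde v)ᵀ := by
      rw [hA, Matrix.add_mul, Matrix.smul_mul, Matrix.mul_assoc]
    rw [e1]
    ext j k
    simp only [Matrix.add_apply, Matrix.smul_apply, Matrix.mul_apply, Matrix.of_apply,
      Matrix.transpose_apply, Matrix.vandermonde_apply, hgeom2, B]
    have e2 : ∑ x, (a - p * (if j = x then 1 else 0)) * v k ^ (x : ℕ)
        = a * (- 1 / (y k * (1 + y k))) - p * v k ^ (j : ℕ) := by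
      rw [← hgeom k, Finset.mul_sum]
      have : ∀ x : Fin n, (a - p * (if j = x then 1 else 0)) * v k ^ (x : ℕ)
          = a * v k ^ (x : ℕ) - (if j = x then p * v k ^ (x : ℕ) else 0) := by
        intro x; split_ifs <;> ring
      rw [Finset.sum_congr rfl fun x _ => this x, Finset.sum_sub_distrib]
      simp
    rw [e2]
    have e3 : ∑ x, v x ^ (j : ℕ) * (- v x / (y k * (y x + y k)) + (if x = k then p / 2 else 0))
        = ∑ x, v x ^ (j : ℕ) * (- v x / (y k * (y x + y k))) + p / 2 * v k ^ (j : ℕ) := by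
      have : ∀ x : Fin n, v x ^ (j : ℕ) * (- v x / (y k * (y x + y k)) + (if x = k then p / 2 else 0))
          = v x ^ (j : ℕ) * (- v x / (y k * (y x + y k))) + (if x = k then p / 2 * v x ^ (j : ℕ) else 0) := by
        intro x; split_ifs <;> ring
      rw [Finset.sum_congr rfl fun x _ => this x, Finset.sum_add_distrib]
      simp
    rw [e3]
    have e4 : ∑ x, v x ^ (j : ℕ) * (-2 * v x / (y k * (y x + y k)) - a * c x / (y k * (1 + y k)))
        = 2 * ∑ x, v x ^ (j : ℕ) * (- v x / (y k * (y x + y k)))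
          - a / (y k * (1 + y k)) * ∑ x, v x ^ (j : ℕ) * c x := by
      rw [Finset.mul_sum, Finset.mul_sum, ← Finset.sum_sub_distrib]
      exact Finset.sum_congr rfl fun x _ => by ring
    rw [e4, hVc]
    rw [smul_eq_mul]
    ring
  have hdetAB : A.det = B.det := by
    have := congrArg Matrix.det hAB
    rw [Matrix.det_mul, Matrix.det_mul, Matrix.det_transpose, mul_comm] at this
    exact mul_left_cancel₀ hVne this
  rw [hdetAB]
  -- factor B
  have hB : B = (Matrix.of fun i j : Fin n => -2 * (v i * (if i = j then 1 else 0)) - a * c i * q j)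
      * (Matrix.of fun i k : Fin n => (y i + y k)⁻¹) * Matrix.diagonal (fun k => (y k)⁻¹) := by
    ext i k
    rw [Matrix.mul_diagonal]
    simp only [Matrix.mul_apply, Matrix.of_apply, B]
    have e1 : ∑ x, (-2 * (v i * (if i = x then 1 else 0)) - a * c i * q x) * (y x + y k)⁻¹
        = -2 * v i * (y i + y k)⁻¹ - a * c i * ∑ x, q x * (y x + y k)⁻¹ := by
      rw [Finset.mul_sum]
      have : ∀ x, (-2 * (v i * (if i = x then 1 else 0)) - a * c i * q x) * (y x + y k)⁻¹
          = (if i = x then -2 * v i * (y x + y k)⁻¹ else 0) - a * c i * (q x * (y x + y k)⁻¹) := by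
        intro x; split_ifs <;> ring
      rw [Finset.sum_congr rfl fun x _ => this x, Finset.sum_sub_distrib]
      simp
    rw [e1, hq k]
    have h1 := hy0 k
    have h2 := hyp k
    have h3 := hys i k
    field_simp
  rw [hB, Matrix.det_mul, Matrix.det_mul, Matrix.det_diagonal]
  have hfac : (Matrix.of fun i j : Fin n => -2 * (v i * (if i = j then 1 else 0)) - a * c i * q j)
      = Matrix.diagonal (fun i => -2 * v i)
        * (1 + Matrix.replicateCol Unit (fun i => a / 2 * (c i / v i)) * Matrix.replicateRow Unit q) := by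
    ext i j
    rw [Matrix.diagonal_mul]
    simp only [Matrix.of_apply, Matrix.add_apply, Matrix.mul_apply, Matrix.replicateCol_apply,
      Matrix.replicateRow_apply, Finset.univ_unique, Finset.sum_singleton, Matrix.one_apply]
    have h1 := hv0 i
    split_ifs
    · field_simp; ring
    · field_simp; ring
  rw [hfac, Matrix.det_mul, Matrix.det_diagonal, Matrix.det_one_add_replicateCol_mul_replicateRow]
  have hdot : q ⬝ᵥ (fun i => a / 2 * (c i / v i)) = a / 2 * ∑ i, q i * c i / v i := by
    simp only [dotProduct]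
    rw [Finset.mul_sum]
    exact Finset.sum_congr rfl fun i _ => by ring
  rw [hdot, hsum, Finset.prod_mul_distrib, Finset.prod_const, Finset.card_univ, Fintype.card_fin,
    Finset.prod_inv_distrib]
  have hprodv : ∏ i, v i = (∏ i, y i) ^ 2 := by
    rw [← Finset.prod_pow]; exact Finset.prod_congr rfl fun i _ => (hyv i).symm
  have hprody : ∏ i, y i ≠ 0 := Finset.prod_ne_zero_iff.mpr fun i _ => hy0 i
  rw [hprodv, hκ]
  field_simp

end LegDet
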