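import Mathlib
import Pool.Agent.Work.MP_29211c_nt.Defs
import Pool.Agent.Work.MP_29211c_nt.Residues
import Pool.Agent.Work.MP_29211c_nt.Lag
import Pool.Agent.Work.MP_29211c_nt.Plus
import Pool.Agent.Work.MP_29211c_nt.Minus
import Pool.Agent.Work.MP_29211c_nt.CauchyDet

set_option autoImplicit false

namespace LegDet
open Polynomial Finset Matrix

/-- quadratic residues / nonresidues -/
noncomputable abbrev RQ (p : ℕ) [Fact p.Prime] : Finset (ZMod p) :=
  Finset.univ.filter (fun t : ZMod p => quadraticChar (ZMod p) t = 1)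
noncomputable abbrev NQ (p : ℕ) [Fact p.Prime] : Finset (ZMod p) :=
  Finset.univ.filter (fun t : ZMod p => quadraticChar (ZMod p) t = -1)

section basics
variable (p : ℕ) [Fact p.Prime]

lemma qc_cases (t : ZMod p) : quadraticChar (ZMod p) t = 0 ∧ t = 0 ∨
    quadraticChar (ZMod p) t = 1 ∧ t ≠ 0 ∨ quadraticChar (ZMod p) t = -1 ∧ t ≠ 0 := by
  by_cases h : t = 0
  · left; exact ⟨by rw [h]; simp, h⟩
  · right
    rcases quadraticChar_dichotomy h with h1 | h1
    · left; exact ⟨h1, h⟩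
    · right; exact ⟨h1, h⟩

lemma two_ne (hp : p ≠ 2) : (2 : ZMod p) ≠ 0 := by
  intro h
  have : ((2 : ℕ) : ZMod p) = 0 := by exact_mod_cast h
  rw [ZMod.natCast_eq_zero_iff] at this
  have h2 := (Nat.prime_dvd_prime_iff_eq (Fact.out) Nat.prime_two).mp this
  exact hp h2

lemma card_RQ (hp : p ≠ 2) : (RQ p).card = (p - 1) / 2 ∧ (NQ p).card = (p - 1) / 2 := by
  have hodd : p % 2 = 1 := (Nat.Prime.eq_two_or_odd (Fact.out)).resolve_left hp
  have hsum := quadraticChar_sum_zero (F := ZMod p) (by rw [ZMod.ringChar_zmod_n]; exact hp)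
  have h1 : ∑ a : ZMod p, quadraticChar (ZMod p) a = (RQ p).card - (NQ p).card := by
    have : ∀ a : ZMod p, quadraticChar (ZMod p) a
        = (if quadraticChar (ZMod p) a = 1 then 1 else 0) - (if quadraticChar (ZMod p) a = -1 then 1 else 0) := by
      intro a
      rcases qc_cases p a with h | h | h <;> rw [h.1] <;> norm_num
    rw [Finset.sum_congr rfl fun a _ => this a, Finset.sum_sub_distrib, Finset.sum_boole, Finset.sum_boole]
  have h2 : (RQ p).card + (NQ p).card + 1 = p := by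
    have h3 : (Finset.univ : Finset (ZMod p)) = (RQ p ∪ NQ p) ∪ {0} := by
      ext t
      simp only [Finset.mem_univ, Finset.mem_union, Finset.mem_filter, true_and, Finset.mem_singleton, true_iff]
      rcases qc_cases p t with h | h | h
      · right; exact h.2
      · left; left; exact h.1
      · left; right; exact h.1
    have h4 := congrArg Finset.card h3
    rw [Finset.card_univ, ZMod.card, Finset.card_union_of_disjoint, Finset.card_union_of_disjoint,
      Finset.card_singleton] at h4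
    · exact h4.symm
    · rw [Finset.disjoint_left]
      intro t ht ht'
      simp only [Finset.mem_filter, Finset.mem_univ, true_and] at ht ht'
      rw [ht] at ht'; norm_num at ht'
    · rw [Finset.disjoint_left]
      intro t ht ht'
      simp only [Finset.mem_union, Finset.mem_filter, Finset.mem_univ, true_and, Finset.mem_singleton] at ht ht'
      rw [ht'] at ht; simp at ht
  omega

/-- enumeration of the residues -/
noncomputable def eR (hp : p ≠ 2) : Fin ((p - 1) / 2) ≃ {t // t ∈ RQ p} :=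
  ((Fintype.equivFinOfCardEq (by rw [Fintype.card_coe]; exact (card_RQ p hp).1))).symm

lemma prod_eR (hp : p ≠ 2) (φ : ZMod p → ℂ) : ∏ i, φ (eR p hp i).1 = ∏ t ∈ RQ p, φ t := by
  rw [Equiv.prod_comp (eR p hp) (fun t => φ t.1)]
  exact Finset.prod_coe_sort (RQ p) φ

lemma sum_eR (hp : p ≠ 2) (φ : ZMod p → ℂ) : ∑ i, φ (eR p hp i).1 = ∑ t ∈ RQ p, φ t := by
  rw [Equiv.sum_comp (eR p hp) (fun t => φ t.1)]
  exact Finset.sum_coe_sort (RQ p) φ

lemma prod_erase_eR (hp : p ≠ 2) (i : Fin ((p - 1) / 2)) (φ : ZMod p → ℂ) :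
    ∏ j ∈ univ.erase i, φ (eR p hp j).1 = ∏ t ∈ (RQ p).erase (eR p hp i).1, φ t := by
  have h : (RQ p).erase (eR p hp i).1
      = (univ.erase i).map ⟨fun j => (eR p hp j).1, fun a b h => (eR p hp).injective (Subtype.ext h)⟩ := by
    ext t
    simp only [Finset.mem_erase, Finset.mem_map, Finset.mem_univ, and_true, Function.Embedding.coeFn_mk]
    constructor
    · rintro ⟨h1, h2⟩
      refine ⟨(eR p hp).symm ⟨t, h2⟩, ?_, by simp⟩
      intro h3
      apply h1
      rw [← h3]; simp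
    · rintro ⟨j, hj, rfl⟩
      refine ⟨fun h => hj ((eR p hp).injective (Subtype.ext h)), (eR p hp j).2⟩
  rw [h, Finset.prod_map]; rfl

variable (ψ : AddChar (ZMod p) ℂ)

lemma psi_inj (hψ : ψ.IsPrimitive) : Function.Injective ψ := by
  intro a b h
  by_contra hne
  have hab : a - b ≠ 0 := sub_ne_zero.mpr hne
  have h1 : ψ (a - b) = 1 := by
    rw [AddChar.map_sub_eq_div, h, div_self]
    intro h0
    have := ψ.map_zero_eq_one
    have h2 : ψ b * ψ (-b) = 1 := by rw [← AddChar.map_add_eq_mul]; simp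
    rw [h0, zero_mul] at h2; exact zero_ne_one h2
  apply hψ hab
  ext x
  rw [AddChar.mulShift_apply, AddChar.one_apply]
  -- ψ((a-b) * x) = ψ(a-b)^x
  have : (a - b) * x = x.val • (a - b) := by
    rw [nsmul_eq_mul, ZMod.natCast_val, ZMod.cast_id, mul_comm]
  rw [this, AddChar.map_nsmul_eq_pow, h1, one_pow]

lemma psi_ne_one (hψ : ψ.IsPrimitive) {t : ZMod p} (ht : t ≠ 0) : ψ t ≠ 1 := by
  intro h
  apply ht
  apply psi_inj p ψ hψ
  rw [h, ψ.map_zero_eq_one]

lemma psi_ne_zero (t : ZMod p) : ψ t ≠ 0 := by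
  intro h0
  have h2 : ψ t * ψ (-t) = 1 := by rw [← AddChar.map_add_eq_mul]; simp
  rw [h0, zero_mul] at h2; exact zero_ne_one h2

lemma prod_psi (S : Finset (ZMod p)) : ∏ t ∈ S, ψ t = ψ (∑ t ∈ S, t) := by
  induction S using Finset.induction_on with
  | empty => simp
  | insert a S ha ih => rw [Finset.prod_insert ha, Finset.sum_insert ha, AddChar.map_add_eq_mul, ih]

lemma sum_NQ_zero (hp : 3 < p) : ∑ t ∈ NQ p, t = 0 := by
  have hp2 : p ≠ 2 := by omega
  have h1 : ∑ t : ZMod p, t = 0 := by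
    have h2 : ∑ t : ZMod p, t = ∑ t : ZMod p, 2 * t :=
      (Equiv.sum_comp (Equiv.mulLeft₀ (2 : ZMod p) (two_ne p hp2)) (fun t => t)).symm
    rw [← Finset.mul_sum] at h2
    linear_combination -h2
  have h3 : ∑ t : ZMod p, t = ∑ t ∈ RQ p, t + ∑ t ∈ NQ p, t := by
    rw [Finset.sum_filter, Finset.sum_filter, ← Finset.sum_add_distrib]
    refine Finset.sum_congr rfl fun t _ => ?_
    rcases qc_cases p t with h | h | h
    · rw [h.1, h.2]; simp
    · rw [h.1]; norm_num
    · rw [h.1]; norm_num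
  rw [sum_residues_zero p hp, zero_add] at h3
  rw [← h3, h1]

/-- ∏_{t ≠ r} (ψ r - ψ t) * ψ r = p -/
lemma prod_all (hp : p ≠ 2) (hψ : ψ.IsPrimitive) (r : ZMod p) :
    (∏ t ∈ univ.erase r, (ψ r - ψ t)) * ψ r = p := by
  have h1 : ∀ t ∈ univ.erase r, ψ r - ψ t = ψ r * (1 - ψ (t - r)) := by
    intro t _
    rw [AddChar.map_sub_eq_div]
    have := psi_ne_zero p ψ r
    field_simp
  rw [Finset.prod_congr rfl h1, Finset.prod_mul_distrib, Finset.prod_const,
    Finset.card_erase_of_mem (mem_univ _), Finset.card_univ, ZMod.card]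
  have h2 : ∏ t ∈ univ.erase r, (1 - ψ (t - r)) = p := by
    rw [← fR_mul_fN p ψ hp hψ]
    unfold fR fN
    rw [← Finset.prod_union]
    · refine Finset.prod_bij (fun t _ => t - r) ?_ ?_ ?_ ?_
      · intro t ht
        rw [Finset.mem_erase] at ht
        have : t - r ≠ 0 := sub_ne_zero.mpr ht.1
        simp only [Finset.mem_union, Finset.mem_filter, Finset.mem_univ, true_and]
        exact quadraticChar_dichotomy this
      · intro a _ b _ h; exact sub_left_injective h
      · intro b hb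
        refine ⟨b + r, ?_, by ring⟩
        simp only [Finset.mem_erase, Finset.mem_univ, and_true]
        intro h
        have : b = 0 := by linear_combination h
        rw [this] at hb; simp at hb
      · intro t _; rfl
    · rw [Finset.disjoint_left]
      intro t ht ht'
      simp only [Finset.mem_filter, Finset.mem_univ, true_and] at ht ht'
      rw [ht] at ht'; norm_num at ht'
  rw [h2]
  have h3 : ψ r ^ (p - 1) * ψ r = 1 := by
    rw [← pow_succ, show p - 1 + 1 = p from Nat.sub_add_cancel (Fact.out : p.Prime).one_lt.le,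
      ← AddChar.map_nsmul_eq_pow]
    simp
  linear_combination (p : ℂ) * h3

/-- splitting for a residue (or nonresidue) class -/
lemma prod_split (hp : p ≠ 2) (hψ : ψ.IsPrimitive) {r : ZMod p} (A B : Finset (ZMod p))
    (hAB : Disjoint A B) (h0 : (0 : ZMod p) ∉ A ∪ B) (hU : A ∪ B ∪ {0} = univ) (hr : r ∈ A) :
    (∏ t ∈ A.erase r, (ψ r - ψ t)) * (ψ r - 1) * (∏ t ∈ B, (ψ r - ψ t)) * ψ r = p := by
  rw [← prod_all p ψ hp hψ r]
  have hr0 : r ≠ 0 := fun h => h0 (by rw [← h]; exact Finset.mem_union_left _ hr)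
  have h1 : (univ : Finset (ZMod p)).erase r = (A.erase r ∪ B) ∪ {0} := by
    rw [← hU]
    ext t
    simp only [Finset.mem_erase, Finset.mem_union, Finset.mem_singleton]
    constructor
    · rintro ⟨h1, (h2 | h2) | h2⟩
      · left; left; exact ⟨h1, h2⟩
      · left; right; exact h2
      · right; exact h2
    · rintro ((⟨h1, h2⟩ | h2) | h2)
      · exact ⟨h1, Or.inl (Or.inl h2)⟩
      · refine ⟨?_, Or.inl (Or.inr h2)⟩
        rintro rfl
        exact (Finset.disjoint_left.mp hAB hr) h2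
      · exact ⟨by rw [h2]; exact hr0.symm, Or.inr h2⟩
  rw [h1, Finset.prod_union, Finset.prod_union, Finset.prod_singleton, ψ.map_zero_eq_one]
  · ring
  · exact Finset.disjoint_of_subset_left (Finset.erase_subset _ _) hAB
  · rw [Finset.disjoint_singleton_right]
    intro h
    apply h0
    rw [Finset.mem_union] at h ⊢
    rcases h with h | h
    · left; exact Finset.mem_of_mem_erase h
    · right; exact h

lemma RN_disj : Disjoint (RQ p) (NQ p) := by
  rw [Finset.disjoint_left]
  intro t ht ht'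
  simp only [Finset.mem_filter, Finset.mem_univ, true_and] at ht ht'
  rw [ht] at ht'; norm_num at ht'

lemma RN_zero : (0 : ZMod p) ∉ RQ p ∪ NQ p := by simp

lemma RN_univ : RQ p ∪ NQ p ∪ {0} = (univ : Finset (ZMod p)) := by
  ext t
  simp only [Finset.mem_univ, Finset.mem_union, Finset.mem_filter, true_and, Finset.mem_singleton, iff_true]
  rcases qc_cases p t with h | h | h
  · right; exact h.2
  · left; left; exact h.1
  · left; right; exact h.1

/-- PD -/
noncomputable def PD : ℂ := ∏ r ∈ RQ p, ∏ r' ∈ (RQ p).erase r, (ψ r - ψ r')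

lemma PD_eq (hp : p ≠ 2) :
    ∏ i : Fin ((p - 1) / 2), ∏ j ∈ univ.erase i, (ψ (eR p hp i).1 - ψ (eR p hp j).1) = PD p ψ := by
  unfold PD
  rw [← prod_eR p hp (fun r => ∏ r' ∈ (RQ p).erase r, (ψ r - ψ r'))]
  exact Finset.prod_congr rfl fun i _ => prod_erase_eR p hp i (fun t => ψ (eR p hp i).1 - ψ t)

end basics

section plus
variable (p : ℕ) [Fact p.Prime] (ψ : AddChar (ZMod p) ℂ)

lemma tau_eq : tau p ψ = ∑ t ∈ RQ p, ψ t - ∑ t ∈ NQ p, ψ t := by
  unfold tau
  rw [Finset.sum_filter, Finset.sum_filter, ← Finset.sum_sub_distrib]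
  refine Finset.sum_congr rfl fun t _ => ?_
  unfold ch
  rcases qc_cases p t with h | h | h <;> rw [h.1] <;> norm_num

theorem plus_val (hp : 3 < p) (hψ : ψ.IsPrimitive) (x : ℂ) :
    (Matrix.of fun j k : Fin ((p - 1) / 2) => ch p ((j : ℕ) + (k : ℕ) : ZMod p) + x).det * tau p ψ ^ ((p - 1) / 2)
      = 2 ^ ((p - 1) / 2) * ((-1) ^ ((p - 1) / 2 * ((p - 1) / 2 - 1) / 2) * PD p ψ)
        * (1 + (1 + tau p ψ * x) / 2 * (fR p ψ ^ 2 * (1 + tau p ψ) / p - 1) - tau p ψ / 2
          - (1 + tau p ψ * x) / 2 * (tau p ψ / 2) * (fR p ψ ^ 2 / p - 1)) := by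
  have hp2 : p ≠ 2 := by omega
  have hodd : p % 2 = 1 := (Nat.Prime.eq_two_or_odd (Fact.out)).resolve_left hp2
  have hpC : (p : ℂ) ≠ 0 := by exact_mod_cast (Fact.out : p.Prime).ne_zero
  set v : Fin ((p - 1) / 2) → ℂ := fun i => ψ (eR p hp2 i).1 with hv
  have hvinj : Function.Injective v := fun a b h =>
    (eR p hp2).injective (Subtype.ext (psi_inj p ψ hψ h))
  have hF0 : ∏ i, (0 - v i) = (-1) ^ ((p - 1) / 2) := by
    have h1 := prod_eR p hp2 (fun t => 0 - ψ t)
    rw [h1]
    have h2 : ∀ t ∈ RQ p, (0 : ℂ) - ψ t = (-1) * ψ t := fun t _ => by ring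
    rw [Finset.prod_congr rfl h2, Finset.prod_mul_distrib, Finset.prod_const, (card_RQ p hp2).1,
      prod_psi, sum_residues_zero p hp, ψ.map_zero_eq_one, mul_one]
  have hmon : (∏ t ∈ NQ p, (X - C (ψ t)) : ℂ[X]).Monic := monic_prod_of_monic _ _ fun i _ => monic_X_sub_C _
  have hdeg : (∏ t ∈ NQ p, (X - C (ψ t)) : ℂ[X]).natDegree = (p - 1) / 2 := by
    rw [natDegree_prod_of_monic _ _ fun i _ => monic_X_sub_C _]
    simp only [natDegree_X_sub_C, Finset.sum_const, smul_eq_mul, mul_one]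
    exact (card_RQ p hp2).2
  have hn : 0 < (p - 1) / 2 := by omega
  have hcore := plus_core v hvinj (∏ t ∈ NQ p, (X - C (ψ t))) (p : ℂ) (tau p ψ) (fR p ψ) (fN p ψ)
    ((-1) ^ ((p - 1) / 2)) (1 + tau p ψ * x) hpC hdeg hmon ?_ ?_ hn ?_ ?_ (fR_mul_fN p ψ hp2 hψ) hF0 ?_ ?_
  · -- main
    have hM : tau p ψ • (Matrix.of fun j k : Fin ((p - 1) / 2) => ch p ((j : ℕ) + (k : ℕ) : ZMod p) + x)
        = ((2 : ℂ) • ((Matrix.vandermonde v)ᵀ * Matrix.vandermonde v)
          + Matrix.of fun j k : Fin ((p - 1) / 2) =>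
            (1 + tau p ψ * x) - p * (if (j : ℕ) + (k : ℕ) = 0 then 1 else 0)) := by
      ext j k
      simp only [Matrix.smul_apply, Matrix.of_apply, Matrix.add_apply, Matrix.mul_apply,
        Matrix.transpose_apply, Matrix.vandermonde_apply, smul_eq_mul]
      have h1 := sum_residue p ψ hp2 hψ ((j : ℕ) + (k : ℕ) : ZMod p)
      have h2 : ∑ i, v i ^ (j : ℕ) * v i ^ (k : ℕ) = ∑ t ∈ RQ p, ψ (t * ((j : ℕ) + (k : ℕ) : ZMod p)) := by
        rw [← sum_eR p hp2 (fun t => ψ (t * ((j : ℕ) + (k : ℕ) : ZMod p)))]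
        refine Finset.sum_congr rfl fun i _ => ?_
        rw [← pow_add, hv]
        simp only
        rw [← AddChar.map_nsmul_eq_pow, nsmul_eq_mul, mul_comm]
        push_cast
        rfl
      rw [h2, h1]
      have h3 : (((j : ℕ) : ZMod p) + ((k : ℕ) : ZMod p) = 0) ↔ (j : ℕ) + (k : ℕ) = 0 := by
        constructor
        · intro h
          have h4 : (((j : ℕ) + (k : ℕ) : ℕ) : ZMod p) = 0 := by push_cast; exact h
          rw [ZMod.natCast_eq_zero_iff] at h4
          have := j.2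
          have := k.2
          exact Nat.eq_zero_of_dvd_of_lt h4 (by omega)
        · intro h
          have h4 : (((j : ℕ) + (k : ℕ) : ℕ) : ZMod p) = 0 := by rw [h]; simp
          push_cast at h4; exact h4
      by_cases h5 : (j : ℕ) + (k : ℕ) = 0
      · rw [if_pos (h3.mpr h5), if_pos h5]; ring
      · rw [if_neg (fun h => h5 (h3.mp h)), if_neg h5]; ring
    have h6 := congrArg Matrix.det hM
    rw [hcore, Matrix.det_smul, Fintype.card_fin, Matrix.det_vandermonde, disc_eq] at h6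
    have h7 := PD_eq p ψ hp2
    rw [mul_comm, h6]
    simp only [hv] at h7 ⊢
    rw [h7]
  · intro i
    have h1 := prod_split p ψ hp2 hψ (RQ p) (NQ p) (RN_disj p) (RN_zero p) (RN_univ p) (eR p hp2 i).2
    have h2 := prod_erase_eR p hp2 i (fun t => v i - ψ t)
    rw [eval_prod]
    simp only [eval_sub, eval_X, eval_C]
    rw [← h1]
    congr 2
    congr 1
  · have h1 : (∏ t ∈ NQ p, (X - C (ψ t)) : ℂ[X]).coeff ((p - 1) / 2 - 1) = - ∑ t ∈ NQ p, ψ t := by
      have h2 := nodal_coeff_pred (NQ p) (fun t => ψ t) (by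
        rw [← Finset.card_pos, (card_RQ p hp2).2]; exact hn)
      rw [(card_RQ p hp2).2] at h2
      exact h2
    rw [h1, tau_eq]
    have h2 := sum_eR p hp2 (fun t => ψ t)
    rw [← h2]; ring
  · have h2 := prod_eR p hp2 (fun t => 1 - ψ t)
    exact h2
  · rw [eval_prod]
    simp only [eval_sub, eval_X, eval_C]
    rfl
  · rw [← pow_mul, mul_comm, pow_mul]; norm_num
  · rw [eval_prod]
    simp only [eval_sub, eval_X, eval_C]
    have h2 : ∀ t ∈ NQ p, (0 : ℂ) - ψ t = (-1) * ψ t := fun t _ => by ring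
    rw [Finset.prod_congr rfl h2, Finset.prod_mul_distrib, Finset.prod_const, (card_RQ p hp2).2,
      prod_psi, sum_NQ_zero p hp, ψ.map_zero_eq_one, mul_one]

end plus

end LegDet
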