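import Mathlib
import Pool.Agent.Work.MP_29211c_nt.Inst

set_option autoImplicit false

namespace LegDet
open Polynomial Finset Matrix

section minus
variable (p : ℕ) [Fact p.Prime] (ψ : AddChar (ZMod p) ℂ)

/-- `1/2` in `ZMod p` -/
noncomputable def c2 : ZMod p := (((p - 1) / 2 + 1 : ℕ) : ZMod p)

lemma two_c2 (hp : p ≠ 2) : 2 * c2 p = 1 := by
  have hodd : p % 2 = 1 := (Nat.Prime.eq_two_or_odd (Fact.out)).resolve_left hp
  unfold c2
  have h : ((2 * ((p - 1) / 2 + 1) : ℕ) : ZMod p) = ((p + 1 : ℕ) : ZMod p) := by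
    congr 1; omega
  push_cast at h ⊢
  rw [h]; simp

lemma c2_ne (hp : p ≠ 2) : c2 p ≠ 0 := by
  intro h
  have := two_c2 p hp
  rw [h] at this; simp at this

/-- the square root character -/
noncomputable def psh : AddChar (ZMod p) ℂ := AddChar.mulShift ψ (c2 p)

lemma psh_apply (t : ZMod p) : psh p ψ t = ψ (c2 p * t) := AddChar.mulShift_apply

lemma psh_sq (hp : p ≠ 2) (t : ZMod p) : psh p ψ t ^ 2 = ψ t := by
  rw [psh_apply, ← AddChar.map_nsmul_eq_pow, nsmul_eq_mul]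
  congr 1
  push_cast
  rw [← mul_assoc, two_c2 p hp, one_mul]

lemma psh_prim (hp : p ≠ 2) (hψ : ψ.IsPrimitive) : (psh p ψ).IsPrimitive := by
  apply AddChar.IsPrimitive.of_ne_one
  intro h
  have h1 : psh p ψ 1 = 1 := by rw [h]; simp
  rw [psh_apply, mul_one] at h1
  exact psi_ne_one p ψ hψ (c2_ne p hp) h1

lemma prod_one_add (hp : p ≠ 2) (S : Finset (ZMod p)) :
    (∏ t ∈ S, (1 + psh p ψ t)) * ∏ t ∈ S, (1 - psh p ψ t) = ∏ t ∈ S, (1 - ψ t) := by
  rw [← Finset.prod_mul_distrib]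
  refine Finset.prod_congr rfl fun t _ => ?_
  rw [← psh_sq p ψ hp t]; ring

lemma PD_ne (hψ : ψ.IsPrimitive) : PD p ψ ≠ 0 := by
  unfold PD
  refine Finset.prod_ne_zero_iff.mpr fun r _ => Finset.prod_ne_zero_iff.mpr fun r' hr' => ?_
  rw [Finset.mem_erase] at hr'
  exact sub_ne_zero.mpr fun h => hr'.1 (psi_inj p ψ hψ h).symm

lemma sub_natCast_eq_zero_iff {j k : Fin ((p - 1) / 2)} :
    (((j : ℕ) : ZMod p) - ((k : ℕ) : ZMod p) = 0) ↔ j = k := by
  constructor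
  · intro h
    have h1 : ((j : ℕ) : ZMod p) = ((k : ℕ) : ZMod p) := by linear_combination h
    rw [ZMod.natCast_eq_natCast_iff'] at h1
    have := j.2
    have := k.2
    rw [Nat.mod_eq_of_lt (by omega), Nat.mod_eq_of_lt (by omega)] at h1
    exact Fin.ext h1
  · rintro rfl; simp

theorem minus_val (hp : 3 < p) (hψ : ψ.IsPrimitive) (x : ℂ) :
    (Matrix.of fun j k : Fin ((p - 1) / 2) => ch p ((j : ℕ) - (k : ℕ) : ZMod p) + x).det * tau p ψ ^ ((p - 1) / 2)
      = (-1) ^ ((p - 1) / 2) * ((-1) ^ ((p - 1) / 2 * ((p - 1) / 2 - 1) / 2) * PD p (psh p ψ) ^ 2 / PD p ψ)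
        * (1 + (1 + tau p ψ * x) * fR p ψ / (2 * p) *
            (fR p (psh p ψ) ^ 2 / fR p ψ * (fN p ψ * fR p (psh p ψ) / (fN p (psh p ψ) * fR p ψ)
              - fN p (psh p ψ) / fR p (psh p ψ)))) := by
  have hp2 : p ≠ 2 := by omega
  have hodd : p % 2 = 1 := (Nat.Prime.eq_two_or_odd (Fact.out)).resolve_left hp2
  have hpC : (p : ℂ) ≠ 0 := by exact_mod_cast (Fact.out : p.Prime).ne_zero
  have hψ' := psh_prim p ψ hp2 hψ
  have hfg := fR_mul_fN p ψ hp2 hψ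
  have hfg' := fR_mul_fN p (psh p ψ) hp2 hψ'
  have hf0 : fR p ψ ≠ 0 := fun h => hpC (by rw [← hfg, h, zero_mul])
  have hg0 : fN p ψ ≠ 0 := fun h => hpC (by rw [← hfg, h, mul_zero])
  have hf0' : fR p (psh p ψ) ≠ 0 := fun h => hpC (by rw [← hfg', h, zero_mul])
  have hg0' : fN p (psh p ψ) ≠ 0 := fun h => hpC (by rw [← hfg', h, mul_zero])
  set v : Fin ((p - 1) / 2) → ℂ := fun i => ψ (eR p hp2 i).1 with hv
  set y : Fin ((p - 1) / 2) → ℂ := fun i => psh p ψ (eR p hp2 i).1 with hy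
  have hvinj : Function.Injective v := fun a b h =>
    (eR p hp2).injective (Subtype.ext (psi_inj p ψ hψ h))
  have hyinj : Function.Injective y := fun a b h =>
    (eR p hp2).injective (Subtype.ext (psi_inj p (psh p ψ) hψ' h))
  have hyv : ∀ i, y i ^ 2 = v i := fun i => psh_sq p ψ hp2 _
  have hyn : ∀ i, y i * v i ^ ((p - 1) / 2) = 1 := by
    intro i
    simp only [hy, hv, psh_apply]
    rw [← AddChar.map_nsmul_eq_pow, ← AddChar.map_add_eq_mul, nsmul_eq_mul, ← add_mul]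
    have : c2 p + ((((p - 1) / 2 : ℕ)) : ZMod p) = 0 := by
      unfold c2
      have h : (((p - 1) / 2 + 1 + (p - 1) / 2 : ℕ) : ZMod p) = ((p : ℕ) : ZMod p) := by
        congr 1; omega
      push_cast at h ⊢
      rw [h]; simp
    rw [this, zero_mul, ψ.map_zero_eq_one]
  have hy0 : ∀ i, y i ≠ 0 := fun i => psi_ne_zero p (psh p ψ) _
  have hys : ∀ i k, y i + y k ≠ 0 := by
    intro i k h
    have h1 : v i = v k := by
      rw [← hyv i, ← hyv k]
      have : y i = - y k := by linear_combination h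
      rw [this]; ring
    have h2 := hvinj h1
    subst h2
    exact hy0 i (by linear_combination h / 2)
  have her0 : ∀ i, (eR p hp2 i).1 ≠ 0 := fun i h => by
    have := (eR p hp2 i).2
    rw [h] at this; simp at this
  have hy1 : ∀ i, y i ≠ 1 := fun i => psi_ne_one p (psh p ψ) hψ' (her0 i)
  have hv1 : ∀ i, v i ≠ 1 := fun i => psi_ne_one p ψ hψ (her0 i)
  have hy1' : ∀ i, y i ≠ -1 := fun i h => hv1 i (by rw [← hyv i, h]; norm_num)
  have hpn : (p : ℂ) = 2 * ((p - 1) / 2 : ℕ) + 1 := by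
    have : p = 2 * ((p - 1) / 2) + 1 := by omega
    exact_mod_cast this
  have hdeg : (∏ t ∈ NQ p, (X - C (psh p ψ t)) : ℂ[X]).natDegree ≤ (p - 1) / 2 := by
    rw [natDegree_prod_of_monic _ _ fun i _ => monic_X_sub_C _]
    simp only [natDegree_X_sub_C, Finset.sum_const, smul_eq_mul, mul_one]
    exact (card_RQ p hp2).2.le
  have hd : ∀ (χ : AddChar (ZMod p) ℂ) (_ : χ.IsPrimitive), ∀ i,
      (∏ j ∈ univ.erase i, (χ (eR p hp2 i).1 - χ (eR p hp2 j).1)) * (χ (eR p hp2 i).1 - 1)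
        * (∏ t ∈ NQ p, (X - C (χ t)) : ℂ[X]).eval (χ (eR p hp2 i).1) * χ (eR p hp2 i).1 = p := by
    intro χ hχ i
    have h1 := prod_split p χ hp2 hχ (RQ p) (NQ p) (RN_disj p) (RN_zero p) (RN_univ p) (eR p hp2 i).2
    have h2 := prod_erase_eR p hp2 i (fun t => χ (eR p hp2 i).1 - χ t)
    rw [eval_prod]
    simp only [eval_sub, eval_X, eval_C]
    rw [← h1]
    congr 2
    congr 1
  have hprodR : ∀ (φ : ZMod p → ℂ), ∏ i, φ (eR p hp2 i).1 = ∏ t ∈ RQ p, φ t := fun φ => prod_eR p hp2 φ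
  have hcore := minus_core v y hvinj hyv hyn hys hy1 hy1' (∏ t ∈ NQ p, (X - C (ψ t)))
    (∏ t ∈ NQ p, (X - C (psh p ψ t))) (p : ℂ) (fR p ψ) (1 + tau p ψ * x) hpn hpC hdeg (hd ψ hψ)
    (hd (psh p ψ) hψ') (hprodR fun t => 1 - ψ t)
  have hM : tau p ψ • (Matrix.of fun j k : Fin ((p - 1) / 2) => ch p ((j : ℕ) - (k : ℕ) : ZMod p) + x)
      = ((2 : ℂ) • ((Matrix.vandermonde v)ᵀ * Matrix.vandermonde (fun i => (v i)⁻¹))
        + Matrix.of fun j k : Fin ((p - 1) / 2) =>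
          (1 + tau p ψ * x) - p * (if j = k then 1 else 0)) := by
    ext j k
    simp only [Matrix.smul_apply, Matrix.of_apply, Matrix.add_apply, Matrix.mul_apply,
      Matrix.transpose_apply, Matrix.vandermonde_apply, smul_eq_mul]
    have h1 := sum_residue p ψ hp2 hψ ((j : ℕ) - (k : ℕ) : ZMod p)
    have h2 : ∑ i, v i ^ (j : ℕ) * (v i)⁻¹ ^ (k : ℕ) = ∑ t ∈ RQ p, ψ (t * ((j : ℕ) - (k : ℕ) : ZMod p)) := by
      rw [← sum_eR p hp2 (fun t => ψ (t * ((j : ℕ) - (k : ℕ) : ZMod p)))]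
      refine Finset.sum_congr rfl fun i _ => ?_
      have h3 : (v i)⁻¹ = ψ (-(eR p hp2 i).1) := by
        rw [AddChar.map_neg_eq_inv]
      rw [h3]
      simp only [hv]
      rw [← AddChar.map_nsmul_eq_pow, ← AddChar.map_nsmul_eq_pow, ← AddChar.map_add_eq_mul,
        nsmul_eq_mul, nsmul_eq_mul]
      congr 1
      ring
    rw [h2, h1]
    by_cases h5 : j = k
    · rw [if_pos ((sub_natCast_eq_zero_iff p).mpr h5), if_pos h5]; ring
    · rw [if_neg (fun h => h5 ((sub_natCast_eq_zero_iff p).mp h)), if_neg h5]; ring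
  have h6 := congrArg Matrix.det hM
  rw [hcore, Matrix.det_smul, Fintype.card_fin, cauchy_det y hys, disc_eq] at h6
  rw [mul_comm, h6]
  -- products
  have e1 : ∏ i, y i = 1 := by
    have := hprodR (fun t => psh p ψ t)
    rw [this, prod_psi, sum_residues_zero p hp, AddChar.map_zero_eq_one]
  have e2 : ∏ i, (1 - y i) = fR p (psh p ψ) := hprodR fun t => 1 - psh p ψ t
  have e3 : ∏ i, (1 + y i) = fR p ψ / fR p (psh p ψ) := by
    have h7 := hprodR (fun t => 1 + psh p ψ t)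
    have h8 := prod_one_add p ψ hp2 (RQ p)
    rw [h7, eq_div_iff hf0']
    exact h8
  have e4 : ∏ t ∈ NQ p, (1 + psh p ψ t) = fN p ψ / fN p (psh p ψ) := by
    have h8 := prod_one_add p ψ hp2 (NQ p)
    rw [eq_div_iff hg0']
    exact h8
  have e5 : ∏ i, (-1 - y i) = (-1) ^ ((p - 1) / 2) * (fR p ψ / fR p (psh p ψ)) := by
    have h7 : ∀ i, -1 - y i = (-1) * (1 + y i) := fun i => by ring
    rw [← e3, Finset.prod_congr rfl fun i _ => h7 i, Finset.prod_mul_distrib, Finset.prod_const,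
      Finset.card_univ, Fintype.card_fin]
  have e6 : (∏ t ∈ NQ p, (X - C (psh p ψ t)) : ℂ[X]).eval (-1)
      = (-1) ^ ((p - 1) / 2) * (fN p ψ / fN p (psh p ψ)) := by
    rw [eval_prod, ← e4, ← (card_RQ p hp2).2, ← Finset.prod_const, ← Finset.prod_mul_distrib]
    simp only [eval_sub, eval_X, eval_C]
    exact Finset.prod_congr rfl fun i _ => by ring
  have e7 : (∏ t ∈ NQ p, (X - C (psh p ψ t)) : ℂ[X]).eval 1 = fN p (psh p ψ) := by
    rw [eval_prod]
    simp only [eval_sub, eval_X, eval_C]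
    rfl
  have e8 : ∏ i, ∏ j ∈ univ.erase i, (y i - y j) = PD p (psh p ψ) := PD_eq p (psh p ψ) hp2
  have e9 : ∏ i, ∏ j ∈ univ.erase i, (v i - v j) = PD p ψ := PD_eq p ψ hp2
  have e10 : ∏ i, ∏ k, (y i + y k) = 2 ^ ((p - 1) / 2) * (PD p ψ / PD p (psh p ψ)) := by
    have h9 : ∀ i, ∏ k, (y i + y k) = (2 * y i) * ∏ k ∈ univ.erase i, (y i + y k) := by
      intro i
      rw [← Finset.mul_prod_erase univ (fun l => y i + y l) (mem_univ i)]; ring
    rw [Finset.prod_congr rfl fun i _ => h9 i, Finset.prod_mul_distrib, Finset.prod_mul_distrib, e1,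
      Finset.prod_const, Finset.card_univ, Fintype.card_fin, mul_one]
    congr 1
    rw [eq_div_iff (PD_ne p (psh p ψ) hψ'), ← e8, ← e9, ← Finset.prod_mul_distrib]
    refine Finset.prod_congr rfl fun i _ => ?_
    rw [← Finset.prod_mul_distrib]
    refine Finset.prod_congr rfl fun j _ => ?_
    rw [← hyv i, ← hyv j]; ring
  rw [e1, e2, e3, e5, e6, e7, e8, e10]
  have hPD := PD_ne p ψ hψ
  have hPD' := PD_ne p (psh p ψ) hψ'
  have hs : ((-1 : ℂ)) ^ ((p - 1) / 2) ≠ 0 := pow_ne_zero _ (by norm_num)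
  have h2n : (-2 : ℂ) ^ ((p - 1) / 2) = (-1) ^ ((p - 1) / 2) * 2 ^ ((p - 1) / 2) := by
    rw [← mul_pow]; norm_num
  rw [h2n]
  have h22 : (2 : ℂ) ^ ((p - 1) / 2) ≠ 0 := pow_ne_zero _ (by norm_num)
  field_simp

end minus

end LegDet
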