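import Pool.Agent.Work.MP_29211c_nt.Defs

/-!
# MP_29211c_nt: a rank-two perturbation identity

The determinant of `C + x 11ᵀ + y χ 1ᵀ + z 1 χᵀ + w χ χᵀ`, where `χ` is the zeroth column of `C`.
-/

set_option autoImplicit false
namespace LegDet
open Matrix

section RankTwo
variable {m : ℕ}

theorem det_one_add_e0 (v : Fin (m + 1) → ℂ) :
    (1 + Matrix.of fun j k : Fin (m + 1) => (if j = 0 then v k else 0)).det = 1 + v 0 := by
  have h := Matrix.det_one_add_replicateCol_mul_replicateRow (ι := Unit)
    (u := fun j : Fin (m + 1) => if j = 0 then (1 : ℂ) else 0) (v := v)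
  have e : (1 + Matrix.of fun j k : Fin (m + 1) => (if j = 0 then v k else 0))
      = 1 + Matrix.replicateCol Unit (fun j : Fin (m + 1) => if j = 0 then (1 : ℂ) else 0)
        * Matrix.replicateRow Unit v := by
    congr 1
    ext j k
    simp [Matrix.mul_apply]
  rw [e, h]
  simp [dotProduct]

/-- changing the rows `j ≠ 0` by multiples of row `0` does not change the determinant. -/
theorem det_row0 (P Q : Matrix (Fin (m + 1)) (Fin (m + 1)) ℂ) (r : Fin (m + 1) → ℂ) (c : Fin (m + 1) → ℂ)
    (h : ∀ i k, i ≠ 0 → P i k = Q i k + c i * r k) :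
    (P.updateRow 0 r).det = (Q.updateRow 0 r).det := by
  refine Matrix.det_eq_of_forall_row_eq_smul_add_const (fun i => if i = 0 then 0 else c i) 0 (by simp) ?_
  intro i k
  by_cases hi : i = 0
  · subst hi; simp
  · simp [hi, Matrix.updateRow_ne hi, h i k hi]

theorem rank_two (C : Matrix (Fin (m+1)) (Fin (m+1)) ℂ) (s : ℂ) (hs : s ^ 2 = 1) (h0 : C 0 0 = 0)
    (hrow : ∀ k, C 0 k = s * C k 0) (x y z w : ℂ) :
    (Matrix.of fun j k => C j k + x + C j 0 * y + C k 0 * z + C j 0 * C k 0 * w).det
      = x * ((Matrix.of fun j k => C j k + 1).det - C.det) - s * C.det * (x * w - (1 + y) * (s + z)) := by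
  set chi : Fin (m + 1) → ℂ := fun k => C k 0 with hchi
  set one : Fin (m + 1) → ℂ := fun _ => 1 with hone
  -- the row chi in place of row zero of C
  have hC : (C.updateRow 0 chi).det = s * C.det := by
    have h1 : C.updateRow 0 (s • chi) = C := by
      ext j k
      by_cases hj : j = 0
      · subst hj; simp [hchi, hrow]
      · simp [Matrix.updateRow_ne hj]
    have h2 := Matrix.det_updateRow_smul C 0 s chi
    rw [h1] at h2
    rw [h2, ← mul_assoc, ← sq, hs, one_mul]
  -- step 1
  have e1 : (Matrix.of fun j k => C j k + x + C j 0 * y + C k 0 * z + C j 0 * C k 0 * w).det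
      = ((Matrix.of fun j k => C j k - s * chi k + chi j * (y + w * chi k)).updateRow 0
          (x • one + (s + z) • chi)).det := by
    have : (Matrix.of fun j k => C j k + x + C j 0 * y + C k 0 * z + C j 0 * C k 0 * w)
        = (Matrix.of fun j k => C j k + x + C j 0 * y + C k 0 * z + C j 0 * C k 0 * w).updateRow 0
          (x • one + (s + z) • chi) := by
      ext j k
      by_cases hj : j = 0
      · subst hj
        simp [hchi, hone, hrow k, h0]
        ring
      · simp [Matrix.updateRow_ne hj]
    rw [this]
    refine det_row0 _ _ _ (fun _ => 1) ?_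
    intro i k _
    simp [hchi, hone]
    ring
  rw [e1, Matrix.det_updateRow_add, Matrix.det_updateRow_smul, Matrix.det_updateRow_smul]
  -- the chi term
  have e2 : ((Matrix.of fun j k => C j k - s * chi k + chi j * (y + w * chi k)).updateRow 0 chi).det
      = s * C.det * (1 + y) := by
    have h1 : ((Matrix.of fun j k => C j k - s * chi k + chi j * (y + w * chi k)).updateRow 0 chi).det
        = ((Matrix.of fun j k => C j k + chi j * y).updateRow 0 chi).det := by
      refine det_row0 _ _ _ (fun j => w * chi j - s) ?_
      intro i k _
      simp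
      ring
    have h2 : C * (1 + Matrix.of fun j k : Fin (m + 1) => (if j = 0 then y else 0))
        = (Matrix.of fun j k => C j k + chi j * y).updateRow 0 (s • chi) := by
      ext j k
      rw [Matrix.mul_add, Matrix.mul_one, Matrix.add_apply, Matrix.mul_apply]
      simp only [Matrix.of_apply, mul_ite, mul_zero, Finset.sum_ite_eq', Finset.mem_univ, if_true]
      by_cases hj : j = 0
      · subst hj; simp [hchi, hrow k, h0]
      · simp [Matrix.updateRow_ne hj, hchi]
    have h3 := congrArg Matrix.det h2
    rw [Matrix.det_mul, det_one_add_e0 (fun _ => y), Matrix.det_updateRow_smul] at h3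
    rw [h1]
    calc _ = s ^ 2 * ((Matrix.of fun j k => C j k + chi j * y).updateRow 0 chi).det := by rw [hs, one_mul]
      _ = s * (s * ((Matrix.of fun j k => C j k + chi j * y).updateRow 0 chi).det) := by ring
      _ = _ := by rw [← h3]; ring
  -- the one term
  have hS : ((Matrix.of fun j k => C j k - s * chi k).updateRow 0 one).det
      = (Matrix.of fun j k => C j k + 1).det - C.det := by
    have h1 : (Matrix.of fun j k => C j k + 1) = (Matrix.of fun j k => C j k + 1).updateRow 0 (one + s • chi) := by
      ext j k
      by_cases hj : j = 0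
      · subst hj; simp [hchi, hone, hrow k]; ring
      · simp [Matrix.updateRow_ne hj]
    have h2 : ((Matrix.of fun j k => C j k + 1).updateRow 0 (one + s • chi)).det
        = ((Matrix.of fun j k => C j k - s * chi k).updateRow 0 (one + s • chi)).det := by
      refine det_row0 _ _ _ (fun _ => 1) ?_
      intro i k _
      simp [hone]
    have h3 : ((Matrix.of fun j k => C j k - s * chi k).updateRow 0 chi).det = (C.updateRow 0 chi).det := by
      refine det_row0 _ _ _ (fun _ => -s) ?_
      intro i k _
      simp
      ring
    rw [h1, h2, Matrix.det_updateRow_add, Matrix.det_updateRow_smul, h3, hC]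
    linear_combination (-C.det) * hs
  have e3 : ((Matrix.of fun j k => C j k - s * chi k + chi j * (y + w * chi k)).updateRow 0 one).det
      = ((Matrix.of fun j k => C j k + 1).det - C.det) - w * (s * C.det) := by
    have h1 : ((Matrix.of fun j k => C j k - s * chi k + chi j * (y + w * chi k)).updateRow 0 one).det
        = ((Matrix.of fun j k => C j k - s * chi k + chi j * (w * chi k)).updateRow 0 one).det := by
      refine det_row0 _ _ _ (fun j => chi j * y) ?_
      intro i k _
      simp [hone]
      ring
    have h2 : ((Matrix.of fun j k => C j k - s * chi k).updateRow 0 one)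
          * (1 + Matrix.of fun j k : Fin (m + 1) => (if j = 0 then w * chi k else 0))
        = (Matrix.of fun j k => C j k - s * chi k + chi j * (w * chi k)).updateRow 0 (one + w • chi) := by
      ext j k
      rw [Matrix.mul_add, Matrix.mul_one, Matrix.add_apply, Matrix.mul_apply]
      simp only [Matrix.of_apply, mul_ite, mul_zero, Finset.sum_ite_eq', Finset.mem_univ, if_true]
      by_cases hj : j = 0
      · subst hj; simp [hone]
      · simp [Matrix.updateRow_ne hj, hchi, h0]
    have h3 := congrArg Matrix.det h2
    rw [Matrix.det_mul, det_one_add_e0 (fun k => w * chi k), hS, Matrix.det_updateRow_add,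
      Matrix.det_updateRow_smul] at h3
    have h4 : ((Matrix.of fun j k => C j k - s * chi k + chi j * (w * chi k)).updateRow 0 chi).det
        = (C.updateRow 0 chi).det := by
      refine det_row0 _ _ _ (fun j => w * chi j - s) ?_
      intro i k _
      simp
      ring
    rw [h4, hC] at h3
    have h5 : chi 0 = 0 := h0
    rw [h5] at h3
    rw [h1]
    linear_combination -h3
  rw [e2, e3]
  ring

end RankTwo
end LegDet
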