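import Mathlib
import Pool.Agent.Work.MP_29211c_nt.InstMinus
import Pool.Agent.Work.MP_29211c_nt.CNF
import Pool.Agent.Work.MP_29211c_nt.RankTwo

set_option autoImplicit false

namespace LegDet
open Polynomial Finset NumberField

section
variable (p : ℕ) [Fact p.Prime]

/-- The determinant of the problem, with `σ = 1` for `D⁺` and `σ = -1` for `D⁻`. -/
noncomputable def DD (σ : ℤ) (x y z w : ℂ) : ℂ :=
  (Matrix.of fun j k : Fin ((p - 1) / 2) =>
    x + ((legendreSym p ((j : ℤ) + σ * (k : ℤ)) : ℤ) : ℂ) + ((legendreSym p (j : ℤ) : ℤ) : ℂ) * y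
      + ((legendreSym p (k : ℤ) : ℤ) : ℂ) * z + ((legendreSym p ((j : ℤ) * (k : ℤ)) : ℤ) : ℂ) * w).det

/-- `det [x + (j ± k / p)]` -/
noncomputable def CC (σ : ℤ) (x : ℂ) : ℂ :=
  (Matrix.of fun j k : Fin ((p - 1) / 2) => ch p ((j : ℕ) + σ * (k : ℕ) : ZMod p) + x).det

lemma leg_ch (a : ℤ) : ((legendreSym p a : ℤ) : ℂ) = ch p (a : ZMod p) := rfl

theorem DD_eq (hp : p ≠ 2) (σ : ℤ) (hσ : σ = 1 ∨ σ = -1) (x y z w : ℂ) :
    DD p σ x y z w = x * (CC p σ 1 - CC p σ 0)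
      - ch p σ * CC p σ 0 * (x * w - (1 + y) * (ch p σ + z)) := by
  have hodd : p % 2 = 1 := (Nat.Prime.eq_two_or_odd (Fact.out)).resolve_left hp
  have hp2 := (Fact.out : p.Prime).two_le
  obtain ⟨m, hm⟩ : ∃ m, (p - 1) / 2 = m + 1 := ⟨(p - 1) / 2 - 1, by omega⟩
  have hσ0 : (σ : ZMod p) ≠ 0 := by
    rcases hσ with h | h <;> rw [h] <;> simp
  unfold DD CC
  rw [hm]
  have h := rank_two (m := m) (Matrix.of fun j k : Fin (m + 1) => ch p ((j : ℕ) + σ * (k : ℕ) : ZMod p))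
    (ch p σ) (by rcases ch_dichotomy p hσ0 with h | h <;> rw [h] <;> norm_num) (by simp [ch_zero])
    (by intro k; simp [ch_mul]) x y z w
  simp only [Matrix.of_apply] at h
  have e0 : (Matrix.of fun j k : Fin (m + 1) => ch p ((j : ℕ) + σ * (k : ℕ) : ZMod p) + 0)
      = Matrix.of fun j k : Fin (m + 1) => ch p ((j : ℕ) + σ * (k : ℕ) : ZMod p) := by
    ext j k; simp
  rw [e0, ← h]
  congr 1
  ext j k
  simp only [Matrix.of_apply, leg_ch]
  push_cast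
  simp only [Fin.val_zero, Nat.cast_zero, mul_zero, add_zero, ch_mul]
  ring

lemma CC_one (x : ℂ) : CC p 1 x = (Matrix.of fun j k : Fin ((p - 1) / 2) => ch p ((j : ℕ) + (k : ℕ) : ZMod p) + x).det := by
  unfold CC; simp

lemma CC_neg (x : ℂ) : CC p (-1) x = (Matrix.of fun j k : Fin ((p - 1) / 2) => ch p ((j : ℕ) - (k : ℕ) : ZMod p) + x).det := by
  unfold CC
  congr 1
  ext j k
  simp only [Matrix.of_apply]
  congr 2
  push_cast; ring

lemma qc_c2 (hp : p ≠ 2) : quadraticChar (ZMod p) (c2 p) = quadraticChar (ZMod p) 2 := by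
  have h1 : quadraticChar (ZMod p) 2 * quadraticChar (ZMod p) (c2 p) = 1 := by
    rw [← map_mul, two_c2 p hp, map_one]
  rcases quadraticChar_dichotomy (two_ne p hp) with h | h <;> rw [h] at h1 ⊢ <;> linarith

lemma leg_two : legendreSym p 2 = quadraticChar (ZMod p) 2 := by
  unfold legendreSym; norm_num

lemma fR_psh (hp : p ≠ 2) (ψ : AddChar (ZMod p) ℂ) :
    fR p (psh p ψ) = if quadraticChar (ZMod p) 2 = 1 then fR p ψ else fN p ψ := by
  rw [← qc_c2 p hp, ← prod_scaled p ψ (c2 p) (c2_ne p hp)]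
  unfold fR RR
  refine Finset.prod_congr rfl fun t _ => ?_
  rw [psh_apply, mul_comm]

/-! ### p ≡ 3 mod 4 -/

theorem plus_three (hp : 3 < p) (hp3 : p % 4 = 3) (x : ℂ) :
    CC p 1 x = - 2 ^ ((p - 3) / 2) * (1 + 2 * x) := by
  have hp2 : p ≠ 2 := by omega
  have hψ : (ZMod.stdAddChar (N := p)).IsPrimitive := ZMod.isPrimitive_stdAddChar p
  set ψ : AddChar (ZMod p) ℂ := ZMod.stdAddChar
  have hpC : (p : ℂ) ≠ 0 := by exact_mod_cast (Fact.out : p.Prime).ne_zero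
  have h1 := plus_val p ψ hp hψ x
  have h2 := tau_sq p ψ hp2 hψ
  have h3 : ch p (-1) = -1 := by simp [ch, quadraticChar_neg_one_three p hp3]
  have h4 := fR_sq_of_three p ψ hp hp3 hψ
  have h5 : PD p ψ = (p : ℂ) ^ ((p - 3) / 4) := prod_diff_three p ψ hp hp3 hψ
  rw [h3] at h2
  have hτ0 : tau p ψ ≠ 0 := by
    intro h; rw [h] at h2; apply hpC; linear_combination h2
  rw [← CC_one, h4, h5] at h1
  obtain ⟨m, hm⟩ : ∃ m, p = 4 * m + 3 := ⟨p / 4, by omega⟩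
  have e1 : (p - 1) / 2 = 2 * m + 1 := by omega
  have e2 : (p - 3) / 4 = m := by omega
  have e3 : (p - 3) / 2 = 2 * m := by omega
  have e4 : (p - 1) / 2 * ((p - 1) / 2 - 1) / 2 = (2 * m + 1) * m := by
    rw [e1, show 2 * m + 1 - 1 = 2 * m from rfl, ← mul_assoc, mul_comm (2 * m + 1) 2, mul_assoc,
      Nat.mul_div_cancel_left _ (by norm_num)]
  rw [e4, e1, e2] at h1
  rw [e3]
  have h6 : tau p ψ ^ (2 * m + 1) = tau p ψ * (-1) ^ m * (p : ℂ) ^ m := by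
    rw [pow_succ, pow_mul, h2]
    rw [show (-1 * (p : ℂ)) ^ m = (-1) ^ m * (p : ℂ) ^ m from mul_pow _ _ _]
    ring
  have h7 : ((-1 : ℂ)) ^ ((2 * m + 1) * m) = (-1) ^ m := by
    rw [mul_comm, pow_mul]
    rcases Nat.even_or_odd m with hm | hm
    · rw [hm.neg_one_pow]; simp
    · rw [hm.neg_one_pow]
      exact Odd.neg_one_pow ⟨m, rfl⟩
  rw [h6, h7] at h1
  have hm1 : ((-1 : ℂ)) ^ m ≠ 0 := pow_ne_zero _ (by norm_num)
  have hpm : (p : ℂ) ^ m ≠ 0 := pow_ne_zero _ hpC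
  have h8 : CC p 1 x * tau p ψ = - 2 ^ (2 * m) * (1 + 2 * x) * tau p ψ := by
    have h9 : (CC p 1 x * tau p ψ) * ((-1) ^ m * (p : ℂ) ^ m)
        = (- 2 ^ (2 * m) * (1 + 2 * x) * tau p ψ) * ((-1) ^ m * (p : ℂ) ^ m) := by
      have h10 : CC p 1 x * (tau p ψ * (-1) ^ m * (p : ℂ) ^ m) = (CC p 1 x * tau p ψ) * ((-1) ^ m * (p : ℂ) ^ m) := by ring
      rw [← h10, h1]
      have h11 : (-(p : ℂ)) / p = -1 := by field_simp
      have h12 : (-(p : ℂ)) * (1 + tau p ψ) / p = -(1 + tau p ψ) := by field_simp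
      rw [h11, h12, pow_succ (2 : ℂ) (2 * m)]
      ring
    exact mul_right_cancel₀ (mul_ne_zero hm1 hpm) h9
  exact mul_right_cancel₀ hτ0 h8

theorem minus_three (hp : 3 < p) (hp3 : p % 4 = 3) (x : ℂ) : CC p (-1) x = x := by
  have hp2 : p ≠ 2 := by omega
  have hψ : (ZMod.stdAddChar (N := p)).IsPrimitive := ZMod.isPrimitive_stdAddChar p
  set ψ : AddChar (ZMod p) ℂ := ZMod.stdAddChar
  have hψ' := psh_prim p ψ hp2 hψ
  have hpC : (p : ℂ) ≠ 0 := by exact_mod_cast (Fact.out : p.Prime).ne_zero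
  have h1 := minus_val p ψ hp hψ x
  have h2 := tau_sq p ψ hp2 hψ
  have h3 : ch p (-1) = -1 := by simp [ch, quadraticChar_neg_one_three p hp3]
  have h4 := fR_sq_of_three p ψ hp hp3 hψ
  have h4' := fR_sq_of_three p (psh p ψ) hp hp3 hψ'
  have h5 : PD p ψ = (p : ℂ) ^ ((p - 3) / 4) := prod_diff_three p ψ hp hp3 hψ
  have h5' : PD p (psh p ψ) = (p : ℂ) ^ ((p - 3) / 4) := prod_diff_three p (psh p ψ) hp hp3 hψ'
  have hfg := fR_mul_fN p ψ hp2 hψ
  have hfg' := fR_mul_fN p (psh p ψ) hp2 hψ'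
  have hf0 : fR p ψ ≠ 0 := fun h => hpC (by rw [← hfg, h, zero_mul])
  have hf0' : fR p (psh p ψ) ≠ 0 := fun h => hpC (by rw [← hfg', h, zero_mul])
  have hg : fN p ψ = - fR p ψ := by
    have : fR p ψ * fN p ψ = fR p ψ * (- fR p ψ) := by rw [hfg]; linear_combination h4
    exact mul_left_cancel₀ hf0 this
  have hg' : fN p (psh p ψ) = - fR p (psh p ψ) := by
    have : fR p (psh p ψ) * fN p (psh p ψ) = fR p (psh p ψ) * (- fR p (psh p ψ)) := by
      rw [hfg']; linear_combination h4'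
    exact mul_left_cancel₀ hf0' this
  rw [h3] at h2
  have hτ0 : tau p ψ ≠ 0 := by
    intro h; rw [h] at h2; apply hpC; linear_combination h2
  rw [← CC_neg, h5, h5', hg, hg', h4'] at h1
  obtain ⟨m, hm⟩ : ∃ m, p = 4 * m + 3 := ⟨p / 4, by omega⟩
  have e1 : (p - 1) / 2 = 2 * m + 1 := by omega
  have e2 : (p - 3) / 4 = m := by omega
  have e4 : (p - 1) / 2 * ((p - 1) / 2 - 1) / 2 = (2 * m + 1) * m := by
    rw [e1, show 2 * m + 1 - 1 = 2 * m from rfl, ← mul_assoc, mul_comm (2 * m + 1) 2, mul_assoc,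
      Nat.mul_div_cancel_left _ (by norm_num)]
  rw [e4, e1, e2] at h1
  have h6 : tau p ψ ^ (2 * m + 1) = tau p ψ * (-1) ^ m * (p : ℂ) ^ m := by
    rw [pow_succ, pow_mul, h2]
    rw [show (-1 * (p : ℂ)) ^ m = (-1) ^ m * (p : ℂ) ^ m from mul_pow _ _ _]
    ring
  have h7 : ((-1 : ℂ)) ^ ((2 * m + 1) * m) = (-1) ^ m := by
    rw [mul_comm, pow_mul]
    rcases Nat.even_or_odd m with hm | hm
    · rw [hm.neg_one_pow]; simp
    · rw [hm.neg_one_pow]
      exact Odd.neg_one_pow ⟨m, rfl⟩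
  have h8 : ((-1 : ℂ)) ^ (2 * m + 1) = -1 := Odd.neg_one_pow ⟨m, rfl⟩
  rw [h6, h7, h8] at h1
  have hm1 : ((-1 : ℂ)) ^ m ≠ 0 := pow_ne_zero _ (by norm_num)
  have hpm : (p : ℂ) ^ m ≠ 0 := pow_ne_zero _ hpC
  have hin : 1 + (1 + tau p ψ * x) * fR p ψ / (2 * (p : ℂ)) *
            (-(p : ℂ) / fR p ψ * (- fR p ψ * fR p (psh p ψ) / (- fR p (psh p ψ) * fR p ψ)
              - - fR p (psh p ψ) / fR p (psh p ψ))) = - (tau p ψ * x) := by
    field_simp
    ring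
  rw [hin] at h1
  have h9 : CC p (-1) x * (tau p ψ * (-1) ^ m * (p : ℂ) ^ m) = x * (tau p ψ * (-1) ^ m * (p : ℂ) ^ m) := by
    rw [h1]
    field_simp
  exact mul_right_cancel₀ (mul_ne_zero (mul_ne_zero hτ0 hm1) hpm) h9

theorem minus_p3 (hp : p = 3) (x : ℂ) : CC p (-1) x = x := by
  subst hp
  rw [CC_neg]
  rw [show (3 - 1) / 2 = 1 from rfl, Matrix.det_unique]
  simp [ch]

/-! ### p ≡ 1 mod 4 -/

lemma sign_one (hp1 : p % 4 = 1) :
    ((-1 : ℂ)) ^ ((p - 1) / 2 * ((p - 1) / 2 - 1) / 2) = ((legendreSym p 2 : ℤ) : ℂ) := by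
  have hp2 : p ≠ 2 := by rintro rfl; norm_num at hp1
  rw [legendreSym.at_two hp2, ZMod.χ₈_nat_eq_if_mod_eight]
  have hpos := (Fact.out : p.Prime).two_le
  obtain ⟨m, hm⟩ : ∃ m, p = 4 * m + 1 := ⟨p / 4, by omega⟩
  have e1 : (p - 1) / 2 = 2 * m := by omega
  have hm0 : 0 < m := by omega
  have e4 : (p - 1) / 2 * ((p - 1) / 2 - 1) / 2 = m * (2 * m - 1) := by
    rw [e1, mul_assoc, Nat.mul_div_cancel_left _ (by norm_num)]
  rw [e4, pow_mul, if_neg (by omega)]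
  rcases Nat.even_or_odd m with h | h
  · obtain ⟨k, hk⟩ := h
    rw [if_pos (by omega), (show Even m from ⟨k, hk⟩).neg_one_pow]; simp
  · obtain ⟨k, hk⟩ := h
    rw [if_neg (by omega), (show Odd m from ⟨k, hk⟩).neg_one_pow]
    rw [Odd.neg_one_pow ⟨m - 1, by omega⟩]; simp

theorem plus_one (hp1 : p % 4 = 1) (ψ : AddChar (ZMod p) ℂ) (hψ : ψ.IsPrimitive) (a b E τ : ℂ)
    (hτ : tau p ψ = τ) (hE : E = a + b * τ) (hEi : E * (- a + b * τ) = 1)
    (hf : fR p ψ * E = τ) (x : ℂ) :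
    CC p 1 x = ((legendreSym p 2 : ℤ) : ℂ) * 2 ^ ((p - 3) / 2) * ((2 * b - a) + x * (p * b - 2 * a)) := by
  have hp2 : p ≠ 2 := by rintro rfl; norm_num at hp1
  have hpos := (Fact.out : p.Prime).two_le
  have hp : 3 < p := by omega
  have hpC : (p : ℂ) ≠ 0 := by exact_mod_cast (Fact.out : p.Prime).ne_zero
  have h1 := plus_val p ψ hp hψ x
  have h2 := tau_sq p ψ hp2 hψ
  have h3 : ch p (-1) = 1 := by simp [ch, quadraticChar_neg_one_one p hp1]
  have h5 : PD p ψ * fR p ψ = (p : ℂ) ^ ((p - 1) / 4) := prod_diff_one p ψ hp hp1 hψ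
  rw [h3, hτ, one_mul] at h2
  rw [← CC_one, hτ, sign_one p hp1] at h1
  have hτ0 : τ ≠ 0 := by intro h; rw [h] at h2; apply hpC; rw [← h2]; norm_num
  have hE0 : E ≠ 0 := by intro h; rw [h] at hEi; simp at hEi
  have hf' : fR p ψ = τ / E := by rw [eq_div_iff hE0, hf]
  obtain ⟨m, hm⟩ : ∃ m, p = 4 * m + 1 := ⟨p / 4, by omega⟩
  have e1 : (p - 1) / 2 = 2 * m := by omega
  have e2 : (p - 1) / 4 = m := by omega
  have e3 : (p - 3) / 2 = 2 * m - 1 := by omega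
  have hm0 : 0 < m := by omega
  rw [e2, ← h2, hf'] at h5
  have hPD : PD p ψ = (τ ^ 2) ^ m * E / τ := by
    rw [eq_div_iff hτ0]
    field_simp at h5
    linear_combination h5
  rw [e1, hPD, hf', ← h2] at h1
  rw [e3, ← h2]
  have h22 : (2 : ℂ) ^ (2 * m) = 2 * 2 ^ (2 * m - 1) := by
    rw [← pow_succ']; congr 1; omega
  rw [h22, pow_mul] at h1
  have ht : (τ ^ 2) ^ m ≠ 0 := pow_ne_zero _ (pow_ne_zero _ hτ0)
  have hEi' : (- a + b * τ) = 1 / E := by rw [eq_div_iff hE0]; linear_combination hEi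
  have hb : b = (E + 1 / E) / (2 * τ) := by
    rw [← hEi', hE]; field_simp; ring
  have ha : a = (E - 1 / E) / 2 := by
    rw [← hEi', hE]; ring
  have h9 : CC p 1 x * (τ ^ 2) ^ m = (((legendreSym p 2 : ℤ) : ℂ) * 2 ^ (2 * m - 1) *
      ((2 * b - a) + x * (τ ^ 2 * b - 2 * a))) * (τ ^ 2) ^ m := by
    rw [h1, hb, ha]
    field_simp
    ring
  exact mul_right_cancel₀ ht h9

theorem minus_one_pos (hp1 : p % 4 = 1) (h2l : legendreSym p 2 = 1)
    (ψ : AddChar (ZMod p) ℂ) (hψ : ψ.IsPrimitive) (a b E τ : ℂ)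
    (hτ : tau p ψ = τ) (hE : E = a + b * τ) (hEi : E * (- a + b * τ) = 1)
    (hf : fR p ψ * E = τ) (x : ℂ) :
    CC p (-1) x = b - a * x := by
  have hp2 : p ≠ 2 := by rintro rfl; norm_num at hp1
  have hpos := (Fact.out : p.Prime).two_le
  have hp : 3 < p := by omega
  have hpC : (p : ℂ) ≠ 0 := by exact_mod_cast (Fact.out : p.Prime).ne_zero
  have hψ' := psh_prim p ψ hp2 hψ
  have h1 := minus_val p ψ hp hψ x
  have h2 := tau_sq p ψ hp2 hψ
  have h3 : ch p (-1) = 1 := by simp [ch, quadraticChar_neg_one_one p hp1]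
  have h5 : PD p ψ * fR p ψ = (p : ℂ) ^ ((p - 1) / 4) := prod_diff_one p ψ hp hp1 hψ
  have h5' : PD p (psh p ψ) * fR p (psh p ψ) = (p : ℂ) ^ ((p - 1) / 4) := prod_diff_one p (psh p ψ) hp hp1 hψ'
  have hfg := fR_mul_fN p ψ hp2 hψ
  have hfg' := fR_mul_fN p (psh p ψ) hp2 hψ'
  rw [h3, hτ, one_mul] at h2
  rw [← CC_neg, hτ, sign_one p hp1, h2l] at h1
  have hτ0 : τ ≠ 0 := by intro h; rw [h] at h2; apply hpC; rw [← h2]; norm_num
  have hE0 : E ≠ 0 := by intro h; rw [h] at hEi; simp at hEi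
  have hf' : fR p ψ = τ / E := by rw [eq_div_iff hE0, hf]
  have hg' : fN p ψ = τ * E := by
    have hf0 : fR p ψ ≠ 0 := by rw [hf']; exact div_ne_zero hτ0 hE0
    have : fR p ψ * fN p ψ = fR p ψ * (τ * E) := by rw [hfg, hf', ← h2]; field_simp
    exact mul_left_cancel₀ hf0 this
  have hfs : fR p (psh p ψ) = τ / E := by
    rw [fR_psh p hp2, ← leg_two, if_pos h2l, hf']
  have hgs : fN p (psh p ψ) = τ * E := by
    have hf0 : fR p (psh p ψ) ≠ 0 := by rw [hfs]; exact div_ne_zero hτ0 hE0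
    have : fR p (psh p ψ) * fN p (psh p ψ) = fR p (psh p ψ) * (τ * E) := by rw [hfg', hfs, ← h2]; field_simp
    exact mul_left_cancel₀ hf0 this
  obtain ⟨m, hm⟩ : ∃ m, p = 4 * m + 1 := ⟨p / 4, by omega⟩
  have e1 : (p - 1) / 2 = 2 * m := by omega
  have e2 : (p - 1) / 4 = m := by omega
  rw [e2, ← h2, hf'] at h5
  rw [e2, ← h2, hfs] at h5'
  have hPD : PD p ψ = (τ ^ 2) ^ m * E / τ := by
    rw [eq_div_iff hτ0]
    field_simp at h5
    linear_combination h5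
  have hPD' : PD p (psh p ψ) = (τ ^ 2) ^ m * E / τ := by
    rw [eq_div_iff hτ0]
    field_simp at h5'
    linear_combination h5'
  rw [e1, hPD, hPD', hf', hg', hfs, hgs, ← h2] at h1
  have hneg : ((-1 : ℂ)) ^ (2 * m) = 1 := by rw [pow_mul]; norm_num
  rw [hneg, pow_mul] at h1
  have ht : (τ ^ 2) ^ m ≠ 0 := pow_ne_zero _ (pow_ne_zero _ hτ0)
  have hEi' : (- a + b * τ) = 1 / E := by rw [eq_div_iff hE0]; linear_combination hEi
  have hb : b = (E + 1 / E) / (2 * τ) := by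
    rw [← hEi', hE]; field_simp; ring
  have ha : a = (E - 1 / E) / 2 := by
    rw [← hEi', hE]; ring
  have h9 : CC p (-1) x * (τ ^ 2) ^ m = (b - a * x) * (τ ^ 2) ^ m := by
    rw [h1, hb, ha]
    push_cast
    field_simp
    ring
  exact mul_right_cancel₀ ht h9

theorem minus_one_neg (hp1 : p % 4 = 1) (h2l : legendreSym p 2 = -1)
    (ψ : AddChar (ZMod p) ℂ) (hψ : ψ.IsPrimitive) (a b E τ : ℂ)
    (hτ : tau p ψ = τ) (hE : E ^ 3 = a + b * τ) (hEi : E ^ 3 * (- a + b * τ) = 1)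
    (hf : fR p ψ * E = τ) (x : ℂ) :
    CC p (-1) x = - b - a * x := by
  have hp2 : p ≠ 2 := by rintro rfl; norm_num at hp1
  have hpos := (Fact.out : p.Prime).two_le
  have hp : 3 < p := by omega
  have hpC : (p : ℂ) ≠ 0 := by exact_mod_cast (Fact.out : p.Prime).ne_zero
  have hψ' := psh_prim p ψ hp2 hψ
  have h1 := minus_val p ψ hp hψ x
  have h2 := tau_sq p ψ hp2 hψ
  have h3 : ch p (-1) = 1 := by simp [ch, quadraticChar_neg_one_one p hp1]
  have h5 : PD p ψ * fR p ψ = (p : ℂ) ^ ((p - 1) / 4) := prod_diff_one p ψ hp hp1 hψ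
  have h5' : PD p (psh p ψ) * fR p (psh p ψ) = (p : ℂ) ^ ((p - 1) / 4) := prod_diff_one p (psh p ψ) hp hp1 hψ'
  have hfg := fR_mul_fN p ψ hp2 hψ
  have hfg' := fR_mul_fN p (psh p ψ) hp2 hψ'
  rw [h3, hτ, one_mul] at h2
  rw [← CC_neg, hτ, sign_one p hp1, h2l] at h1
  have hτ0 : τ ≠ 0 := by intro h; rw [h] at h2; apply hpC; rw [← h2]; norm_num
  have hE0 : E ≠ 0 := by intro h; rw [h] at hEi; simp at hEi
  have hf' : fR p ψ = τ / E := by rw [eq_div_iff hE0, hf]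
  have hg' : fN p ψ = τ * E := by
    have hf0 : fR p ψ ≠ 0 := by rw [hf']; exact div_ne_zero hτ0 hE0
    have : fR p ψ * fN p ψ = fR p ψ * (τ * E) := by rw [hfg, hf', ← h2]; field_simp
    exact mul_left_cancel₀ hf0 this
  have hfs : fR p (psh p ψ) = τ * E := by
    rw [fR_psh p hp2, ← leg_two, if_neg (by rw [h2l]; norm_num), hg']
  have hgs : fN p (psh p ψ) = τ / E := by
    have hf0 : fR p (psh p ψ) ≠ 0 := by rw [hfs]; exact mul_ne_zero hτ0 hE0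
    have : fR p (psh p ψ) * fN p (psh p ψ) = fR p (psh p ψ) * (τ / E) := by rw [hfg', hfs, ← h2]; field_simp
    exact mul_left_cancel₀ hf0 this
  obtain ⟨m, hm⟩ : ∃ m, p = 4 * m + 1 := ⟨p / 4, by omega⟩
  have e1 : (p - 1) / 2 = 2 * m := by omega
  have e2 : (p - 1) / 4 = m := by omega
  rw [e2, ← h2, hf'] at h5
  rw [e2, ← h2, hfs] at h5'
  have hPD : PD p ψ = (τ ^ 2) ^ m * E / τ := by
    rw [eq_div_iff hτ0]
    field_simp at h5
    linear_combination h5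
  have hPD' : PD p (psh p ψ) = (τ ^ 2) ^ m / (τ * E) := by
    rw [eq_div_iff (mul_ne_zero hτ0 hE0)]
    exact h5'
  rw [e1, hPD, hPD', hf', hg', hfs, hgs, ← h2] at h1
  have hneg : ((-1 : ℂ)) ^ (2 * m) = 1 := by rw [pow_mul]; norm_num
  rw [hneg, pow_mul] at h1
  have ht : (τ ^ 2) ^ m ≠ 0 := pow_ne_zero _ (pow_ne_zero _ hτ0)
  have hE30 : E ^ 3 ≠ 0 := pow_ne_zero _ hE0
  have hEi' : (- a + b * τ) = 1 / E ^ 3 := by rw [eq_div_iff hE30]; linear_combination hEi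
  have hb : b = (E ^ 3 + 1 / E ^ 3) / (2 * τ) := by
    rw [← hEi', hE]; field_simp; ring
  have ha : a = (E ^ 3 - 1 / E ^ 3) / 2 := by
    rw [← hEi', hE]; ring
  have h9 : CC p (-1) x * (τ ^ 2) ^ m = (- b - a * x) * (τ ^ 2) ^ m := by
    rw [h1, hb, ha]
    push_cast
    field_simp
    ring
  exact mul_right_cancel₀ ht h9

end

end LegDet
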