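import Pool.Agent.Work.MP_29211c_nt.Field

/-!
# MP_29211c_nt, module NT2: the number of ideals of norm `n` in `ℚ(√p)`
-/

set_option autoImplicit false
set_option linter.unusedSectionVars false

namespace LegDet
namespace IC

open Ideal

section gen

variable {R : Type*} [CommRing R] [IsDedekindDomain R] [Module.Free ℤ R] [Module.Finite ℤ R]
  [CharZero R]

theorem span_sup_span {m n : ℕ} (h : Nat.Coprime m n) :
    span {(m : R)} ⊔ span {(n : R)} = ⊤ := by
  have h1 : IsCoprime (m : R) (n : R) := by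
    have := (Nat.isCoprime_iff_coprime.mpr h).map (Int.castRingHom R)
    simpa using this
  rw [Ideal.eq_top_iff_one, Submodule.mem_sup]
  obtain ⟨a, b, hab⟩ := h1
  exact ⟨a * m, Ideal.mul_mem_left _ _ (Ideal.mem_span_singleton_self _), b * n,
    Ideal.mul_mem_left _ _ (Ideal.mem_span_singleton_self _), hab⟩

theorem span_le_of_norm {I : Ideal R} {m : ℕ} (h : absNorm I = m) : span {(m : R)} ≤ I := by
  rw [← h]; exact span_singleton_absNorm_le I

theorem split_coprime {m n : ℕ} (h : Nat.Coprime m n) (I : Ideal R) (hI : absNorm I = m * n) :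
    (I ⊔ span {(m : R)}) * (I ⊔ span {(n : R)}) = I := by
  have hmn : span {(m : R)} * span {(n : R)} ≤ I := by
    rw [Ideal.span_singleton_mul_span_singleton]
    have := span_le_of_norm hI
    push_cast at this
    exact this
  apply le_antisymm
  · rw [Ideal.sup_mul, Ideal.mul_sup, Ideal.mul_sup]
    refine sup_le (sup_le Ideal.mul_le_left Ideal.mul_le_left) (sup_le Ideal.mul_le_right hmn)
  · calc I = I * (span {(m : R)} ⊔ span {(n : R)}) := by rw [span_sup_span h, Ideal.mul_top]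
      _ = I * span {(m : R)} ⊔ I * span {(n : R)} := by rw [Ideal.mul_sup]
      _ ≤ _ := by
        refine sup_le ?_ ?_
        · rw [mul_comm (I ⊔ _)]
          exact Ideal.mul_mono le_sup_left le_sup_right
        · exact Ideal.mul_mono le_sup_left le_sup_right

theorem norm_sup_coprime {n : ℕ} (I : Ideal R) (k : ℕ) (hk : Nat.Coprime k n)
    : Nat.Coprime (absNorm (I ⊔ span {(k : R)})) n := by
  have h1 : absNorm (I ⊔ span {(k : R)}) ∣ k ^ (Module.finrank ℤ R) := by
    rw [← absNorm_span_natCast (S := R)]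
    exact absNorm_dvd_absNorm_of_le le_sup_right
  exact Nat.Coprime.coprime_dvd_left h1 (Nat.Coprime.pow_left _ hk)

theorem norms {m n : ℕ} (hm : m ≠ 0) (hn : n ≠ 0) (h : Nat.Coprime m n) (I : Ideal R) (hI : absNorm I = m * n) :
    absNorm (I ⊔ span {(m : R)}) = m ∧ absNorm (I ⊔ span {(n : R)}) = n := by
  have ha : Nat.Coprime (absNorm (I ⊔ span {(m : R)})) n := norm_sup_coprime I m h
  have hb : Nat.Coprime (absNorm (I ⊔ span {(n : R)})) m := norm_sup_coprime I n h.symm
  have hab : absNorm (I ⊔ span {(m : R)}) * absNorm (I ⊔ span {(n : R)}) = m * n := by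
    rw [← _root_.map_mul, split_coprime h I hI, hI]
  set a := absNorm (I ⊔ span {(m : R)})
  set b := absNorm (I ⊔ span {(n : R)})
  have h1 : a ∣ m := ha.dvd_of_dvd_mul_right (Dvd.intro _ hab)
  have h2 : b ∣ n := hb.dvd_of_dvd_mul_left (Dvd.intro_left _ hab)
  obtain ⟨u, hu⟩ := h1
  obtain ⟨v, hv⟩ := h2
  have h3 : u * v = 1 := by
    have h4 : a * b ≠ 0 := by rw [hab]; exact mul_ne_zero hm hn
    have h5 : a * b * (u * v) = a * b * 1 := by
      calc a * b * (u * v) = (a * u) * (b * v) := by ring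
        _ = m * n := by rw [← hu, ← hv]
        _ = a * b * 1 := by rw [hab, mul_one]
    exact Nat.eq_of_mul_eq_mul_left (Nat.pos_of_ne_zero h4) h5
  have h6 : u = 1 := Nat.eq_one_of_mul_eq_one_right h3
  have h7 : v = 1 := Nat.eq_one_of_mul_eq_one_left h3
  exact ⟨by rw [hu, h6, mul_one], by rw [hv, h7, mul_one]⟩

theorem mul_sup_left {m n : ℕ} (h : Nat.Coprime m n) (J K : Ideal R) (hJ : absNorm J = m)
    (hK : absNorm K = n) : J * K ⊔ span {(m : R)} = J := by
  have hM := span_le_of_norm hJ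
  have hN := span_le_of_norm hK
  apply le_antisymm
  · exact sup_le Ideal.mul_le_left hM
  · have h1 : K ⊔ span {(m : R)} = ⊤ := by
      rw [eq_top_iff, ← span_sup_span h]
      exact sup_le le_sup_right (hN.trans le_sup_left)
    calc J = J * (K ⊔ span {(m : R)}) := by rw [h1, Ideal.mul_top]
      _ = J * K ⊔ J * span {(m : R)} := by rw [Ideal.mul_sup]
      _ ≤ _ := sup_le_sup_left Ideal.mul_le_right _

theorem card_mul {m n : ℕ} (hm : m ≠ 0) (hn : n ≠ 0) (h : Nat.Coprime m n) :
    Nat.card {I : Ideal R // absNorm I = m * n}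
      = Nat.card {I : Ideal R // absNorm I = m} * Nat.card {I : Ideal R // absNorm I = n} := by
  rw [← Nat.card_prod]
  refine Nat.card_congr
    { toFun := fun I => (⟨I.1 ⊔ span {(m : R)}, (norms hm hn h I.1 I.2).1⟩,
        ⟨I.1 ⊔ span {(n : R)}, (norms hm hn h I.1 I.2).2⟩)
      invFun := fun JK => ⟨JK.1.1 * JK.2.1, by rw [_root_.map_mul, JK.1.2, JK.2.2]⟩
      left_inv := fun I => Subtype.ext (split_coprime h I.1 I.2)
      right_inv := ?_ }
  rintro ⟨⟨J, hJ⟩, ⟨K, hK⟩⟩
  refine Prod.ext (Subtype.ext ?_) (Subtype.ext ?_)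
  · exact mul_sup_left h J K hJ hK
  · change J * K ⊔ span {(n : R)} = K
    rw [mul_comm]
    exact mul_sup_left h.symm K J hK hJ

/-! prime powers -/

variable {q : ℕ}

theorem isMaximal_of_norm (hq : q.Prime) {P : Ideal R} (h : absNorm P = q) : P.IsMaximal := by
  have h1 : P.IsPrime := isPrime_of_irreducible_absNorm (by rw [h]; exact hq)
  refine h1.isMaximal ?_
  rintro rfl
  rw [absNorm_bot] at h
  exact hq.ne_zero h.symm

theorem peel (hq : q.Prime) {A B : Ideal R} (hA : A.IsMaximal ∨ A = ⊤) (hB : B.IsMaximal)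
    (hAB : A * B = span {(q : R)}) {k : ℕ} (I : Ideal R) (hI : absNorm I = q ^ (k + 1)) :
    A ∣ I ∧ A ≠ ⊤ ∨ B ∣ I := by
  have hne : I ≠ ⊤ := by
    rintro rfl
    rw [absNorm_top] at hI
    exact (Nat.one_lt_pow (by omega) hq.one_lt).ne hI
  obtain ⟨Q, hQ, hIQ⟩ := Ideal.exists_le_maximal I hne
  have hqQ : (q : R) ∈ Q := by
    have h1 : ((q ^ (k + 1) : ℕ) : R) ∈ Q := hIQ (by rw [← hI]; exact absNorm_mem I)
    push_cast at h1
    exact hQ.isPrime.mem_of_pow_mem _ h1
  have h2 : A * B ≤ Q := by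
    rw [hAB, Ideal.span_singleton_le_iff_mem]; exact hqQ
  rcases hQ.isPrime.mul_le.mp h2 with h3 | h3
  · rcases hA with hA | hA
    · left
      rw [hA.eq_of_le hQ.ne_top h3, Ideal.dvd_iff_le]
      exact ⟨hIQ, hQ.ne_top⟩
    · exact absurd (top_le_iff.mp (hA ▸ h3)) hQ.ne_top
  · right
    rw [hB.eq_of_le hQ.ne_top h3, Ideal.dvd_iff_le]
    exact hIQ

theorem span_norm (h2 : Module.finrank ℤ R = 2) : absNorm (span {(q : R)}) = q ^ 2 := by
  rw [absNorm_span_natCast, h2]

theorem exists_cofactor (hq : q.Prime) (h2 : Module.finrank ℤ R = 2) {P : Ideal R} (h : absNorm P = q) :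
    ∃ P' : Ideal R, P * P' = span {(q : R)} ∧ absNorm P' = q := by
  have h1 : P ∣ span {(q : R)} := by
    rw [Ideal.dvd_iff_le]; exact span_le_of_norm h
  obtain ⟨P', hP'⟩ := h1
  refine ⟨P', hP'.symm, ?_⟩
  have h3 := span_norm (R := R) (q := q) h2
  rw [hP', _root_.map_mul, h, pow_two] at h3
  exact Nat.eq_of_mul_eq_mul_left hq.pos h3

theorem split_exists {P P' : Ideal R} (hq : q.Prime) (h1 : absNorm P = q) (h1' : absNorm P' = q)
    (hPP : P * P' = span {(q : R)}) (k : ℕ) :
    ∀ I : Ideal R, absNorm I = q ^ k → ∃ i ∈ Finset.range (k + 1), P ^ i * P' ^ (k - i) = I := by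
  induction k with
  | zero =>
    intro I hI
    rw [pow_zero, absNorm_eq_one_iff] at hI
    exact ⟨0, by simp, by simp [hI, Ideal.one_eq_top]⟩
  | succ k ih =>
    intro I hI
    rcases peel hq (Or.inl (isMaximal_of_norm hq h1)) (isMaximal_of_norm hq h1') hPP I hI with h | h
    · obtain ⟨J, hJ⟩ := h.1
      have hJn : absNorm J = q ^ k := by
        rw [hJ, _root_.map_mul, h1, pow_succ, mul_comm] at hI
        exact Nat.eq_of_mul_eq_mul_right hq.pos hI
      obtain ⟨i, hi, hi2⟩ := ih J hJn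
      refine ⟨i + 1, by simp at hi ⊢; omega, ?_⟩
      rw [hJ, ← hi2, Nat.add_sub_add_right, pow_succ]
      ring
    · obtain ⟨J, hJ⟩ := h
      have hJn : absNorm J = q ^ k := by
        rw [hJ, _root_.map_mul, h1', pow_succ, mul_comm] at hI
        exact Nat.eq_of_mul_eq_mul_right hq.pos hI
      obtain ⟨i, hi, hi2⟩ := ih J hJn
      have hik : i ≤ k := by simp at hi; omega
      refine ⟨i, by simp; omega, ?_⟩
      rw [hJ, ← hi2, Nat.succ_sub hik, pow_succ]
      ring

theorem split_inj {P P' : Ideal R} (hq : q.Prime) (h1 : absNorm P = q) (h1' : absNorm P' = q)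
    (hne : P ≠ P') {k i j : ℕ} (hi : i ≤ k) (hj : j ≤ k) (hij : i < j)
    (h : P ^ i * P' ^ (k - i) = P ^ j * P' ^ (k - j)) : False := by
  have hP0 : P ≠ 0 := by
    rintro rfl; rw [map_zero] at h1; exact hq.ne_zero h1.symm
  have hP0' : P' ≠ 0 := by
    rintro rfl; rw [map_zero] at h1'; exact hq.ne_zero h1'.symm
  have h2 : k - i = (j - i) + (k - j) := by omega
  have h3 : j = i + (j - i) := by omega
  rw [h2, pow_add, ← mul_assoc] at h
  nth_rewrite 3 [h3] at h
  rw [pow_add] at h
  have h4 : P' ^ (j - i) = P ^ (j - i) := by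
    have h5 : P ^ i * P' ^ (j - i) = P ^ i * P ^ (j - i) := mul_right_cancel₀ (pow_ne_zero _ hP0') h
    exact mul_left_cancel₀ (pow_ne_zero _ hP0) h5
  have hM := isMaximal_of_norm hq h1
  have hM' := isMaximal_of_norm hq h1'
  have h5 : P' ^ (j - i) ≤ P := by
    rw [h4]; exact Ideal.pow_le_self (by omega)
  have h6 : P' ≤ P := hM.isPrime.le_of_pow_le h5
  exact hne (hM'.eq_of_le hM.ne_top h6).symm

theorem split_card {P P' : Ideal R} (hq : q.Prime) (h1 : absNorm P = q) (h1' : absNorm P' = q)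
    (hPP : P * P' = span {(q : R)}) (hne : P ≠ P') (k : ℕ) :
    Nat.card {I : Ideal R // absNorm I = q ^ k} = k + 1 := by
  classical
  have h2 : {I : Ideal R | absNorm I = q ^ k}
      = ((Finset.range (k + 1)).image (fun i => P ^ i * P' ^ (k - i)) : Finset (Ideal R)) := by
    ext I
    rw [Finset.mem_coe, Finset.mem_image]
    constructor
    · intro hI
      exact split_exists hq h1 h1' hPP k I hI
    · rintro ⟨i, hi, rfl⟩
      have hik : i ≤ k := by simp at hi; omega
      change absNorm (P ^ i * P' ^ (k - i)) = q ^ k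
      rw [_root_.map_mul, _root_.map_pow, _root_.map_pow, h1, h1', ← pow_add, Nat.add_sub_cancel' hik]
  have h3 : Nat.card {I : Ideal R // absNorm I = q ^ k} = Set.ncard {I : Ideal R | absNorm I = q ^ k} := rfl
  rw [h3, h2, Set.ncard_coe_finset, Finset.card_image_of_injOn, Finset.card_range]
  intro i hi j hj hij
  have hi' : i ≤ k := by simp at hi; omega
  have hj' : j ≤ k := by simp at hj; omega
  by_contra hne2
  rcases lt_or_gt_of_ne hne2 with h | h
  · exact split_inj hq h1 h1' hne hi' hj' h hij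
  · exact split_inj hq h1 h1' hne hj' hi' h hij.symm

theorem ram_card {P : Ideal R} (hq : q.Prime) (h1 : absNorm P = q)
    (hPP : P * P = span {(q : R)}) (k : ℕ) :
    Nat.card {I : Ideal R // absNorm I = q ^ k} = 1 := by
  have h2 : {I : Ideal R | absNorm I = q ^ k} = {P ^ k} := by
    ext I
    rw [Set.mem_singleton_iff]
    constructor
    · intro hI
      obtain ⟨i, hi, h⟩ := split_exists hq h1 h1 hPP k I hI
      have hik : i ≤ k := by simp at hi; omega
      rw [← h, ← pow_add, Nat.add_sub_cancel' hik]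
    · rintro rfl
      change absNorm (P ^ k) = q ^ k
      rw [_root_.map_pow, h1]
  have h3 : Nat.card {I : Ideal R // absNorm I = q ^ k} = Set.ncard {I : Ideal R | absNorm I = q ^ k} := rfl
  rw [h3, h2, Set.ncard_singleton]

theorem inert_max (hq : q.Prime) (h2 : Module.finrank ℤ R = 2) (h : ∀ I : Ideal R, absNorm I ≠ q) :
    (span {(q : R)}).IsMaximal := by
  have hne : span {(q : R)} ≠ ⊤ := by
    intro h1
    have h3 := span_norm (R := R) (q := q) h2
    rw [h1, absNorm_top] at h3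
    exact (Nat.one_lt_pow (by omega) hq.one_lt).ne h3
  obtain ⟨Q, hQ, hle⟩ := Ideal.exists_le_maximal _ hne
  have h3 : absNorm Q ∣ q ^ 2 := by
    rw [← span_norm (R := R) (q := q) h2]
    exact absNorm_dvd_absNorm_of_le hle
  obtain ⟨i, hi, hi2⟩ := (Nat.dvd_prime_pow hq).mp h3
  have h4 : Q = span {(q : R)} := by
    interval_cases i
    · rw [pow_zero, absNorm_eq_one_iff] at hi2
      exact absurd hi2 hQ.ne_top
    · rw [pow_one] at hi2
      exact absurd hi2 (h Q)
    · have h5 : Q ∣ span {(q : R)} := by rw [Ideal.dvd_iff_le]; exact hle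
      obtain ⟨J, hJ⟩ := h5
      have h6 := span_norm (R := R) (q := q) h2
      rw [hJ, _root_.map_mul, hi2] at h6
      have h7 : absNorm J = 1 := by
        have h8 : q ^ 2 * absNorm J = q ^ 2 * 1 := by rw [h6, mul_one]
        exact Nat.eq_of_mul_eq_mul_left (pow_pos hq.pos 2) h8
      rw [absNorm_eq_one_iff] at h7
      rw [hJ, h7, Ideal.mul_top]
  rw [← h4]; exact hQ

theorem inert_exists (hq : q.Prime) (h2 : Module.finrank ℤ R = 2) (h : ∀ I : Ideal R, absNorm I ≠ q) (k : ℕ) :
    ∀ I : Ideal R, absNorm I = q ^ k → ∃ i, 2 * i = k ∧ (span {(q : R)}) ^ i = I := by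
  induction k using Nat.strong_induction_on with
  | _ k ih =>
    intro I hI
    rcases k with _ | k
    · rw [pow_zero, absNorm_eq_one_iff] at hI
      exact ⟨0, rfl, by simp [hI, Ideal.one_eq_top]⟩
    · have hM := inert_max hq h2 h
      rcases peel hq (A := ⊤) (Or.inr rfl) hM (by rw [Ideal.top_mul]) I hI with h3 | h3
      · exact absurd rfl h3.2
      · obtain ⟨J, hJ⟩ := h3
        have h4 : q ^ 2 * absNorm J = q ^ (k + 1) := by
          rw [← hI, hJ, _root_.map_mul, span_norm h2]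
        have h5 : 1 ≤ k := by
          by_contra h6
          have h7 : k = 0 := by omega
          subst h7
          have h8 : q ^ 2 ∣ q ^ (0 + 1) := Dvd.intro _ h4
          have := (Nat.pow_dvd_pow_iff_le_right hq.one_lt).mp h8
          omega
        obtain ⟨l, rfl⟩ : ∃ l, k = l + 1 := ⟨k - 1, by omega⟩
        have h6 : absNorm J = q ^ l := by
          have : q ^ 2 * absNorm J = q ^ 2 * q ^ l := by rw [h4, ← pow_add]; congr 1; omega
          exact Nat.eq_of_mul_eq_mul_left (pow_pos hq.pos 2) this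
        obtain ⟨i, hi, hi2⟩ := ih l (by omega) J h6
        exact ⟨i + 1, by omega, by rw [pow_succ, hi2, hJ, mul_comm]⟩

theorem inert_card (hq : q.Prime) (h2 : Module.finrank ℤ R = 2) (h : ∀ I : Ideal R, absNorm I ≠ q) (k : ℕ) :
    Nat.card {I : Ideal R // absNorm I = q ^ k} = if Even k then 1 else 0 := by
  have h3 : Nat.card {I : Ideal R // absNorm I = q ^ k} = Set.ncard {I : Ideal R | absNorm I = q ^ k} := rfl
  rw [h3]
  split_ifs with hk
  · obtain ⟨i, hi⟩ := hk
    have h4 : {I : Ideal R | absNorm I = q ^ k} = {(span {(q : R)}) ^ i} := by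
      ext I
      rw [Set.mem_singleton_iff]
      constructor
      · intro hI
        obtain ⟨j, hj, h⟩ := inert_exists hq h2 h k I hI
        have : j = i := by omega
        rw [← h, this]
      · rintro rfl
        change absNorm ((span {(q : R)}) ^ i) = q ^ k
        rw [_root_.map_pow, span_norm h2, ← pow_mul]
        congr 1; omega
    rw [h4, Set.ncard_singleton]
  · have h4 : {I : Ideal R | absNorm I = q ^ k} = ∅ := by
      ext I
      simp only [Set.mem_empty_iff_false, iff_false]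
      intro hI
      obtain ⟨j, hj, _⟩ := inert_exists hq h2 h k I hI
      exact hk ⟨j, by omega⟩
    rw [h4, Set.ncard_empty]

theorem card_two (hq : q.Prime) (h2 : Module.finrank ℤ R = 2) {P Q : Ideal R} (hP : absNorm P = q)
    (hQ : absNorm Q = q) (hne : P ≠ Q) (k : ℕ) :
    Nat.card {I : Ideal R // absNorm I = q ^ k} = k + 1 := by
  obtain ⟨P', h1, h1'⟩ := exists_cofactor hq h2 hP
  have hM := isMaximal_of_norm hq hP
  have hM' := isMaximal_of_norm hq h1'
  have hMQ := isMaximal_of_norm hq hQ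
  have h3 : P * P' ≤ Q := by rw [h1]; exact span_le_of_norm hQ
  have h4 : P' = Q := by
    rcases hMQ.isPrime.mul_le.mp h3 with h5 | h5
    · exact absurd (hM.eq_of_le hMQ.ne_top h5) hne
    · exact hM'.eq_of_le hMQ.ne_top h5
  subst h4
  exact split_card hq hP h1' h1 hne k

theorem card_one (hq : q.Prime) (h2 : Module.finrank ℤ R = 2) {P : Ideal R} (hP : absNorm P = q)
    (hu : ∀ Q : Ideal R, absNorm Q = q → Q = P) (k : ℕ) :
    Nat.card {I : Ideal R // absNorm I = q ^ k} = 1 := by
  obtain ⟨P', h1, h1'⟩ := exists_cofactor hq h2 hP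
  rw [hu P' h1'] at h1
  exact ram_card hq hP h1 k

/-! homomorphisms to `ZMod q` -/

theorem exists_hom {q : ℕ} (hq : q.Prime) {I : Ideal R} (h : absNorm I = q) :
    ∃ φ : R →+* ZMod q, RingHom.ker φ = I := by
  classical
  have h0 : Nat.card (R ⧸ I) = q := by
    rw [← h, absNorm_apply, Submodule.cardQuot_apply]
  have hfin : Finite (R ⧸ I) := Nat.finite_of_card_ne_zero (by rw [h0]; exact hq.ne_zero)
  letI : Fintype (R ⧸ I) := Fintype.ofFinite _
  have h1 : Fintype.card (R ⧸ I) = q := by rw [← Nat.card_eq_fintype_card, h0]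
  refine ⟨(ZMod.ringEquivOfPrime (R ⧸ I) hq h1).symm.toRingHom.comp (Ideal.Quotient.mk I), ?_⟩
  ext x
  rw [RingHom.mem_ker]
  simp [Ideal.Quotient.eq_zero_iff_mem]

theorem norm_ker {q : ℕ} (φ : R →+* ZMod q) : absNorm (RingHom.ker φ) = q := by
  rw [absNorm_apply, Submodule.cardQuot_apply]
  have h1 : Nat.card (R ⧸ RingHom.ker φ) = Nat.card (ZMod q) :=
    Nat.card_congr (RingHom.quotientKerEquivOfSurjective (ZMod.ringHom_surjective φ)).toEquiv
  rw [h1, Nat.card_zmod]

theorem hom_ext {q : ℕ} {θ : R} (hθ : Algebra.adjoin ℤ {θ} = ⊤) {φ φ' : R →+* ZMod q}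
    (h : φ θ = φ' θ) : φ = φ' := by
  have h1 : φ.toIntAlgHom = φ'.toIntAlgHom := by
    apply AlgHom.ext_of_adjoin_eq_top hθ
    intro x hx
    rw [Set.mem_singleton_iff] at hx
    subst hx
    exact h
  ext x
  exact DFunLike.congr_fun h1 x

theorem exists_lift {q : ℕ} {θ : R} (hθ : Algebra.adjoin ℤ {θ} = ⊤) {c : ℕ}
    (hm : minpoly ℤ θ = Polynomial.X ^ 2 - Polynomial.X - Polynomial.C (c : ℤ)) (b : ZMod q)
    (hb : b ^ 2 - b - c = 0) : ∃ φ : R →+* ZMod q, φ θ = b := by
  have hint : IsIntegral ℤ θ := Algebra.IsIntegral.isIntegral θ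
  obtain ⟨pb, hgen⟩ : ∃ pb : PowerBasis ℤ R, pb.gen = θ :=
    ⟨PowerBasis.ofAdjoinEqTop' hint hθ, PowerBasis.ofAdjoinEqTop'_gen hint hθ⟩
  subst hgen
  exact ⟨(pb.lift b (by rw [hm]; simpa using hb)).toRingHom, PowerBasis.lift_gen _ _ _⟩

theorem root_of_hom {q : ℕ} {θ : R} {c : ℕ} (hm : θ ^ 2 - θ - c = 0) (φ : R →+* ZMod q) :
    (φ θ) ^ 2 - φ θ - c = 0 := by
  have := congrArg φ hm
  simpa using this

/-- the count of ideals of norm `q ^ k` from the roots of `X² - X - c` mod `q`. -/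
theorem count_two {q : ℕ} (hq : q.Prime) (h2 : Module.finrank ℤ R = 2) {θ : R}
    (hθ : Algebra.adjoin ℤ {θ} = ⊤) {c : ℕ}
    (hm : minpoly ℤ θ = Polynomial.X ^ 2 - Polynomial.X - Polynomial.C (c : ℤ)) (b b' : ZMod q)
    (hb : b ^ 2 - b - c = 0) (hb' : b' ^ 2 - b' - c = 0) (hne : b ≠ b') (k : ℕ) :
    Nat.card {I : Ideal R // absNorm I = q ^ k} = k + 1 := by
  obtain ⟨φ, hφ⟩ := exists_lift hθ hm b hb
  obtain ⟨φ', hφ'⟩ := exists_lift hθ hm b' hb'
  refine card_two hq h2 (norm_ker φ) (norm_ker φ') ?_ k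
  intro h
  obtain ⟨m, hm⟩ := ZMod.intCast_surjective b
  have h3 : θ - (m : R) ∈ RingHom.ker φ := by
    rw [RingHom.mem_ker, map_sub, hφ, map_intCast, hm, sub_self]
  rw [h, RingHom.mem_ker, map_sub, hφ', map_intCast, hm, sub_eq_zero] at h3
  exact hne h3.symm

theorem count_one {q : ℕ} (hq : q.Prime) (h2 : Module.finrank ℤ R = 2) {θ : R}
    (hθ : Algebra.adjoin ℤ {θ} = ⊤) {c : ℕ}
    (hm : minpoly ℤ θ = Polynomial.X ^ 2 - Polynomial.X - Polynomial.C (c : ℤ)) (b : ZMod q)
    (hb : b ^ 2 - b - c = 0) (hu : ∀ b' : ZMod q, b' ^ 2 - b' - c = 0 → b' = b) (k : ℕ) :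
    Nat.card {I : Ideal R // absNorm I = q ^ k} = 1 := by
  obtain ⟨φ, hφ⟩ := exists_lift hθ hm b hb
  have hm' : θ ^ 2 - θ - c = 0 := by
    have := minpoly.aeval ℤ θ
    rw [hm] at this
    simpa using this
  refine card_one hq h2 (norm_ker φ) ?_ k
  intro Q hQ
  obtain ⟨ψ, hψ⟩ := exists_hom hq hQ
  rw [← hψ, hom_ext hθ (φ := ψ) (φ' := φ) (by rw [hφ]; exact hu _ (root_of_hom hm' ψ))]

theorem count_zero {q : ℕ} (hq : q.Prime) (h2 : Module.finrank ℤ R = 2) {θ : R} {c : ℕ}
    (hm : minpoly ℤ θ = Polynomial.X ^ 2 - Polynomial.X - Polynomial.C (c : ℤ))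
    (hu : ∀ b : ZMod q, b ^ 2 - b - c ≠ 0) (k : ℕ) :
    Nat.card {I : Ideal R // absNorm I = q ^ k} = if Even k then 1 else 0 := by
  have hm' : θ ^ 2 - θ - c = 0 := by
    have := minpoly.aeval ℤ θ
    rw [hm] at this
    simpa using this
  refine inert_card hq h2 ?_ k
  intro I hI
  obtain ⟨ψ, hψ⟩ := exists_hom hq hI
  exact hu _ (root_of_hom hm' ψ)

end gen

/-! the arithmetic of the character -/

section char

variable (p : ℕ) [hF : Fact p.Prime]

theorem dec2 : ∀ b : ZMod 2, b ^ 2 - b - 1 ≠ 0 := by decide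

theorem leg (q : ℕ) : quadraticChar (ZMod p) (q : ZMod p) = legendreSym p q := by
  rw [legendreSym]; push_cast; rfl

/-- the roots of `X² - X - c` mod `q`. -/
theorem roots_cases (hp : p % 4 = 1) {q : ℕ} (hq : q.Prime) :
    (quadraticChar (ZMod p) (q : ZMod p) = 1 ∧ ∃ b b' : ZMod q,
      b ^ 2 - b - (((p - 1) / 4 : ℕ) : ZMod q) = 0 ∧ b' ^ 2 - b' - (((p - 1) / 4 : ℕ) : ZMod q) = 0 ∧ b ≠ b') ∨
    (quadraticChar (ZMod p) (q : ZMod p) = 0 ∧ ∃ b : ZMod q,
      b ^ 2 - b - (((p - 1) / 4 : ℕ) : ZMod q) = 0 ∧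
        ∀ b' : ZMod q, b' ^ 2 - b' - (((p - 1) / 4 : ℕ) : ZMod q) = 0 → b' = b) ∨
    (quadraticChar (ZMod p) (q : ZMod p) = -1 ∧ ∀ b : ZMod q,
      b ^ 2 - b - (((p - 1) / 4 : ℕ) : ZMod q) ≠ 0) := by
  haveI : Fact q.Prime := ⟨hq⟩
  have hp4 : p = 4 * ((p - 1) / 4) + 1 := by omega
  set c := (p - 1) / 4 with hc
  rcases eq_or_ne q 2 with rfl | hq2
  · rw [leg, show ((2 : ℕ) : ℤ) = 2 by rfl, legendreSym.at_two (by omega), ZMod.χ₈_nat_eq_if_mod_eight]
    rcases Nat.even_or_odd c with he | ho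
    · left
      have h8 : p % 8 = 1 := by
        obtain ⟨d, hd⟩ := he; omega
      have hc0 : (c : ZMod 2) = 0 := (ZMod.natCast_eq_zero_iff_even).mpr he
      refine ⟨by rw [if_neg (by omega), if_pos (by omega)], 0, 1, ?_, ?_, zero_ne_one⟩
      · rw [hc0]; ring
      · rw [hc0]; ring
    · right; right
      have h8 : p % 8 = 5 := by
        obtain ⟨d, hd⟩ := ho; omega
      have hc1 : (c : ZMod 2) = 1 := (ZMod.natCast_eq_one_iff_odd).mpr ho
      refine ⟨by rw [if_neg (by omega), if_neg (by omega)], ?_⟩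
      rw [hc1]; exact dec2
  · have hrec : quadraticChar (ZMod p) (q : ZMod p) = legendreSym q p := by
      rw [leg, legendreSym.quadratic_reciprocity_one_mod_four hp hq2]
    have h20 : (2 : ZMod q) ≠ 0 := by
      intro h
      have h1 : ((2 : ℕ) : ZMod q) = 0 := by exact_mod_cast h
      rw [ZMod.natCast_eq_zero_iff] at h1
      exact hq2 ((Nat.prime_dvd_prime_iff_eq hq Nat.prime_two).mp h1)
    have h40 : (4 : ZMod q) ≠ 0 := by
      rw [show (4 : ZMod q) = 2 * 2 by norm_num]; exact mul_ne_zero h20 h20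
    have hpc : (p : ZMod q) = 4 * (c : ZMod q) + 1 := by
      have := congrArg (Nat.cast : ℕ → ZMod q) hp4
      push_cast at this
      exact this
    have key : ∀ b : ZMod q, b ^ 2 - b - (c : ZMod q) = 0 ↔ (2 * b - 1) ^ 2 = (p : ZMod q) := by
      intro b
      rw [hpc]
      constructor
      · intro h; linear_combination 4 * h
      · intro h
        have h1 : 4 * (b ^ 2 - b - (c : ZMod q)) = 0 := by linear_combination h
        exact (mul_eq_zero.mp h1).resolve_left h40
    have h2inv : (2 : ZMod q) * 2⁻¹ = 1 := mul_inv_cancel₀ h20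
    rw [hrec]
    by_cases hp0 : (p : ZMod q) = 0
    · right; left
      refine ⟨(legendreSym.eq_zero_iff q p).mpr (by exact_mod_cast hp0), 2⁻¹, ?_, ?_⟩
      · rw [key, hp0, h2inv]; ring
      · intro b' hb'
        rw [key, hp0, sq_eq_zero_iff, sub_eq_zero] at hb'
        exact eq_inv_of_mul_eq_one_right (by rw [hb'])
    · have hp0' : ((p : ℤ) : ZMod q) ≠ 0 := by exact_mod_cast hp0
      rcases legendreSym.eq_one_or_neg_one q hp0' with h1 | h1
      · left
        have h3 : IsSquare (p : ZMod q) := by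
          have := (legendreSym.eq_one_iff q hp0').mp h1
          exact_mod_cast this
        obtain ⟨y, hy⟩ := h3
        have hy0 : y ≠ 0 := by rintro rfl; exact hp0 (by rw [hy]; ring)
        refine ⟨h1, (1 + y) * 2⁻¹, (1 - y) * 2⁻¹, ?_, ?_, ?_⟩
        · rw [key, hy]
          linear_combination ((2 * 2⁻¹ + 1) * (1 + y) ^ 2 - 2 * (1 + y)) * h2inv
        · rw [key, hy]
          linear_combination ((2 * 2⁻¹ + 1) * (1 - y) ^ 2 - 2 * (1 - y)) * h2inv
        · intro h
          have h4 : y = 0 := by linear_combination h - y * h2inv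
          exact hy0 h4
      · right; right
        refine ⟨h1, ?_⟩
        intro b hb
        rw [key] at hb
        have h3 : ¬ IsSquare ((p : ℤ) : ZMod q) := (legendreSym.eq_neg_one_iff q).mp h1
        apply h3
        refine ⟨2 * b - 1, ?_⟩
        push_cast
        rw [← hb]; ring

/-- the quadratic character as an arithmetic function. -/
noncomputable def chiA : ArithmeticFunction ℤ := ⟨fun n => quadraticChar (ZMod p) (n : ZMod p), by simp⟩

theorem chiA_mult : (chiA p).IsMultiplicative := by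
  refine ⟨?_, ?_⟩
  · change quadraticChar (ZMod p) ((1 : ℕ) : ZMod p) = 1
    simp
  · intro m n _
    change quadraticChar (ZMod p) ((m * n : ℕ) : ZMod p) = quadraticChar (ZMod p) (m : ZMod p) * quadraticChar (ZMod p) (n : ZMod p)
    rw [Nat.cast_mul, _root_.map_mul]

theorem finrank_OQS : Module.finrank ℤ (NumberField.RingOfIntegers (QS p)) = 2 := by
  rw [NumberField.RingOfIntegers.rank]
  have h1 : Module.finrank ℚ (QS p) = 2 := by
    rw [QS, IntermediateField.adjoin.finrank (isAlgebraic_sqrt p), minpoly_sqrt]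
    compute_degree!
  exact h1

/-- the ideal counting function. -/
noncomputable def cntA : ArithmeticFunction ℤ :=
  ⟨fun n => if n = 0 then 0 else (Nat.card {I : Ideal (NumberField.RingOfIntegers (QS p)) // Ideal.absNorm I = n} : ℤ),
    by simp⟩

theorem cntA_mult : (cntA p).IsMultiplicative := by
  refine ⟨?_, ?_⟩
  · change (if (1 : ℕ) = 0 then (0 : ℤ) else (Nat.card {I : Ideal (NumberField.RingOfIntegers (QS p)) // Ideal.absNorm I = 1} : ℤ)) = 1
    rw [if_neg one_ne_zero]
    have h3 : Nat.card {I : Ideal (NumberField.RingOfIntegers (QS p)) // absNorm I = 1}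
        = Set.ncard {I : Ideal (NumberField.RingOfIntegers (QS p)) | absNorm I = 1} := rfl
    have h4 : {I : Ideal (NumberField.RingOfIntegers (QS p)) | absNorm I = 1} = {⊤} := by
      ext I
      rw [Set.mem_singleton_iff]
      exact absNorm_eq_one_iff
    rw [h3, h4, Set.ncard_singleton]; rfl
  · intro m n h
    rcases eq_or_ne m 0 with rfl | hm
    · simp
    rcases eq_or_ne n 0 with rfl | hn
    · simp
    change (if m * n = 0 then (0 : ℤ) else _) = (if m = 0 then (0 : ℤ) else _) * (if n = 0 then (0 : ℤ) else _)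
    rw [if_neg (mul_ne_zero hm hn), if_neg hm, if_neg hn, card_mul hm hn h]
    push_cast; rfl

theorem main (hp : p % 4 = 1) : cntA p = chiA p * (ArithmeticFunction.zeta : ArithmeticFunction ℤ) := by
  obtain ⟨θ, _, hθ, hmin⟩ := exists_theta p hp
  have h2 := finrank_OQS p
  rw [ArithmeticFunction.IsMultiplicative.eq_iff_eq_on_prime_powers _ (cntA_mult p) _
    ((chiA_mult p).mul ArithmeticFunction.isMultiplicative_zeta.natCast)]
  intro q k hq
  rw [ArithmeticFunction.coe_mul_zeta_apply, Nat.sum_divisors_prime_pow hq]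
  have hL : cntA p (q ^ k) = (Nat.card {I : Ideal (NumberField.RingOfIntegers (QS p)) // Ideal.absNorm I = q ^ k} : ℤ) := by
    change (if q ^ k = 0 then (0 : ℤ) else _) = _
    rw [if_neg (pow_ne_zero _ hq.ne_zero)]
  have hR : ∀ j, chiA p (q ^ j) = (quadraticChar (ZMod p) (q : ZMod p)) ^ j := by
    intro j
    change quadraticChar (ZMod p) ((q ^ j : ℕ) : ZMod p) = _
    push_cast
    rw [_root_.map_pow]
  rw [hL]
  simp_rw [hR]
  rcases roots_cases p hp hq with ⟨h1, b, b', hb, hb', hne⟩ | ⟨h1, b, hb, hu⟩ | ⟨h1, hu⟩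
  · rw [count_two hq h2 hθ hmin b b' hb hb' hne k, h1]
    simp
  · rw [count_one hq h2 hθ hmin b hb hu k, h1]
    simp [Finset.sum_range_succ']
  · rw [count_zero hq h2 hmin hu k, h1]
    clear hL
    induction k with
    | zero => simp
    | succ k ih =>
      rw [Finset.sum_range_succ, ← ih]
      rcases Nat.even_or_odd k with he | ho
      · have h5 : ¬ Even (k + 1) := by rw [Nat.even_add_one]; exact fun h => h he
        rw [if_pos he, if_neg h5, he.add_one.neg_one_pow]
        norm_num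
      · have h5 : Even (k + 1) := ho.add_one
        rw [if_neg (Nat.not_even_iff_odd.mpr ho), if_pos h5, h5.neg_one_pow]
        norm_num

end char

end IC

open NumberField in
theorem card_ideal (p : ℕ) [Fact p.Prime] (hp : p % 4 = 1) (n : ℕ) (hn : n ≠ 0) :
    (Nat.card {I : Ideal (𝓞 (QS p)) // Ideal.absNorm I = n} : ℤ)
      = ∑ d ∈ n.divisors, quadraticChar (ZMod p) (d : ZMod p) := by
  have h := congrArg (fun f : ArithmeticFunction ℤ => f n) (IC.main p hp)
  simp only [ArithmeticFunction.coe_mul_zeta_apply] at h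
  have hL : IC.cntA p n = (Nat.card {I : Ideal (NumberField.RingOfIntegers (QS p)) // Ideal.absNorm I = n} : ℤ) := by
    change (if n = 0 then (0 : ℤ) else _) = _
    rw [if_neg hn]
  rw [hL] at h
  exact h

end LegDet
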